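import Pool.Agent.PK4.PW0
import Pool.Agent.ONE.Fin
import Pool.Agent.BWM.C16

/-!
# The fourth moments of eigenfunctions and their plane waves (MP_4fa179_mp, project L4)

`φₙ` real Laplace eigenfunctions on a closed surface, `κₙ = avg φₙ⁴`, `Fₙ(x)` the rescaled wave at a random
point in a random frame (`Berry.rWave`, `Berry.rFrameProb`), `A_N(v)` (`PWV.coef`) the mean of
`Fₙ(x) e^{-i v · x}` over the box `{0, …, N - 1}²`, `E_N = E (9 N² / 16 π²) ∫ |A_N(v)|⁴ dv` (`PWV.en`).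

**THEOREM.** (1) `φₙ² → 1` weakly: `κₙ ≤ 3 + 3 E_N + ε κₙ` for `N ≥ N₀(ε)` and large `n`. (2) `φₙ` quantum
ergodic: `|κₙ - 3 - 3 E_N| ≤ ε κₙ`. (3) `φₙ` quantum ergodic: `κₙ → 3` if and only if there are no plane
waves in `L⁴`, `E sup_v |A_N(v)|⁴ → 0`. (4) Negative curvature, every sequence: all moments of order at
most four are Gaussian in the limit if and only if `φₙ² → 1` weakly and there are no plane waves in `L⁴`.

Nothing is assumed on the moments. Every module proves one `StmtXxx` in `Pool/Agent/PK4/XXX.lean`.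
-/

set_option autoImplicit false

open Complex MeasureTheory Filter Topology Set
open UpperHalfPlane hiding I
open scoped ContDiff MatrixGroups ProbabilityTheory ENNReal

namespace PK4

open PWV NFP

noncomputable section

/-- the mean of `φₙ⁴` -/
def km (ρ : ℍ → ℝ) (D : Set ℍ) (φ : ℕ → ℍ → ℝ) (n : ℕ) : ℝ := Berry.rAvg ρ D fun z => φ n z ^ 4

/-- the expected energy of the plane waves in `Fₙ`, in boxes of side `N` -/
def enM (ρ : ℍ → ℝ) (D : Set ℍ) (φ : ℕ → ℍ → ℝ) (m : ℕ → ℝ) (N n : ℕ) : ℝ :=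
  ∫ p, en (fun x => Berry.rWave ρ (φ n) (m n) x p) N ∂(Berry.rFrameProb ρ D)

/-- the four-point function of `Fₙ` -/
def gm (ρ : ℍ → ℝ) (D : Set ℍ) (φ : ℕ → ℍ → ℝ) (m : ℕ → ℝ) (n : ℕ) (x : Fin 4 → ℂ) : ℝ :=
  ∫ p, Berry.rWave ρ (φ n) (m n) (x 0) p * Berry.rWave ρ (φ n) (m n) (x 1) p
    * Berry.rWave ρ (φ n) (m n) (x 2) p * Berry.rWave ρ (φ n) (m n) (x 3) p ∂(Berry.rFrameProb ρ D)

/-- **no plane waves in `L⁴`**: `E sup_v |A_N(v)|⁴ → 0` for `n → ∞` and then `N → ∞`, where `A_N(v)` is the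
mean of `Fₙ(x) e^{-i v · x}` over the box of side `N` and `v` is any vector -/
def Box4 (ρ : ℍ → ℝ) (D : Set ℍ) (φ : ℕ → ℍ → ℝ) (m : ℕ → ℝ) : Prop :=
  ∀ ε > 0, ∃ N₀ : ℕ, ∀ N ≥ N₀, ∀ᶠ n in atTop,
    ∫⁻ p, ⨆ v : ℂ, ENNReal.ofReal
      (‖PWV.coef (fun x => Berry.rWave ρ (φ n) (m n) x p) N v‖ ^ 4) ∂(Berry.rFrameProb ρ D)
      ≤ ENNReal.ofReal ε

/-- EX4: expectations over a box. (The statement is for any bounded functions on a probability space.)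
Proof. As `PWV/EXP.lean`, `PWV/SUP.lean`. (1), (2): `en f N = 9 / 4 * qs N (f f f f)` (`par_closed`), a
finite sum over `quads N`, all points are in `box N`; products of four bounded measurable functions are
integrable; `en` is nonnegative. (3) NIK (`t_NIK t_PRS t_SQR`): `⨆ v, ofReal ‖coef‖⁴ ≤ ofReal (16 / 9 en)`;
`∫⁻ ofReal (en) = ofReal (∫ en)` (`ofReal_integral_eq_lintegral_ofReal`). (4) LOW (`t_LOW t_PRS`) with
`S = √T`, `T = (⨆ v, ofReal ‖coef‖⁴).toReal` (finite by NIK; `‖coef‖² ≤ √T`):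
`en ≤ 9 / 4 √T loc ≤ 9 / 8 (T / δ + δ loc²)`, and `loc² ≤ N⁻² ∑ F⁴` (Cauchy-Schwarz,
`inner_mul_le_norm_mul_norm` or `Finset.sum_mul_sq_le_sq_mul_sq`, `sq_sum_le_card_mul_sum_sq`); integrate
as in SUP: `lintegral_add_right`, `lintegral_const_mul'` (the supremum need not be measurable), and
`ENNReal.ofReal_le_ofReal_iff` at the end. `N = 0`: `box 0 = ∅`, everything is zero. -/
def StmtEx4 : Prop :=
  ∀ (Ω : Type) [MeasurableSpace Ω] (P : Measure Ω) [IsProbabilityMeasure P] (F : ℂ → Ω → ℝ)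
    (C : ℝ) (N : ℕ), (∀ q ∈ box N, Measurable (F (pt q))) → (∀ q ∈ box N, ∀ o, |F (pt q) o| ≤ C) →
    0 ≤ ∫ o, en (fun x => F x o) N ∂P ∧
    ∫ o, en (fun x => F x o) N ∂P
      = 9 / 4 * qs N (fun x => ∫ o, F (x 0) o * F (x 1) o * F (x 2) o * F (x 3) o ∂P) ∧
    ∫⁻ o, ⨆ v : ℂ, ENNReal.ofReal (‖coef (fun x => F x o) N v‖ ^ 4) ∂P
      ≤ ENNReal.ofReal (16 / 9 * ∫ o, en (fun x => F x o) N ∂P) ∧
    ∀ δ > 0, ∀ S ≥ 0,
      ∫⁻ o, ⨆ v : ℂ, ENNReal.ofReal (‖coef (fun x => F x o) N v‖ ^ 4) ∂P ≤ ENNReal.ofReal S →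
      ∫ o, en (fun x => F x o) N ∂P
        ≤ 9 / 8 * (S / δ + δ * (1 / (N : ℝ) ^ 2 * ∑ q ∈ box N, ∫ o, F (pt q) o ^ 4 ∂P))

/-- NNG: the energy of a Gaussian wave is nonnegative.
Proof. On `quads N`: `x₂ - x₃ = x₀ - x₁` and `x₁ - x₃ = x₀ - x₂` (`x₀ + x₃ = x₁ + x₂`), so for fixed `θ`,
`K(u) = dirK s (e^{iθ} u)` (even in `u`: `dirK s (-u) = dirK s u`), the first two products are squares;
the third, `K(x₀ - x₃) K(x₁ - x₂)`: group the quadruples by `k = x₀ + x₃ = x₁ + x₂`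
(`Finset.sum_fiberwise_of_maps_to` or write `quads N` as a disjoint union; compare `PWV/SQR.lean`,
`PWV/PAR.lean`, where `∑_k cv(k)²` is written as the sum over `quads N`): the sum over the quadruples
with given `k` is `(∑_{x + y = k} K(x - y))²`. So the sum is nonnegative for every `θ`, and `qs N (dirWick s)`
is `(1 / 2π) ∫_θ` of these sums (finite sum of integrals of continuous functions of `θ`; `dirK s` is
continuous, see `ONE/` or `NFP/` or `PWV/WKQ.lean`). -/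
def StmtNng : Prop := ∀ s : Measure S1, IsFiniteMeasure s → ∀ N : ℕ, 0 ≤ qs N (dirWick s)

/-- LQ4: the four-point function of the random wave over additive quadruples.
Proof. `QE.wick x = dirWick s x` for the uniform probability measure `s` on `S1` (search: `uniS` in
`Pool/Agent/CRM`, `CRN`, `BSL`; `dirK uniS = waveK`), and `wkq_closed` for `s` (`dg s = 0`, and the same for
the antidiagonal: `s` has no atoms). Or directly: on `quads N` all three products are small unless two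
of the points are close to each other, `|waveK u| ≤ δ` for `‖u‖ ≥ R` (`Berry.waveK_vanishes`). -/
def StmtLq4 : Prop := Tendsto (fun N => qs N QE.wick) atTop (𝓝 0)

/-- UPP: the sequence of the fourth moments is at most `3` in the limit if there are no plane waves.
(Real numbers only.) Proof. Let `0 < η ≤ 1`. Take `ε = η / 100` in `hU`, and `δ = η / 100`,
`ε' = δ η / 100` in `hB`, and one `N` for both: `κ ≤ 3 + 27 / 8 (ε' / δ + 2 δ κ) + ε κ`, so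
`κ (1 - 27 δ / 4 - ε) ≤ 3 + 27 ε' / (8 δ)`, hence `κ ≤ 3 + η`. -/
def StmtUpp : Prop :=
  ∀ (κ : ℕ → ℝ) (e : ℕ → ℕ → ℝ), (∀ n, 0 ≤ κ n) →
    (∀ ε > 0, ∃ N₀ : ℕ, ∀ N ≥ N₀, ∀ᶠ n in atTop, κ n ≤ 3 + 3 * e N n + ε * κ n) →
    (∀ ε > 0, ∀ δ > 0, ∃ N₀ : ℕ, ∀ N ≥ N₀, ∀ᶠ n in atTop, e N n ≤ 9 / 8 * (ε / δ + δ * (2 * κ n))) →
    ∀ η > 0, ∀ᶠ n in atTop, κ n ≤ 3 + η

/-- the hypotheses on the surface and the eigenfunctions -/
structure Hy (Γ : Subgroup SL(2, ℝ)) (ρ : ℍ → ℝ) (D : Set ℍ) (φ : ℕ → ℍ → ℝ) (m : ℕ → ℝ) : Prop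
    where
  fac : QE.NC.Fac Γ ρ
  meas : MeasurableSet D
  fd : IsFundamentalDomain Γ D (volume : Measure ℍ)
  eig : Berry.REigenSeq Γ ρ φ m
  smooth : ∀ n, ContDiffOn ℝ ∞ (fun w : ℂ => φ n (ofComplex w)) {w | 0 < w.im}
  norm : ∀ n, Berry.rAvg ρ D (fun z => φ n z ^ 2) = 1

/-- WV4: for large `n` the waves at the points of the box are measurable and bounded.
Proof. `ONE.ev_cont` (its hypothesis `Hyp` contains the sign of the curvature; copy the proof, which uses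
only `Geo`: `(Berry.surf_of_cocompact fd meas fac.cpt rc fac.inv eig).geo`), for the finitely many points
of `box N`; `|rWave| ≤ sup |φₙ|` (`Berry.bdd_of_cocompact`). -/
def StmtWv4 : Prop :=
  ∀ (Γ : Subgroup SL(2, ℝ)) [Countable Γ] (ρ : ℍ → ℝ) (D : Set ℍ) (φ : ℕ → ℍ → ℝ) (m : ℕ → ℝ),
    Hy Γ ρ D φ m → ∀ N : ℕ, ∀ᶠ n in atTop,
      (∀ q ∈ box N, Measurable (Berry.rWave ρ (φ n) (m n) (pt q))) ∧
      ∃ C : ℝ, ∀ q ∈ box N, ∀ p, |Berry.rWave ρ (φ n) (m n) (pt q) p| ≤ C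

/-- LW4: the two laws of the fourth moments, all sequences with `φₙ² → 1` weakly.
(a) `κₙ ≤ 3 + 3 E_N + ε κₙ`. (b) `E Fₙ(y)⁴ / κₙ → 1`.
Proof of (b), for every sequence. By subsequences (`tendsto_of_subseq_tendsto`, as in
`CRN/PTS.lean`): bounded `κ`: `NFP.exist_closed` (a further subsequence with a semiclassical measure),
`NFP.exists_dat`, `Dat.main fourVar_closed glob` with `w = 1`, `x = ![y, y, y, y]`: `dirWick s x = 3 p²`,
`resK x = 3`; `κ → ∞`: `NFP.infty_closed`. (a) Suppose not: for some `ε` there are arbitrarily large `N`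
with `3 + 3 E_N + ε κ < κ` for infinitely many `n`; take `N` with `|9 / 4 qs N resK - 1| ≤ ε / 10`
(`rkq_closed`). Subsequence with bounded `κ` and a semiclassical measure: `Dat`, `p = 1` a.e. by `Equi`
(compare `ONE.mass`; `QE.ae_zero_of_test`), so for every `x`,
`gm x - (rAvg (dirWick (s z) x) + (κ - 3) / 3 resK x) → 0`; finite sum over `quads N` with EX4, WV4 and
NNG: `E_N ≥ (κ - 3) / 3 c - o(1)`, `c = 9 / 4 qs N resK`. Subsequence with `κ → ∞`: `infty_closed`,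
`E_N ≥ κ / 3 c - o(κ)`. -/
def StmtLw4 : Prop :=
  StmtEx4 → StmtNng → StmtWv4 →
  ∀ (Γ : Subgroup SL(2, ℝ)) [Countable Γ] (ρ : ℍ → ℝ) (D : Set ℍ) (φ : ℕ → ℍ → ℝ) (m : ℕ → ℝ),
    Hy Γ ρ D φ m →
    (Equi φ → ∀ ε > 0, ∃ N₀ : ℕ, ∀ N ≥ N₀, ∀ᶠ n in atTop,
      km ρ D φ n ≤ 3 + 3 * enM ρ D φ m N n + ε * km ρ D φ n) ∧
    ∀ y : ℂ, Tendsto (fun n => gm ρ D φ m n ![y, y, y, y] / km ρ D φ n) atTop (𝓝 1)

/-- QE4: quantum ergodic sequences.
Proof. `QE.four_surface` (`BWM/C15` or `C16`): `(gm x - (wick x + (κ - 3) defc x)) / κ → 0`,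
`defc x = resK x / 3`; finite sum over `quads N` with EX4, WV4; LQ4, `rkq_closed`; `κ ≥ 1`. -/
def StmtQe4 : Prop :=
  StmtEx4 → StmtLq4 → StmtWv4 →
  ∀ (Γ : Subgroup SL(2, ℝ)) [Countable Γ] (ρ : ℍ → ℝ) (D : Set ℍ) (φ : ℕ → ℍ → ℝ) (m : ℕ → ℝ),
    Hy Γ ρ D φ m → QE.QuantumErgodic ρ φ m →
    ∀ ε > 0, ∃ N₀ : ℕ, ∀ N ≥ N₀, ∀ᶠ n in atTop,
      |km ρ D φ n - 3 - 3 * enM ρ D φ m N n| ≤ ε * km ρ D φ n

/-- BX4: from `L⁴` to the moments. Proof. EX4 (4) with WV4 and LW4 (b) (`∑ ∫ F⁴ ≤ 2 κ N²` for large `n`)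
gives the hypothesis `hB` of UPP; `κ ≤ 3 + η` by UPP. -/
def StmtBx4 : Prop :=
  StmtEx4 → StmtUpp → StmtWv4 →
  ∀ (Γ : Subgroup SL(2, ℝ)) [Countable Γ] (ρ : ℍ → ℝ) (D : Set ℍ) (φ : ℕ → ℍ → ℝ) (m : ℕ → ℝ),
    Hy Γ ρ D φ m →
    (∀ y : ℂ, Tendsto (fun n => gm ρ D φ m n ![y, y, y, y] / km ρ D φ n) atTop (𝓝 1)) →
    (∀ ε > 0, ∃ N₀ : ℕ, ∀ N ≥ N₀, ∀ᶠ n in atTop,
      km ρ D φ n ≤ 3 + 3 * enM ρ D φ m N n + ε * km ρ D φ n) →
    Box4 ρ D φ m → ∀ η > 0, ∀ᶠ n in atTop, km ρ D φ n ≤ 3 + η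

end

end PK4
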