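import Pool.Agent.PWV.LIM
import Pool.Agent.PK4.St

/-!
# PK4: BX4, from plane waves in `L⁴` to the fourth moments
-/

set_option autoImplicit false

open Complex MeasureTheory Filter Topology Set
open UpperHalfPlane hiding I
open scoped ContDiff MatrixGroups ProbabilityTheory ENNReal

namespace PK4

open PWV NFP

noncomputable section

namespace BX4

lemma geo {Γ : Subgroup SL(2, ℝ)} [Countable Γ] {ρ : ℍ → ℝ} {D : Set ℍ} {φ : ℕ → ℍ → ℝ}
    {m : ℕ → ℝ} (H : Hy Γ ρ D φ m) : Berry.Geo Γ ρ D :=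
  (Berry.surf_of_cocompact H.fd H.meas H.fac.cpt (QE.NC.Fac.cont H.fac) H.fac.inv H.eig).geo

lemma km_nonneg (ρ : ℍ → ℝ) (D : Set ℍ) (φ : ℕ → ℍ → ℝ) (n : ℕ) : 0 ≤ km ρ D φ n := by
  unfold km Berry.rAvg
  exact integral_nonneg fun z => by positivity

lemma gm_diag (ρ : ℍ → ℝ) (D : Set ℍ) (φ : ℕ → ℍ → ℝ) (m : ℕ → ℝ) (n : ℕ) (y : ℂ) :
    ∫ p, Berry.rWave ρ (φ n) (m n) y p ^ 4 ∂(Berry.rFrameProb ρ D)
      = gm ρ D φ m n ![y, y, y, y] := by
  unfold gm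
  refine integral_congr_ae (Eventually.of_forall fun p => ?_)
  simp only [Matrix.cons_val_zero, Matrix.cons_val_one, Matrix.cons_val]
  ring

lemma avg_le {N : ℕ} {f : ℕ × ℕ → ℝ} {b : ℝ} (hb : 0 ≤ b) (h : ∀ q ∈ box N, f q ≤ b) :
    1 / (N : ℝ) ^ 2 * ∑ q ∈ box N, f q ≤ b := by
  rcases Nat.eq_zero_or_pos N with h0 | h0
  · subst h0
    simpa using hb
  · have h1 : ∑ q ∈ box N, f q ≤ (N : ℝ) ^ 2 * b := by
      refine (Finset.sum_le_card_nsmul _ _ b h).trans (le_of_eq ?_)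
      rw [nsmul_eq_mul, LIM.card_box]
      push_cast
      rfl
    have h2 : (0 : ℝ) < (N : ℝ) ^ 2 := by positivity
    rw [one_div, inv_mul_le_iff₀ h2]
    exact h1

end BX4

theorem t_BX4 : StmtBx4 := by
  intro hE hU hW Γ _ ρ D φ m H hg hk hB
  have hprob : IsProbabilityMeasure (Berry.rFrameProb ρ D) := Berry.rFrameProb_isProb (BX4.geo H)
  refine hU (fun n => km ρ D φ n) (fun N n => enM ρ D φ m N n) (BX4.km_nonneg ρ D φ) hk ?_
  intro ε hε δ hδ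
  obtain ⟨N₀, hN₀⟩ := hB ε hε
  refine ⟨N₀, fun N hN => ?_⟩
  have h1 : ∀ᶠ n in atTop, ∀ q ∈ box N,
      gm ρ D φ m n ![pt q, pt q, pt q, pt q] ≤ 2 * km ρ D φ n := by
    rw [Filter.eventually_all_finset]
    intro q _
    have h2 := (hg (pt q)).eventually (Ioo_mem_nhds (show (1 / 2 : ℝ) < 1 by norm_num)
      (show (1 : ℝ) < 2 by norm_num))
    filter_upwards [h2] with n hn
    have h0 : 0 ≤ km ρ D φ n := BX4.km_nonneg ρ D φ n
    have h3 : km ρ D φ n ≠ 0 := by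
      intro h4
      have h5 := hn.1
      rw [h4, div_zero] at h5
      norm_num at h5
    have h4 : 0 < km ρ D φ n := lt_of_le_of_ne h0 (Ne.symm h3)
    exact ((div_lt_iff₀ h4).1 hn.2).le
  filter_upwards [hN₀ N hN, hW Γ ρ D φ m H N, h1] with n ha hb hc
  obtain ⟨hm, C, hC⟩ := hb
  obtain ⟨-, -, -, h4⟩ := hE (ℍ × ℝ) (Berry.rFrameProb ρ D) (Berry.rWave ρ (φ n) (m n)) C N hm hC
  have h5 := h4 δ hδ ε hε.le ha
  refine h5.trans ?_
  have h6 : 1 / (N : ℝ) ^ 2 * ∑ q ∈ box N, ∫ p, Berry.rWave ρ (φ n) (m n) (pt q) p ^ 4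
      ∂(Berry.rFrameProb ρ D) ≤ 2 * km ρ D φ n := by
    refine BX4.avg_le (by have := BX4.km_nonneg ρ D φ n; linarith) fun q hq => ?_
    rw [BX4.gm_diag]
    exact hc q hq
  have h7 := mul_le_mul_of_nonneg_left h6 hδ.le
  linarith

end

end PK4
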