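import Pool.Agent.PK4.St

/-!
# PK4: module EX4, expectations over a box (helper95)
-/

set_option autoImplicit false

open Complex MeasureTheory Filter Topology Set
open UpperHalfPlane hiding I
open scoped ContDiff MatrixGroups ProbabilityTheory ENNReal

namespace PK4

open PWV NFP

namespace EX4

theorem abs_four {a b c d C : ℝ} (ha : |a| ≤ C) (hb : |b| ≤ C) (hc : |c| ≤ C) (hd : |d| ≤ C) :
    ‖a * b * c * d‖ ≤ C ^ 4 := by
  have hC : 0 ≤ C := (abs_nonneg a).trans ha
  rw [Real.norm_eq_abs, abs_mul, abs_mul, abs_mul]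
  have h1 : |a| * |b| ≤ C * C := mul_le_mul ha hb (abs_nonneg _) hC
  have h2 : |a| * |b| * |c| ≤ C * C * C := mul_le_mul h1 hc (abs_nonneg _) (by positivity)
  have h3 : |a| * |b| * |c| * |d| ≤ C * C * C * C := mul_le_mul h2 hd (abs_nonneg _) (by positivity)
  calc _ ≤ _ := h3
    _ = C ^ 4 := by ring

theorem mem_quads {N : ℕ} {q : (ℕ × ℕ) × (ℕ × ℕ) × (ℕ × ℕ) × (ℕ × ℕ)} (hq : q ∈ quads N) :
    q.1 ∈ box N ∧ q.2.1 ∈ box N ∧ q.2.2.1 ∈ box N ∧ q.2.2.2 ∈ box N := by
  unfold quads at hq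
  simp only [Finset.mem_filter, Finset.mem_product] at hq
  exact ⟨hq.1.1, hq.1.2.1, hq.1.2.2.1, hq.1.2.2.2⟩

/-- Cauchy-Schwarz for the local mass -/
theorem loc_le (f : ℂ → ℝ) (N : ℕ) :
    loc f N ^ 2 ≤ 1 / (N : ℝ) ^ 2 * ∑ q ∈ box N, f (pt q) ^ 4 := by
  have hc : ((box N).card : ℝ) = (N : ℝ) ^ 2 := by
    unfold box
    rw [Finset.card_product, Finset.card_range]
    push_cast
    ring
  have h1 := sq_sum_le_card_mul_sum_sq (s := box N) (f := fun q => f (pt q) ^ 2)
  rw [hc] at h1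
  have h2 : ∑ q ∈ box N, (f (pt q) ^ 2) ^ 2 = ∑ q ∈ box N, f (pt q) ^ 4 :=
    Finset.sum_congr rfl fun q _ => by ring
  rw [h2] at h1
  unfold loc
  rcases Nat.eq_zero_or_pos N with h0 | h0
  · subst h0
    simp [box]
  · have hN : (0 : ℝ) < (N : ℝ) := by exact_mod_cast h0
    calc (1 / (N : ℝ) ^ 2 * ∑ q ∈ box N, f (pt q) ^ 2) ^ 2
        = (1 / (N : ℝ) ^ 2) ^ 2 * (∑ q ∈ box N, f (pt q) ^ 2) ^ 2 := mul_pow _ _ _
      _ ≤ (1 / (N : ℝ) ^ 2) ^ 2 * ((N : ℝ) ^ 2 * ∑ q ∈ box N, f (pt q) ^ 4) :=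
        mul_le_mul_of_nonneg_left h1 (by positivity)
      _ = _ := by
        field_simp

end EX4

open EX4 in
theorem t_EX4 : StmtEx4 := by
  intro Ω _ P _ F C N hm hb
  have h1 : StmtPar := par_closed
  have h2 : StmtNik := t_NIK t_PRS t_SQR
  have h3 : StmtLow := t_LOW t_PRS
  have h4 : ∀ p ∈ box N, ∀ q ∈ box N, ∀ r ∈ box N, ∀ s ∈ box N,
      Integrable (fun o => F (pt p) o * F (pt q) o * F (pt r) o * F (pt s) o) P := by
    intro p hp q hq r hr s hs
    refine Integrable.of_bound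
      ((((hm p hp).mul (hm q hq)).mul (hm r hr)).mul (hm s hs)).aestronglyMeasurable (C ^ 4) ?_
    exact Eventually.of_forall fun o => abs_four (hb p hp o) (hb q hq o) (hb r hr o) (hb s hs o)
  have hen : ∀ o, en (fun x => F x o) N = 9 / 4 * (1 / (N : ℝ) ^ 6 * ∑ q ∈ quads N,
      F (pt q.1) o * F (pt q.2.1) o * F (pt q.2.2.1) o * F (pt q.2.2.2) o) := by
    intro o
    rw [h1]
    rfl
  have hq4 : ∀ q ∈ quads N, Integrable
      (fun o => F (pt q.1) o * F (pt q.2.1) o * F (pt q.2.2.1) o * F (pt q.2.2.2) o) P := by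
    intro q hq
    obtain ⟨a, b, c, d⟩ := mem_quads hq
    exact h4 _ a _ b _ c _ d
  have hI1 : Integrable (fun o => en (fun x => F x o) N) P := by
    simp only [hen]
    exact ((integrable_finsetSum _ hq4).const_mul _).const_mul _
  have hpos : ∀ o, 0 ≤ en (fun x => F x o) N := fun o => PWV.EXP.en_nonneg _ N
  have hI2 : Integrable (fun o => loc (fun x => F x o) N ^ 2) P := by
    simp only [PWV.EXP.loc_sq]
    exact (integrable_finsetSum _ fun p hp => integrable_finsetSum _ fun q hq =>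
      h4 p hp p hp q hq q hq).const_mul _
  have hF4 : ∀ q ∈ box N, Integrable (fun o => F (pt q) o ^ 4) P := by
    intro q hq
    have e : (fun o => F (pt q) o ^ 4) =
        fun o => F (pt q) o * F (pt q) o * F (pt q) o * F (pt q) o := by
      funext o
      ring
    rw [e]
    exact h4 q hq q hq q hq q hq
  refine ⟨integral_nonneg hpos, ?_, ?_, ?_⟩
  · simp only [hen]
    rw [integral_const_mul, integral_const_mul, integral_finsetSum _ hq4]
    rfl
  · rw [← integral_const_mul, ofReal_integral_eq_lintegral_ofReal (hI1.const_mul _)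
      (Eventually.of_forall fun o => mul_nonneg (by norm_num) (hpos o))]
    exact lintegral_mono fun o => iSup_le fun v => ENNReal.ofReal_le_ofReal (h2 _ N v)
  · intro δ hδ S hS0 hS
    set M : ℝ := 1 / (N : ℝ) ^ 2 * ∑ q ∈ box N, ∫ o, F (pt q) o ^ 4 ∂P with hM
    have hint : ∫ o, loc (fun x => F x o) N ^ 2 ∂P ≤ M := by
      have h5 : ∫ o, (1 / (N : ℝ) ^ 2 * ∑ q ∈ box N, F (pt q) o ^ 4) ∂P = M := by
        rw [integral_const_mul, integral_finsetSum _ hF4]
      rw [← h5]
      exact integral_mono hI2 ((integrable_finsetSum _ hF4).const_mul _)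
        fun o => loc_le (fun x => F x o) N
    have hM0 : 0 ≤ M := (integral_nonneg fun o => sq_nonneg _).trans hint
    have hg : AEMeasurable (fun o => ENNReal.ofReal (9 / 8 * δ * loc (fun x => F x o) N ^ 2)) P :=
      (hI2.const_mul _).aestronglyMeasurable.aemeasurable.ennreal_ofReal
    have hc : 0 < δ⁻¹ := inv_pos.2 hδ
    have key : ENNReal.ofReal (∫ o, en (fun x => F x o) N ∂P) ≤
        ENNReal.ofReal (9 / 8 * (S / δ + δ * M)) := by
      rw [ofReal_integral_eq_lintegral_ofReal hI1 (Eventually.of_forall hpos)]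
      calc ∫⁻ o, ENNReal.ofReal (en (fun x => F x o) N) ∂P
          ≤ ∫⁻ o, (ENNReal.ofReal (9 / 8 * δ⁻¹) *
              (⨆ v : ℂ, ENNReal.ofReal (‖coef (fun x => F x o) N v‖ ^ 4)) +
              ENNReal.ofReal (9 / 8 * δ * loc (fun x => F x o) N ^ 2)) ∂P :=
            lintegral_mono fun o => PWV.SUP.pw h2 h3 _ N hδ
        _ = ENNReal.ofReal (9 / 8 * δ⁻¹) *
              (∫⁻ o, ⨆ v : ℂ, ENNReal.ofReal (‖coef (fun x => F x o) N v‖ ^ 4) ∂P) +
              ∫⁻ o, ENNReal.ofReal (9 / 8 * δ * loc (fun x => F x o) N ^ 2) ∂P := by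
            rw [lintegral_add_right' _ hg, lintegral_const_mul' _ _ ENNReal.ofReal_ne_top]
        _ ≤ ENNReal.ofReal (9 / 8 * δ⁻¹) * ENNReal.ofReal S +
              ENNReal.ofReal (9 / 8 * δ * M) := by
            refine add_le_add (mul_le_mul' le_rfl hS) ?_
            rw [← ofReal_integral_eq_lintegral_ofReal (hI2.const_mul _)
              (Eventually.of_forall fun o => by positivity), integral_const_mul]
            exact ENNReal.ofReal_le_ofReal (mul_le_mul_of_nonneg_left hint (by positivity))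
        _ = ENNReal.ofReal (9 / 8 * (S / δ + δ * M)) := by
            rw [← ENNReal.ofReal_mul (by positivity), ← ENNReal.ofReal_add (by positivity)
              (by positivity)]
            congr 1
            rw [div_eq_mul_inv]
            ring
    exact (ENNReal.ofReal_le_ofReal_iff (by positivity)).1 key

end PK4
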