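import Pool.Agent.PK4.NCM

/-!
# CNE: negative curvature, the converse
-/

set_option autoImplicit false

open Complex MeasureTheory Filter Topology Set
open UpperHalfPlane hiding I
open scoped ContDiff MatrixGroups ProbabilityTheory ENNReal

namespace PK4

open QE QE.NC NFP NFP.BND PWV BSL

noncomputable section

namespace CNE

variable {Γ : Subgroup SL(2, ℝ)} {ρ : ℍ → ℝ} {D : Set ℍ} {φ : ℕ → ℍ → ℝ} {m : ℕ → ℝ}

/-- the energies along a subsequence with a semiclassical measure -/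
lemma en_lim (h1 : StmtEx4) (h3 : StmtWv4) [Countable Γ] (H : Hy Γ ρ D φ m) {ns : ℕ → ℕ}
    (hns : Tendsto ns atTop atTop) {W : (Fin 4 → ℂ) → ℝ} {S : ℝ}
    (hx : ∀ x, Tendsto (fun i => gm ρ D φ m (ns i) x
      - (W x + (km ρ D φ (ns i) - 3 * S) / 3 * resK x)) atTop (𝓝 0)) (N : ℕ) :
    Tendsto (fun i => enM ρ D φ m N (ns i) - (9 / 4 * qs N W
      + (km ρ D φ (ns i) - 3 * S) / 3 * (9 / 4 * qs N resK))) atTop (𝓝 0) := by
  have a1 := (LW4.qs_lim N hx).const_mul (9 / 4 : ℝ)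
  have e0 : qs N (fun _ => (0 : ℝ)) = 0 := by simp [qs]
  rw [e0, mul_zero] at a1
  refine a1.congr' ?_
  filter_upwards [hns.eventually (LW4.enM_eq h1 h3 H N)] with i hi
  rw [hi]
  have := LW4.qs_lin N (gm ρ D φ m (ns i)) resK W 1 (-((km ρ D φ (ns i) - 3 * S) / 3)) (-1)
  have e2 : (fun x => gm ρ D φ m (ns i) x
      - (W x + (km ρ D φ (ns i) - 3 * S) / 3 * resK x))
      = fun x => 1 * gm ρ D φ m (ns i) x + -((km ρ D φ (ns i) - 3 * S) / 3) * resK x
        + -1 * W x := by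
    funext x
    ring
  rw [e2, this]
  ring

/-- the converse -/
theorem equi (h1 : StmtEx4) (h3 : StmtWv4) [Countable Γ] (H : Hy Γ ρ D φ m) (hneg : Neg ρ)
    (hB : ∃ B : ℝ, ∀ n, km ρ D φ n ≤ B)
    (hf : ∀ ε > 0, ∃ N₀ : ℕ, ∀ N ≥ N₀, ∀ᶠ n in atTop,
      km ρ D φ n ≤ 3 + 3 * enM ρ D φ m N n + ε * km ρ D φ n) : Equi φ := by
  obtain ⟨B, hB⟩ := hB
  have hB1 : 1 ≤ B := (LW4.km_ge H 0).trans (hB 0)
  intro ζ z1 z2 z3
  refine tendsto_of_subseq_tendsto fun ns hns => ?_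
  obtain ⟨j, s, hj, hfin, js2, -, hone, hW, hEq, hx⟩ := NCM.exists_neg (LW4.Hy_comp H hns) hneg
    ⟨B, fun n => hB (ns n)⟩
  have hg : Berry.Geo Γ ρ D :=
    geo_of H.meas H.fd H.fac.cpt (continuous_of_smooth H.fac.smooth) H.fac.inv
  have hP := ONE.prob_nu hg
  have hst : Tendsto (fun n => ns (j n)) atTop atTop := hns.comp hj.tendsto_atTop
  set S2 := Berry.rAvg ρ D (fun z => (s z univ).toReal ^ 2) with hS2
  have j1 : Integrable (fun z => ((s z) univ).toReal) (ProbabilityTheory.cond (Berry.area ρ) D) :=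
    ONE.int_mass js2
  have hge : 1 ≤ S2 := FIN.one_le j1 js2 hone
  have hw := hW.const_mul (9 / 4 : ℝ)
  rw [mul_zero] at hw
  have hc := rkq_closed.1.const_mul (9 / 4 : ℝ)
  have hc1 : (9 / 4 : ℝ) * (4 / 9) = 1 := by norm_num
  rw [hc1] at hc
  have hle : S2 ≤ 1 := by
    refine le_of_forall_pos_le_add fun ε hε => ?_
    have hA : 0 < B + 3 * S2 := by linarith
    set δ := ε / (2 * (B + 3 * S2)) with hδ
    have hδ0 : 0 < δ := by positivity
    obtain ⟨N₀, hN₀⟩ := hf (ε / (2 * B)) (by positivity)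
    have hw' := hw.eventually_lt_const (show (0 : ℝ) < ε / 10 by positivity)
    have hc' := (Metric.tendsto_nhds.1 hc) δ hδ0
    obtain ⟨N, ⟨b1, b2⟩, b3⟩ := ((hw'.and hc').and (eventually_ge_atTop N₀)).exists
    rw [Real.dist_eq] at b2
    have b4 := en_lim h1 h3 H hst hx N
    have b5 := (Metric.tendsto_nhds.1 b4) (ε / 10) (by positivity)
    obtain ⟨i, c1, c2⟩ := (b5.and (hst.eventually (hN₀ N b3))).exists
    rw [Real.dist_eq, sub_zero] at c1
    have c3 := (abs_lt.1 c1).2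
    have c4 := hB (ns (j i))
    have c5 := LW4.km_ge H (ns (j i))
    set κ := km ρ D φ (ns (j i)) with hκ
    set c := 9 / 4 * qs N resK with hcd
    have c6 : ε / (2 * B) * κ ≤ ε / 2 := by
      have e1 : ε / (2 * B) * κ ≤ ε / (2 * B) * B :=
        mul_le_mul_of_nonneg_left c4 (by positivity)
      have e2 : ε / (2 * B) * B = ε / 2 := by field_simp
      linarith
    have c7 : (κ - 3 * S2) * (c - 1) ≤ ε / 2 := by
      have e1 : |(κ - 3 * S2) * (c - 1)| ≤ (B + 3 * S2) * δ := by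
        rw [abs_mul]
        refine mul_le_mul ?_ b2.le (abs_nonneg _) hA.le
        rw [abs_le]
        constructor <;> linarith
      have e2 : (B + 3 * S2) * δ = ε / 2 := by
        rw [hδ]
        field_simp
      exact (le_abs_self _).trans (e1.trans e2.le)
    nlinarith
  have hmass := ONE.ae_nu hg (FIN.ae_one j1 js2 hone (le_antisymm hle hge))
  exact ⟨j, hEq.1 hmass ζ z1 z2 z3⟩

end CNE

end

end PK4
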