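import Pool.Agent.PK4.St

/-!
# LW4: the two laws of the fourth moments
-/

set_option autoImplicit false

open Complex MeasureTheory Filter Topology Set
open UpperHalfPlane hiding I
open scoped ContDiff MatrixGroups ProbabilityTheory ENNReal

namespace PK4

open QE QE.NC NFP NFP.BND PWV

noncomputable section

namespace LW4

variable {Γ : Subgroup SL(2, ℝ)} {ρ : ℍ → ℝ} {D : Set ℍ} {φ : ℕ → ℍ → ℝ} {m : ℕ → ℝ}
  {u : ℤ → ℂ → ℂ} {s : ProbabilityTheory.Kernel ℍ S1}

/-! ### the mass -/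

/-- the squares against complex test functions -/
lemma test_cplx (hE : Equi φ) (hc : ∀ n, Continuous (φ n)) {ζ : ℂ → ℂ} (hζ : Test UH ζ) :
    Tendsto (fun n => ∫ z, ζ z * ((φ n (ofComplex z) : ℂ) * (φ n (ofComplex z) : ℂ))) atTop
      (𝓝 (∫ z, ζ z)) := by
  have p1 : ContDiff ℝ ∞ fun z => (ζ z).re := Complex.reCLM.contDiff.comp hζ.smooth
  have p2 : ContDiff ℝ ∞ fun z => (ζ z).im := Complex.imCLM.contDiff.comp hζ.smooth
  have s1 : tsupport (fun z => (ζ z).re) ⊆ tsupport ζ := closure_mono fun z hz => by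
    rw [Function.mem_support] at hz ⊢
    intro h0
    exact hz (by rw [h0]; rfl)
  have s2 : tsupport (fun z => (ζ z).im) ⊆ tsupport ζ := closure_mono fun z hz => by
    rw [Function.mem_support] at hz ⊢
    intro h0
    exact hz (by rw [h0]; rfl)
  have c1 : HasCompactSupport fun z => (ζ z).re := hζ.supp.mono' (subset_closure.trans s1)
  have c2 : HasCompactSupport fun z => (ζ z).im := hζ.supp.mono' (subset_closure.trans s2)
  have e1 := hE _ p1 c1 (s1.trans hζ.sub)
  have e2 := hE _ p2 c2 (s2.trans hζ.sub)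
  have k1 := (Complex.continuous_ofReal.tendsto _).comp e1
  have k2 := ((Complex.continuous_ofReal.tendsto _).comp e2).mul_const Complex.I
  have hint : ∀ {ψ : ℂ → ℝ}, Continuous ψ → HasCompactSupport ψ → tsupport ψ ⊆ UH → ∀ n,
      Integrable fun z => ψ z * φ n (ofComplex z) ^ 2 := by
    intro ψ h1 h2 h3 n
    have h4 : Continuous fun z : ℂ => ψ z * φ n (ofComplex z) ^ 2 := by
      rw [continuous_iff_continuousAt]
      intro z
      by_cases hz : z ∈ tsupport ψ
      · have h5 : ContinuousAt (fun z : ℂ => φ n (ofComplex z)) z :=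
          (cont_ofComplex (hc n)).continuousAt (isOpen_UH.mem_nhds (h3 hz))
        exact h1.continuousAt.mul (h5.pow 2)
      · have h5 : (fun z : ℂ => ψ z * φ n (ofComplex z) ^ 2) =ᶠ[𝓝 z] fun _ => 0 := by
          filter_upwards [(isClosed_tsupport ψ).isOpen_compl.mem_nhds hz] with w hw
          rw [image_eq_zero_of_notMem_tsupport hw, zero_mul]
        exact (continuousAt_const (y := (0 : ℝ))).congr h5.symm
    exact h4.integrable_of_hasCompactSupport (h2.mul_right)
  have k3 := k1.add k2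
  have iz : Integrable ζ := hζ.smooth.continuous.integrable_of_hasCompactSupport hζ.supp
  have e3 : ((∫ z, (ζ z).re : ℝ) : ℂ) + ((∫ z, (ζ z).im : ℝ) : ℂ) * Complex.I = ∫ z, ζ z :=
    integral_re_add_im iz
  rw [e3] at k3
  refine k3.congr fun n => ?_
  have i1 := hint p1.continuous c1 (s1.trans hζ.sub) n
  have i2 := hint p2.continuous c2 (s2.trans hζ.sub) n
  have e4 : (fun z => ζ z * ((φ n (ofComplex z) : ℂ) * (φ n (ofComplex z) : ℂ)))
      = fun z => (((ζ z).re * φ n (ofComplex z) ^ 2 : ℝ) : ℂ)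
        + (((ζ z).im * φ n (ofComplex z) ^ 2 : ℝ) : ℂ) * Complex.I := by
    funext z
    conv_lhs => rw [← Complex.re_add_im (ζ z)]
    push_cast
    ring
  rw [e4, integral_add i1.ofReal (i2.ofReal.mul_const _), integral_mul_const]
  simp only [Function.comp_apply]
  congr 1
  · exact (integral_ofReal (𝕜 := ℂ) (μ := volume) (f := fun z : ℂ => (ζ z).re
      * φ n (ofComplex z) ^ 2)).symm
  · congr 1
    exact (integral_ofReal (𝕜 := ℂ) (μ := volume) (f := fun z : ℂ => (ζ z).im
      * φ n (ofComplex z) ^ 2)).symm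

/-- the mass is one -/
lemma mass_one (T : Dat Γ ρ D φ m u s) (hE : Equi φ) : ∀ᵐ z : ℍ, ((s z) univ).toReal = 1 := by
  have hw0 : WLim UH (fun n z => (φ n (ofComplex z) : ℂ) * (φ n (ofComplex z) : ℂ)) (u 0) :=
    T.set.lim_zero T.lim.loc T.lim.lim 0
  have hloc : LocL2 UH (fun z => u 0 z - 1) := by
    intro K hK hKU
    have : IsFiniteMeasure ((volume : Measure ℂ).restrict K) :=
      ⟨by rw [Measure.restrict_apply_univ]; exact hK.measure_lt_top⟩
    exact (T.lim.loc 0 K hK hKU).sub (memLp_const 1)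
  have hz : ∀ᵐ z ∂((volume : Measure ℂ).restrict UH), u 0 z - 1 = 0 := by
    refine ae_zero_of_test isOpen_UH hloc fun ζ hζ => ?_
    have h1 := hw0.test hζ
    have h2 := test_cplx hE T.ws.pc hζ
    have h3 : ∫ z, ζ z * u 0 z = ∫ z, ζ z := tendsto_nhds_unique h1 h2
    have i1 : Integrable (fun z => ζ z * u 0 z) := hζ.integrable_loc (T.lim.loc 0)
    have iz : Integrable ζ := hζ.smooth.continuous.integrable_of_hasCompactSupport hζ.supp
    have h4 : (fun z => ζ z * (u 0 z - 1)) = fun z => ζ z * u 0 z - ζ z := by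
      funext z
      ring
    rw [h4, integral_sub i1 iz, h3, sub_self]
  have h5 : ∀ᵐ z : ℍ, u 0 (z : ℂ) - 1 = 0 := QE.FM.ae_H hz
  filter_upwards [h5, T.uH] with z h6 h7
  have h8 : (((s z) univ).toReal : ℂ) = 1 := by
    rw [← h7]
    exact sub_eq_zero.1 h6
  exact_mod_cast h8

/-! ### subsequences -/

lemma Hy_comp (H : Hy Γ ρ D φ m) {t : ℕ → ℕ} (ht : Tendsto t atTop atTop) :
    Hy Γ ρ D (fun n => φ (t n)) (fun n => m (t n)) :=
  ⟨H.fac, H.meas, H.fd, reig_comp H.eig ht, fun n => H.smooth _, fun n => H.norm _⟩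

lemma equi_comp (hE : Equi φ) {t : ℕ → ℕ} (ht : Tendsto t atTop atTop) :
    Equi (fun n => φ (t n)) := fun ζ a b c => (hE ζ a b c).comp ht

/-- bounded fourth moments -/
lemma exists_lim [Countable Γ] (H : Hy Γ ρ D φ m) (hB : ∃ B : ℝ, ∀ n, km ρ D φ n ≤ B) :
    ∃ (j : ℕ → ℕ) (s : ProbabilityTheory.Kernel ℍ S1), StrictMono j ∧
      (∀ z, IsFiniteMeasure (s z)) ∧
      IntegrableOn (fun z => (s z univ).toReal ^ 2) D (Berry.area ρ) ∧
      (∀ x, IntegrableOn (fun z => dirWick (s z) x) D (Berry.area ρ)) ∧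
      (Equi φ → ∀ᵐ z : ℍ, ((s z) univ).toReal = 1) ∧
      ∀ x, Tendsto (fun n => gm ρ D φ m (j n) x - (Berry.rAvg ρ D (fun z => dirWick (s z) x)
        + (km ρ D φ (j n) - 3 * Berry.rAvg ρ D (fun z => (s z univ).toReal ^ 2)) / 3 * resK x))
        atTop (𝓝 0) := by
  obtain ⟨B, hB⟩ := hB
  obtain ⟨i, μ, hi, hμ⟩ := exist_closed Γ ρ D φ m inferInstance H.fac H.meas H.fd H.eig H.smooth
    H.norm
  have H' := Hy_comp H hi.tendsto_atTop
  obtain ⟨N, u, s, hm1, hμ', hμe, T⟩ := exists_dat (Γ := Γ) (ρ := ρ) (D := D)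
    (φ := fun n => φ (i n)) (m := fun n => m (i n)) (μ := μ) inferInstance H'.fac H'.meas H'.fd
    H'.eig H'.smooth ⟨B, fun n => hB (i n)⟩ hμ
  refine ⟨fun n => i (n + N), s, fun a b hab => hi (by omega), T.fin, T.psq glob,
    T.wick_int fourVar_closed glob, fun hE => ?_, fun x => ?_⟩
  · exact mass_one T (equi_comp hE
      (hi.tendsto_atTop.comp (tendsto_add_atTop_nat N)))
  · have h1 := T.main fourVar_closed glob (fun _ => 1) continuous_const (fun _ _ _ => rfl) x
    simp only [one_mul] at h1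
    exact h1

lemma km_nonneg (n : ℕ) : 0 ≤ km ρ D φ n := by
  unfold km Berry.rAvg
  exact integral_nonneg fun z => by positivity

/-- the fourth moments are at least one -/
lemma km_ge [Countable Γ] (H : Hy Γ ρ D φ m) (n : ℕ) : 1 ≤ km ρ D φ n := by
  have hρc : Continuous ρ := continuous_of_smooth H.fac.smooth
  have hg : Berry.Geo Γ ρ D := QE.NC.geo_of H.meas H.fd H.fac.cpt hρc H.fac.inv
  have hc : Continuous (φ n) := continuous_of_smooth (H.smooth n)
  obtain ⟨C, hC⟩ := Berry.bdd_of_cocompact hc (H.eig.invariant n) H.fac.cpt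
  have hP : IsProbabilityMeasure (ProbabilityTheory.cond (Berry.area ρ) D) :=
    ProbabilityTheory.cond_isProbabilityMeasure_of_finite (Berry.area_ne_zero hg)
      (Berry.area_ne_top hg)
  have i2 : Integrable (fun z => φ n z ^ 2) (ProbabilityTheory.cond (Berry.area ρ) D) := by
    refine Integrable.of_bound (hc.pow 2).aestronglyMeasurable (C ^ 2)
      (Eventually.of_forall fun z => ?_)
    rw [Real.norm_eq_abs, abs_pow]
    exact pow_le_pow_left₀ (abs_nonneg _) (hC z) 2
  have i4 : Integrable (fun z => φ n z ^ 4) (ProbabilityTheory.cond (Berry.area ρ) D) := by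
    refine Integrable.of_bound (hc.pow 4).aestronglyMeasurable (C ^ 4)
      (Eventually.of_forall fun z => ?_)
    rw [Real.norm_eq_abs, abs_pow]
    exact pow_le_pow_left₀ (abs_nonneg _) (hC z) 4
  have h1 : 0 ≤ ∫ z, (φ n z ^ 4 - 2 * φ n z ^ 2 + 1) ∂(ProbabilityTheory.cond (Berry.area ρ) D) :=
    integral_nonneg fun z => by
      show 0 ≤ φ n z ^ 4 - 2 * φ n z ^ 2 + 1
      nlinarith [sq_nonneg (φ n z ^ 2 - 1)]
  have i5 : Integrable (fun z => 2 * φ n z ^ 2) (ProbabilityTheory.cond (Berry.area ρ) D) :=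
    i2.const_mul 2
  have e1 : ∫ z, (φ n z ^ 4 - 2 * φ n z ^ 2 + 1) ∂(ProbabilityTheory.cond (Berry.area ρ) D)
      = ∫ z, (φ n z ^ 4 - 2 * φ n z ^ 2) ∂(ProbabilityTheory.cond (Berry.area ρ) D)
        + ∫ _, (1 : ℝ) ∂(ProbabilityTheory.cond (Berry.area ρ) D) :=
    integral_add (i4.sub i5) (integrable_const 1)
  have e2 : ∫ z, (φ n z ^ 4 - 2 * φ n z ^ 2) ∂(ProbabilityTheory.cond (Berry.area ρ) D)
      = ∫ z, φ n z ^ 4 ∂(ProbabilityTheory.cond (Berry.area ρ) D)
        - ∫ z, 2 * φ n z ^ 2 ∂(ProbabilityTheory.cond (Berry.area ρ) D) := integral_sub i4 i5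
  have h2 : ∫ z, φ n z ^ 2 ∂(ProbabilityTheory.cond (Berry.area ρ) D) = 1 := H.norm n
  rw [e1, e2, integral_const_mul, h2, integral_const, probReal_univ, one_smul] at h1
  show 1 ≤ ∫ z, φ n z ^ 4 ∂(ProbabilityTheory.cond (Berry.area ρ) D)
  linarith

/-- the two cases -/
lemma cases [Countable Γ] (H : Hy Γ ρ D φ m) {ns : ℕ → ℕ} (hns : Tendsto ns atTop atTop) :
    ∃ t : ℕ → ℕ, Tendsto t atTop atTop ∧
      ((Tendsto (fun i => km ρ D φ (ns (t i))) atTop atTop ∧
          ∀ x, Tendsto (fun i => (gm ρ D φ m (ns (t i)) x - km ρ D φ (ns (t i)) / 3 * resK x)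
            / km ρ D φ (ns (t i))) atTop (𝓝 0)) ∨
        ∃ s : ProbabilityTheory.Kernel ℍ S1, (∀ z, IsFiniteMeasure (s z)) ∧
          IntegrableOn (fun z => (s z univ).toReal ^ 2) D (Berry.area ρ) ∧
          (∀ x, IntegrableOn (fun z => dirWick (s z) x) D (Berry.area ρ)) ∧
          (Equi φ → ∀ᵐ z : ℍ, ((s z) univ).toReal = 1) ∧
          ∀ x, Tendsto (fun i => gm ρ D φ m (ns (t i)) x
            - (Berry.rAvg ρ D (fun z => dirWick (s z) x)
              + (km ρ D φ (ns (t i)) - 3 * Berry.rAvg ρ D (fun z => (s z univ).toReal ^ 2)) / 3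
                * resK x)) atTop (𝓝 0)) := by
  by_cases hbd : ∃ B : ℝ, ∃ᶠ i in atTop, km ρ D φ (ns i) ≤ B
  · obtain ⟨B, hB⟩ := hbd
    obtain ⟨t, ht, htB⟩ := extraction_of_frequently_atTop hB
    have hst : Tendsto (fun i => ns (t i)) atTop atTop := hns.comp ht.tendsto_atTop
    obtain ⟨j, s, hj, a1, a2, a3, a4, a5⟩ := exists_lim (Hy_comp H hst) ⟨B, fun n => htB n⟩
    exact ⟨fun i => t (j i), ht.tendsto_atTop.comp hj.tendsto_atTop, Or.inr
      ⟨s, a1, a2, a3, fun hE => a4 (equi_comp hE hst), a5⟩⟩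
  · have hinf : Tendsto (fun i => km ρ D φ (ns i)) atTop atTop := by
      rw [tendsto_atTop]
      intro B
      have h1 : ¬ ∃ᶠ i in atTop, km ρ D φ (ns i) ≤ B := fun h => hbd ⟨B, h⟩
      rw [not_frequently] at h1
      filter_upwards [h1] with i hi
      exact (not_le.1 hi).le
    have H' := Hy_comp H hns
    refine ⟨id, tendsto_id, Or.inl ⟨hinf, fun x => ?_⟩⟩
    have h1 := infty_closed Γ ρ D (fun i => φ (ns i)) (fun i => m (ns i)) inferInstance H'.fac
      H'.meas H'.fd H'.eig H'.smooth H'.norm hinf (fun _ => 1) continuous_const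
      (fun _ _ _ => rfl) x
    simp only [one_mul] at h1
    exact h1

/-! ### the diagonal -/

lemma dirK_zero' (s : Measure S1) : NFP.dirK s 0 = (s univ).toReal := by
  unfold NFP.dirK
  simp [Measure.real]

lemma dirWick_diag (s : Measure S1) (y : ℂ) :
    dirWick s ![y, y, y, y] = 3 * (s univ).toReal ^ 2 := by
  have hpi : (2 * Real.pi : ℝ) ≠ 0 := by have := Real.pi_pos; positivity
  unfold dirWick
  simp only [Matrix.cons_val_zero, Matrix.cons_val_one, Matrix.cons_val, sub_self, mul_zero,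
    dirK_zero', intervalIntegral.integral_const, sub_zero, smul_eq_mul]
  field_simp
  ring

lemma resK_diag (y : ℂ) : resK ![y, y, y, y] = 3 := by
  unfold resK
  simp only [Matrix.cons_val_zero, Matrix.cons_val_one, Matrix.cons_val]
  have h1 : y + y - y - y = 0 := by ring
  rw [h1, Berry.waveK_zero]
  norm_num

lemma diag [Countable Γ] (H : Hy Γ ρ D φ m) (y : ℂ) :
    Tendsto (fun n => gm ρ D φ m n ![y, y, y, y] / km ρ D φ n) atTop (𝓝 1) := by
  refine tendsto_of_subseq_tendsto fun ns hns => ?_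
  obtain ⟨t, ht, h | h⟩ := cases H hns
  · refine ⟨t, ?_⟩
    obtain ⟨hinf, h1⟩ := h
    have h2 := (h1 ![y, y, y, y]).add_const 1
    rw [zero_add] at h2
    refine h2.congr' ?_
    filter_upwards [hinf.eventually_gt_atTop 0] with i hi
    rw [resK_diag]
    field_simp
    ring
  · refine ⟨t, ?_⟩
    obtain ⟨s, hs, i1, i2, -, h1⟩ := h
    have h2 : Tendsto (fun i => gm ρ D φ m (ns (t i)) ![y, y, y, y] - km ρ D φ (ns (t i)))
        atTop (𝓝 0) := by
      refine (h1 ![y, y, y, y]).congr fun i => ?_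
      have e1 : Berry.rAvg ρ D (fun z => dirWick (s z) ![y, y, y, y])
          = 3 * Berry.rAvg ρ D (fun z => (s z univ).toReal ^ 2) := by
        unfold Berry.rAvg
        rw [← integral_const_mul]
        congr 1
        funext z
        exact dirWick_diag _ _
      rw [resK_diag, e1]
      ring
    have h3 : Tendsto (fun i => (gm ρ D φ m (ns (t i)) ![y, y, y, y] - km ρ D φ (ns (t i)))
        / km ρ D φ (ns (t i))) atTop (𝓝 0) := by
      refine squeeze_zero_norm (fun i => ?_) (tendsto_zero_iff_norm_tendsto_zero.1 h2)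
      rw [norm_div]
      refine div_le_self (norm_nonneg _) ?_
      rw [Real.norm_eq_abs]
      exact (km_ge H _).trans (le_abs_self _)
    have h4 := h3.add_const 1
    rw [zero_add] at h4
    refine h4.congr fun i => ?_
    have h5 : km ρ D φ (ns (t i)) ≠ 0 := by
      have := km_ge H (ns (t i))
      positivity
    field_simp
    ring

/-! ### the energy -/

lemma enM_eq (h1 : StmtEx4) (h3 : StmtWv4) [Countable Γ] (H : Hy Γ ρ D φ m) (N : ℕ) :
    ∀ᶠ n in atTop, enM ρ D φ m N n = 9 / 4 * qs N (gm ρ D φ m n) := by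
  have hρc : Continuous ρ := continuous_of_smooth H.fac.smooth
  have hg : Berry.Geo Γ ρ D := QE.NC.geo_of H.meas H.fd H.fac.cpt hρc H.fac.inv
  have hP := Berry.rFrameProb_isProb hg
  filter_upwards [h3 Γ ρ D φ m H N] with n hn
  obtain ⟨a1, C, a2⟩ := hn
  exact (h1 (ℍ × ℝ) (Berry.rFrameProb ρ D) (fun x => Berry.rWave ρ (φ n) (m n) x) C N a1 a2).2.1

lemma qs_lim (N : ℕ) {G : ℕ → (Fin 4 → ℂ) → ℝ} {L : (Fin 4 → ℂ) → ℝ}
    (h : ∀ x, Tendsto (fun i => G i x) atTop (𝓝 (L x))) :
    Tendsto (fun i => qs N (G i)) atTop (𝓝 (qs N L)) := by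
  unfold qs
  exact (tendsto_finsetSum _ fun q _ => h _).const_mul _

lemma qs_lin (N : ℕ) (G R W : (Fin 4 → ℂ) → ℝ) (a b c : ℝ) :
    qs N (fun x => a * G x + b * R x + c * W x) = a * qs N G + b * qs N R + c * qs N W := by
  unfold qs
  rw [Finset.sum_add_distrib, Finset.sum_add_distrib, ← Finset.mul_sum, ← Finset.mul_sum,
    ← Finset.mul_sum]
  ring

lemma ae_area {P : ℍ → Prop} (h : ∀ᵐ z : ℍ, P z) :
    ∀ᵐ z ∂(ProbabilityTheory.cond (Berry.area ρ) D), P z := by
  refine (ProbabilityTheory.cond_absolutelyContinuous.trans ?_).ae_le h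
  exact withDensity_absolutelyContinuous _ _

/-- the energy of the limit is nonnegative -/
lemma qs_rAvg [Countable Γ] (h2 : StmtNng) {s : ProbabilityTheory.Kernel ℍ S1}
    (hs : ∀ z, IsFiniteMeasure (s z)) (hg : Berry.Geo Γ ρ D)
    (hi : ∀ x, IntegrableOn (fun z => dirWick (s z) x) D (Berry.area ρ)) (N : ℕ) :
    0 ≤ qs N (fun x => Berry.rAvg ρ D (fun z => dirWick (s z) x)) := by
  have hcond : ∀ x, Integrable (fun z => dirWick (s z) x)
      (ProbabilityTheory.cond (Berry.area ρ) D) := by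
    intro x
    unfold ProbabilityTheory.cond
    exact (hi x).smul_measure (ENNReal.inv_ne_top.2 (Berry.area_ne_zero hg))
  have e1 : qs N (fun x => Berry.rAvg ρ D (fun z => dirWick (s z) x))
      = Berry.rAvg ρ D (fun z => qs N (dirWick (s z))) := by
    unfold qs Berry.rAvg
    rw [integral_const_mul, integral_finset_sum _ fun q _ => hcond _]
  rw [e1]
  unfold Berry.rAvg
  exact integral_nonneg fun z => h2 (s z) (hs z) N

/-- the upper bound -/
lemma upper (h1 : StmtEx4) (h2 : StmtNng) (h3 : StmtWv4) [Countable Γ] (H : Hy Γ ρ D φ m)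
    (hE : Equi φ) {ε : ℝ} (hε : 0 < ε) : ∃ N₀ : ℕ, ∀ N ≥ N₀, ∀ᶠ n in atTop,
      km ρ D φ n ≤ 3 + 3 * enM ρ D φ m N n + ε * km ρ D φ n := by
  have hρc : Continuous ρ := continuous_of_smooth H.fac.smooth
  have hg : Berry.Geo Γ ρ D := QE.NC.geo_of H.meas H.fd H.fac.cpt hρc H.fac.inv
  have hP : IsProbabilityMeasure (ProbabilityTheory.cond (Berry.area ρ) D) :=
    ProbabilityTheory.cond_isProbabilityMeasure_of_finite (Berry.area_ne_zero hg)
      (Berry.area_ne_top hg)
  have hc := rkq_closed.1.const_mul (9 / 4 : ℝ)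
  have hc1 : (9 / 4 : ℝ) * (4 / 9) = 1 := by norm_num
  rw [hc1] at hc
  obtain ⟨N₀, hN₀⟩ := (Metric.tendsto_atTop.1 hc) (ε / 10) (by positivity)
  refine ⟨N₀, fun N hN => ?_⟩
  by_contra hcon
  rw [not_eventually] at hcon
  obtain ⟨ns, hns, hbad⟩ := extraction_of_frequently_atTop hcon
  obtain ⟨t, ht, hcase⟩ := cases H hns.tendsto_atTop
  have hst : Tendsto (fun i => ns (t i)) atTop atTop := hns.tendsto_atTop.comp ht
  set c : ℝ := 9 / 4 * qs N resK with hcd
  have hcb : |c - 1| < ε / 10 := by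
    have := hN₀ N hN
    rwa [Real.dist_eq] at this
  have hcb' := abs_lt.1 hcb
  have hev := hst.eventually (enM_eq h1 h3 H N)
  rcases hcase with ⟨hinf, hA⟩ | ⟨s, hs, i1, i2, hm, hB⟩
  · have k1 := (qs_lim N hA).const_mul (9 / 4 : ℝ)
    have e0 : qs N (fun _ => (0 : ℝ)) = 0 := by simp [qs]
    rw [e0, mul_zero] at k1
    have k2 := (Metric.tendsto_nhds.1 k1) (ε / 10) (by positivity)
    obtain ⟨i, b1, b2, b3⟩ := (k2.and (hev.and (hinf.eventually_gt_atTop 0))).exists
    have e1 : qs N (fun x => (gm ρ D φ m (ns (t i)) x - km ρ D φ (ns (t i)) / 3 * resK x)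
        / km ρ D φ (ns (t i)))
        = (qs N (gm ρ D φ m (ns (t i))) - km ρ D φ (ns (t i)) / 3 * qs N resK)
          / km ρ D φ (ns (t i)) := by
      have := qs_lin N (gm ρ D φ m (ns (t i))) resK (fun _ => 0) (1 / km ρ D φ (ns (t i)))
        (-(1 / 3)) 0
      have e2 : (fun x => (gm ρ D φ m (ns (t i)) x - km ρ D φ (ns (t i)) / 3 * resK x)
          / km ρ D φ (ns (t i))) = fun x => 1 / km ρ D φ (ns (t i)) * gm ρ D φ m (ns (t i)) x
            + -(1 / 3) * resK x + 0 * (fun _ : Fin 4 → ℂ => (0 : ℝ)) x := by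
        funext x
        have := b3.ne'
        field_simp
        ring
      rw [e2, this]
      have := b3.ne'
      field_simp
      ring
    rw [e1, Real.dist_eq, sub_zero] at b1
    have b4 := (abs_lt.1 b1).1
    have b5 : -(ε / 10) * km ρ D φ (ns (t i))
        < 9 / 4 * (qs N (gm ρ D φ m (ns (t i))) - km ρ D φ (ns (t i)) / 3 * qs N resK) := by
      have b6 : 9 / 4 * ((qs N (gm ρ D φ m (ns (t i))) - km ρ D φ (ns (t i)) / 3 * qs N resK)
          / km ρ D φ (ns (t i)))
          = (9 / 4 * (qs N (gm ρ D φ m (ns (t i))) - km ρ D φ (ns (t i)) / 3 * qs N resK))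
            / km ρ D φ (ns (t i)) := by ring
      rw [b6, lt_div_iff₀ b3] at b4
      exact b4
    have b7 := hbad (t i)
    rw [not_le, b2] at b7
    have b8 : 9 / 4 * (qs N (gm ρ D φ m (ns (t i))) - km ρ D φ (ns (t i)) / 3 * qs N resK)
        = 9 / 4 * qs N (gm ρ D φ m (ns (t i))) - km ρ D φ (ns (t i)) / 3 * c := by
      rw [hcd]
      ring
    rw [b8] at b5
    nlinarith
  · have hm1 := hm hE
    have e3 : Berry.rAvg ρ D (fun z => (s z univ).toReal ^ 2) = 1 := by
      have e4 : (fun z => (s z univ).toReal ^ 2)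
          =ᵐ[ProbabilityTheory.cond (Berry.area ρ) D] fun _ => (1 : ℝ) := by
        filter_upwards [ae_area hm1] with z hz
        rw [hz, one_pow]
      unfold Berry.rAvg
      rw [integral_congr_ae e4, integral_const, probReal_univ, one_smul]
    rw [e3] at hB
    have k1 := (qs_lim N hB).const_mul (9 / 4 : ℝ)
    have e0 : qs N (fun _ => (0 : ℝ)) = 0 := by simp [qs]
    rw [e0, mul_zero] at k1
    have k2 := (Metric.tendsto_nhds.1 k1) (ε / 30) (by positivity)
    obtain ⟨i, b1, b2⟩ := (k2.and hev).exists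
    have b3 := qs_rAvg h2 hs hg i2 N
    have b4 := km_ge H (ns (t i))
    have e1 : qs N (fun x => gm ρ D φ m (ns (t i)) x
          - (Berry.rAvg ρ D (fun z => dirWick (s z) x)
            + (km ρ D φ (ns (t i)) - 3 * 1) / 3 * resK x))
        = qs N (gm ρ D φ m (ns (t i)))
          - (qs N (fun x => Berry.rAvg ρ D (fun z => dirWick (s z) x))
            + (km ρ D φ (ns (t i)) - 3) / 3 * qs N resK) := by
      have := qs_lin N (gm ρ D φ m (ns (t i))) resK
        (fun x => Berry.rAvg ρ D (fun z => dirWick (s z) x)) 1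
        (-((km ρ D φ (ns (t i)) - 3) / 3)) (-1)
      have e2 : (fun x => gm ρ D φ m (ns (t i)) x
          - (Berry.rAvg ρ D (fun z => dirWick (s z) x)
            + (km ρ D φ (ns (t i)) - 3 * 1) / 3 * resK x))
          = fun x => 1 * gm ρ D φ m (ns (t i)) x + -((km ρ D φ (ns (t i)) - 3) / 3) * resK x
            + -1 * (fun x => Berry.rAvg ρ D (fun z => dirWick (s z) x)) x := by
        funext x
        ring
      rw [e2, this]
      ring
    rw [e1, Real.dist_eq, sub_zero] at b1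
    have b5 := (abs_lt.1 b1).1
    have b7 := hbad (t i)
    rw [not_le, b2] at b7
    have b8 : 9 / 4 * (qs N (gm ρ D φ m (ns (t i)))
          - (qs N (fun x => Berry.rAvg ρ D (fun z => dirWick (s z) x))
            + (km ρ D φ (ns (t i)) - 3) / 3 * qs N resK))
        = 9 / 4 * qs N (gm ρ D φ m (ns (t i)))
          - 9 / 4 * qs N (fun x => Berry.rAvg ρ D (fun z => dirWick (s z) x))
          - (km ρ D φ (ns (t i)) - 3) / 3 * c := by
      rw [hcd]
      ring
    rw [b8] at b5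
    have b9 : (km ρ D φ (ns (t i)) - 3) * (1 - c) ≤ (km ρ D φ (ns (t i)) + 3) * (ε / 10) := by
      have c1 : (km ρ D φ (ns (t i)) - 3) * (1 - c)
          ≤ |(km ρ D φ (ns (t i)) - 3)| * |1 - c| := by
        rw [← abs_mul]
        exact le_abs_self _
      have c2 : |(km ρ D φ (ns (t i)) - 3)| ≤ km ρ D φ (ns (t i)) + 3 := by
        rw [abs_le]
        constructor <;> linarith
      have c3 : |1 - c| ≤ ε / 10 := by
        rw [abs_sub_comm]
        exact hcb.le
      exact c1.trans (mul_le_mul c2 c3 (abs_nonneg _) (by linarith))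
    nlinarith

end LW4

/-- **LW4**: the two laws of the fourth moments. -/
theorem t_LW4 : StmtLw4 := by
  intro h1 h2 h3 Γ _ ρ D φ m H
  exact ⟨fun hE _ hε => LW4.upper h1 h2 h3 H hE hε, fun y => LW4.diag H y⟩

end

end PK4
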