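import Pool.Agent.PK4.St2
import Pool.Agent.PK4.LW4
import Pool.Agent.BWM.C40

/-!
# MV4: the variance of the local mass in boxes, quantum ergodic sequences
-/

set_option autoImplicit false

open Complex MeasureTheory Filter Topology Set
open UpperHalfPlane hiding I
open scoped ContDiff MatrixGroups ProbabilityTheory ENNReal

namespace PK4

open PWV NFP

noncomputable section

namespace MV4

variable {Γ : Subgroup SL(2, ℝ)} {ρ : ℍ → ℝ} {D : Set ℍ} {φ : ℕ → ℍ → ℝ} {m : ℕ → ℝ}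

lemma prob [Countable Γ] (H : Hy Γ ρ D φ m) : IsProbabilityMeasure (Berry.rFrameProb ρ D) :=
  Berry.rFrameProb_isProb (QE.NC.geo_of H.meas H.fd H.fac.cpt
    (QE.continuous_of_smooth H.fac.smooth) H.fac.inv)

lemma defc_eq (x : Fin 4 → ℂ) : QE.defc x = resK x / 3 := by
  unfold QE.defc resK
  ring

/-- the mean square deviation, for bounded functions on a probability space -/
lemma expand {Ω : Type} [MeasurableSpace Ω] (P : Measure Ω) [IsProbabilityMeasure P]
    (F : ℂ → Ω → ℝ) (C : ℝ) (N : ℕ) (hm : ∀ q ∈ box N, Measurable (F (pt q)))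
    (hC : ∀ q ∈ box N, ∀ o, |F (pt q) o| ≤ C) :
    ∫ o, (loc (fun x => F x o) N - 1) ^ 2 ∂P
      = 1 / (N : ℝ) ^ 4 * ∑ p ∈ box N, ∑ q ∈ box N,
          ∫ o, F (pt p) o * F (pt p) o * F (pt q) o * F (pt q) o ∂P
        - 2 * (1 / (N : ℝ) ^ 2 * ∑ q ∈ box N, ∫ o, F (pt q) o * F (pt q) o ∂P) + 1 := by
  have i2 : ∀ q ∈ box N, Integrable (fun o => F (pt q) o * F (pt q) o) P := by
    intro q hq
    refine Integrable.of_bound ((hm q hq).mul (hm q hq)).aestronglyMeasurable (C * C)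
      (Eventually.of_forall fun o => ?_)
    rw [Real.norm_eq_abs, abs_mul]
    exact mul_le_mul (hC q hq o) (hC q hq o) (abs_nonneg _) ((abs_nonneg _).trans (hC q hq o))
  have i4 : ∀ p ∈ box N, ∀ q ∈ box N,
      Integrable (fun o => F (pt p) o * F (pt p) o * F (pt q) o * F (pt q) o) P := by
    intro p hp q hq
    refine Integrable.of_bound ((((hm p hp).mul (hm p hp)).mul (hm q hq)).mul
      (hm q hq)).aestronglyMeasurable (C * C * C * C) (Eventually.of_forall fun o => ?_)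
    have hC0 : 0 ≤ C := (abs_nonneg _).trans (hC q hq o)
    have h1 : |F (pt p) o| * |F (pt p) o| ≤ C * C :=
      mul_le_mul (hC p hp o) (hC p hp o) (abs_nonneg _) hC0
    have h2 : |F (pt p) o| * |F (pt p) o| * |F (pt q) o| ≤ C * C * C :=
      mul_le_mul h1 (hC q hq o) (abs_nonneg _) (by positivity)
    rw [Real.norm_eq_abs, abs_mul, abs_mul, abs_mul]
    exact mul_le_mul h2 (hC q hq o) (abs_nonneg _) (by positivity)
  have e1 : (fun o => (loc (fun x => F x o) N - 1) ^ 2)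
      = fun o => (1 / (N : ℝ) ^ 4 * ∑ p ∈ box N, ∑ q ∈ box N,
          (F (pt p) o * F (pt p) o * F (pt q) o * F (pt q) o)
        - 2 * (1 / (N : ℝ) ^ 2) * ∑ q ∈ box N, F (pt q) o * F (pt q) o) + 1 := by
    funext o
    have e2 : ∑ p ∈ box N, ∑ q ∈ box N, (F (pt p) o * F (pt p) o * F (pt q) o * F (pt q) o)
        = (∑ q ∈ box N, F (pt q) o * F (pt q) o) * ∑ q ∈ box N, F (pt q) o * F (pt q) o := by
      rw [Finset.sum_mul_sum]
      refine Finset.sum_congr rfl fun p _ => Finset.sum_congr rfl fun q _ => ?_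
      ring
    have e3 : loc (fun x => F x o) N = 1 / (N : ℝ) ^ 2 * ∑ q ∈ box N, F (pt q) o * F (pt q) o := by
      unfold loc
      congr 1
      refine Finset.sum_congr rfl fun q _ => ?_
      ring
    rw [e2, e3]
    ring
  have j1 : Integrable (fun o => 1 / (N : ℝ) ^ 4 * ∑ p ∈ box N, ∑ q ∈ box N,
      (F (pt p) o * F (pt p) o * F (pt q) o * F (pt q) o)) P :=
    (integrable_finsetSum _ fun p hp => integrable_finsetSum _ fun q hq => i4 p hp q hq).const_mul _
  have j2 : Integrable (fun o => 2 * (1 / (N : ℝ) ^ 2) * ∑ q ∈ box N, F (pt q) o * F (pt q) o) P :=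
    (integrable_finsetSum _ fun q hq => i2 q hq).const_mul _
  have k1 : ∫ o, ∑ p ∈ box N, ∑ q ∈ box N, (F (pt p) o * F (pt p) o * F (pt q) o * F (pt q) o) ∂P
      = ∑ p ∈ box N, ∑ q ∈ box N, ∫ o, F (pt p) o * F (pt p) o * F (pt q) o * F (pt q) o ∂P := by
    rw [integral_finsetSum _ fun p hp => integrable_finsetSum _ fun q hq => i4 p hp q hq]
    exact Finset.sum_congr rfl fun p hp => integral_finsetSum _ fun q hq => i4 p hp q hq
  have k2 : ∫ o, ∑ q ∈ box N, F (pt q) o * F (pt q) o ∂P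
      = ∑ q ∈ box N, ∫ o, F (pt q) o * F (pt q) o ∂P :=
    integral_finsetSum _ fun q hq => i2 q hq
  have l1 := integral_add (μ := P) (j1.sub j2) (integrable_const (1 : ℝ))
  have l2 := integral_sub (μ := P) j1 j2
  rw [e1]
  refine l1.trans ?_
  refine (congrArg (· + ∫ _, (1 : ℝ) ∂P) l2).trans ?_
  simp only [integral_const_mul, k1, k2, integral_const, probReal_univ, one_smul]
  ring

/-- the four-point formula, summed over the pairs of points of the box -/
lemma four [Countable Γ] (H : Hy Γ ρ D φ m) (hq : QE.QuantumErgodic ρ φ m) (N : ℕ) :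
    Tendsto (fun n => (bl N (fun x y => gm ρ D φ m n ![x, x, y, y])
      - (bl N (fun x y => QE.wick ![x, x, y, y])
      + (km ρ D φ n - 3) / 3 * bl N (fun x y => resK ![x, x, y, y]))) / km ρ D φ n)
      atTop (𝓝 0) := by
  have h1 : ∀ x : Fin 4 → ℂ, Tendsto (fun n => (gm ρ D φ m n x - (QE.wick x
      + (km ρ D φ n - 3) * QE.defc x)) / km ρ D φ n) atTop (𝓝 0) := fun x => by
    have h2 := QE.four_surface H.meas H.fd H.fac.cpt H.fac.smooth H.fac.inv H.eig H.smooth hq x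
    refine h2.congr fun n => ?_
    unfold gm km
    simp only [Fin.prod_univ_four]
  have h3 := (tendsto_finsetSum (box N) fun p _ => tendsto_finsetSum (box N) fun q _ =>
    h1 ![pt p, pt p, pt q, pt q]).const_mul (1 / (N : ℝ) ^ 4)
  simp only [Finset.sum_const_zero, mul_zero] at h3
  refine h3.congr fun n => ?_
  have e1 : ∀ p q : ℕ × ℕ, (gm ρ D φ m n ![pt p, pt p, pt q, pt q]
      - (QE.wick ![pt p, pt p, pt q, pt q]
        + (km ρ D φ n - 3) * QE.defc ![pt p, pt p, pt q, pt q])) / km ρ D φ n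
      = (km ρ D φ n)⁻¹ * gm ρ D φ m n ![pt p, pt p, pt q, pt q]
        + (-(km ρ D φ n)⁻¹) * QE.wick ![pt p, pt p, pt q, pt q]
        + (-((km ρ D φ n)⁻¹ * ((km ρ D φ n - 3) / 3))) * resK ![pt p, pt p, pt q, pt q] := by
    intro p q
    rw [defc_eq]
    ring
  simp only [e1, Finset.sum_add_distrib, ← Finset.mul_sum]
  unfold bl
  ring

end MV4

theorem t_MV4 : StmtMv4 := by
  intro hLb hWv Γ _ ρ D φ m H hq ε hε
  have hP := MV4.prob H
  have hr : Tendsto (fun N => |bl N (fun x y => resK ![x, x, y, y]) - 2|) atTop (𝓝 0) := by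
    have h1 := (rkq_closed.2.sub_const 2).abs
    rwa [sub_self, abs_zero] at h1
  have hw : Tendsto (fun N => |bl N (fun x y => QE.wick ![x, x, y, y]) - 1|) atTop (𝓝 0) := by
    have h1 := (Tendsto.sub_const hLb 1).abs
    rwa [sub_self, abs_zero] at h1
  obtain ⟨N₁, hN₁⟩ := eventually_atTop.1 (hr.eventually (gt_mem_nhds (by positivity : 0 < ε / 4)))
  obtain ⟨N₂, hN₂⟩ := eventually_atTop.1 (hw.eventually (gt_mem_nhds (by positivity : 0 < ε / 4)))
  refine ⟨max (max N₁ N₂) 1, fun N hN => ?_⟩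
  have a1 := hN₁ N (le_trans ((le_max_left _ _).trans (le_max_left _ _)) hN)
  have a2 := hN₂ N (le_trans ((le_max_right _ _).trans (le_max_left _ _)) hN)
  have hN1 : 1 ≤ N := (le_max_right _ _).trans hN
  have hN0 : (N : ℝ) ≠ 0 := by
    have : 0 < N := hN1
    positivity
  have h4 := (MV4.four H hq N).abs
  rw [abs_zero] at h4
  -- the mean of the mass
  have h5 : Tendsto (fun n => |1 / (N : ℝ) ^ 2 * ∑ q ∈ box N,
      ∫ p, Berry.rWave ρ (φ n) (m n) (pt q) p * Berry.rWave ρ (φ n) (m n) (pt q) p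
        ∂(Berry.rFrameProb ρ D) - 1|) atTop (𝓝 0) := by
    have h6 := (QJ.finP Γ D H.meas H.fd H.fac.cpt ρ H.fac.smooth H.fac.inv φ m H.eig H.smooth
      hq).2.1
    have h7 : ∀ q : ℕ × ℕ, Tendsto (fun n => ∫ p, Berry.rWave ρ (φ n) (m n) (pt q) p
        * Berry.rWave ρ (φ n) (m n) (pt q) p ∂(Berry.rFrameProb ρ D)) atTop (𝓝 1) := by
      intro q
      have h8 := h6 (pt q) (pt q)
      rwa [sub_self, Berry.waveK_zero] at h8
    have h9 := ((tendsto_finsetSum (box N) fun q _ => h7 q).const_mul (1 / (N : ℝ) ^ 2)).sub_const 1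
    have e0 : 1 / (N : ℝ) ^ 2 * ∑ _q ∈ box N, (1 : ℝ) - 1 = 0 := by
      rw [Finset.sum_const, box, Finset.card_product, Finset.card_range, nsmul_eq_mul, mul_one]
      push_cast
      field_simp
      ring
    rw [e0] at h9
    have h10 := h9.abs
    rwa [abs_zero] at h10
  filter_upwards [h4.eventually (gt_mem_nhds (by positivity : 0 < ε / 4)),
    h5.eventually (gt_mem_nhds (by positivity : 0 < ε / 8)), hWv Γ ρ D φ m H N] with n a3 a4 hwv
  obtain ⟨hmeas, C, hC⟩ := hwv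
  have hk1 : 1 ≤ km ρ D φ n := LW4.km_ge H n
  have hex := MV4.expand (Berry.rFrameProb ρ D) (fun x p => Berry.rWave ρ (φ n) (m n) x p) C N
    hmeas hC
  have hB : 1 / (N : ℝ) ^ 4 * ∑ p ∈ box N, ∑ q ∈ box N,
      ∫ o, Berry.rWave ρ (φ n) (m n) (pt p) o * Berry.rWave ρ (φ n) (m n) (pt p) o
        * Berry.rWave ρ (φ n) (m n) (pt q) o * Berry.rWave ρ (φ n) (m n) (pt q) o
        ∂(Berry.rFrameProb ρ D) = bl N (fun x y => gm ρ D φ m n ![x, x, y, y]) := rfl
  rw [hB] at hex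
  rw [hex]
  set κ := km ρ D φ n with hκ
  set G := bl N (fun x y => gm ρ D φ m n ![x, x, y, y]) with hG
  set W := bl N (fun x y => QE.wick ![x, x, y, y]) with hW
  set R := bl N (fun x y => resK ![x, x, y, y]) with hR
  set l := 1 / (N : ℝ) ^ 2 * ∑ q ∈ box N,
      ∫ p, Berry.rWave ρ (φ n) (m n) (pt q) p * Berry.rWave ρ (φ n) (m n) (pt q) p
        ∂(Berry.rFrameProb ρ D) with hl
  set r := (G - (W + (κ - 3) / 3 * R)) / κ with hr'
  have hκ0 : κ ≠ 0 := by
    intro h0
    rw [h0] at hk1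
    linarith
  have e1 : G = κ * r + (W + (κ - 3) / 3 * R) := by
    rw [hr']
    field_simp
    ring
  have e2 : G - 2 * l + 1 - 2 / 3 * (κ - 3)
      = κ * r + (W - 1) + (κ - 3) / 3 * (R - 2) - 2 * (l - 1) := by
    rw [e1]
    ring
  have b1 : |(κ - 3) / 3 * (R - 2)| ≤ κ * (ε / 4) := by
    rw [abs_mul]
    refine mul_le_mul ?_ a1.le (abs_nonneg _) (by linarith)
    rw [abs_le]
    constructor <;> linarith
  have b2 : |W - 1| ≤ κ * (ε / 4) := by nlinarith
  have b3 : |κ * r| ≤ κ * (ε / 4) := by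
    rw [abs_mul, abs_of_pos (by linarith : 0 < κ)]
    exact mul_le_mul_of_nonneg_left a3.le (by linarith)
  have b4 : |2 * (l - 1)| ≤ κ * (ε / 4) := by
    rw [abs_mul, abs_of_pos (by norm_num : (0 : ℝ) < 2)]
    nlinarith
  rw [e2]
  have c1 := abs_sub (κ * r + (W - 1) + (κ - 3) / 3 * (R - 2)) (2 * (l - 1))
  have c2 := abs_add_le (κ * r + (W - 1)) ((κ - 3) / 3 * (R - 2))
  have c3 := abs_add_le (κ * r) (W - 1)
  nlinarith

end

end PK4
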