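import Pool.Agent.PWV.EQDH
import Pool.Agent.PWV.ZDI
import Pool.Agent.PWV.LIM
import Pool.Agent.PK4.CNE
import Pool.Agent.PK4.MV4
import Pool.Agent.PK4.EX4
import Pool.Agent.PKM.OR2

/-!
# GEN: all closed surfaces, equidistributed mass and no plane waves
-/

set_option autoImplicit false

open Complex MeasureTheory Filter Topology Set
open UpperHalfPlane hiding I
open scoped ContDiff MatrixGroups ProbabilityTheory ENNReal

namespace PK4

open QE QE.NC NFP NFP.BND PWV BSL

noncomputable section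

namespace GEN

variable {Γ : Subgroup SL(2, ℝ)} {ρ : ℍ → ℝ} {D : Set ℍ} {φ : ℕ → ℍ → ℝ} {m : ℕ → ℝ}
  {s : ProbabilityTheory.Kernel ℍ S1}

lemma meas_dia (hS : Sem ρ φ m s) : Measurable fun z : ℍ => dia (s z) := by
  have h1 := (KAP.meas_dia t_WIE hS).comp UpperHalfPlane.continuous_coe.measurable
  have h2 := h1.const_mul (1 / 2 : ℝ)
  have e : (fun z : ℍ => dia (s z)) = fun z : ℍ =>
      (1 / 2 : ℝ) * ((fun z : ℂ => 2 * dia (s (ofComplex z))) ∘ UpperHalfPlane.coe) z := by
    funext z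
    simp only [Function.comp_apply, ofComplex_apply]
    ring
  rw [e]
  exact h2

/-- the sums for the directional measures -/
lemma lims [Countable Γ] (S : Sur Γ D ρ φ m) (hS : Sem ρ φ m s) :
    Integrable (fun z => ((s z) univ).toReal ^ 2) (ProbabilityTheory.cond (Berry.area ρ) D) ∧
    (∀ x, Integrable (fun z => dirWick (s z) x) (ProbabilityTheory.cond (Berry.area ρ) D)) ∧
    Berry.rAvg ρ D (fun z => ((s z) univ).toReal) = 1 ∧
    Tendsto (fun N => qs N (fun x => Berry.rAvg ρ D (fun z => dirWick (s z) x))) atTop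
      (𝓝 (8 / 9 * Berry.rAvg ρ D (fun z => dia (s z)))) ∧
    Tendsto (fun N => bl N (fun x y => Berry.rAvg ρ D (fun z => dirWick (s z) ![x, x, y, y])))
      atTop (𝓝 (Berry.rAvg ρ D (fun z => ((s z) univ).toReal ^ 2)
        + 2 * Berry.rAvg ρ D (fun z => dia (s z)))) := by
  have hg : Berry.Geo Γ ρ D :=
    geo_of S.mD S.fd S.fac.cpt (continuous_of_smooth S.fac.smooth) S.fac.inv
  have hP := ONE.prob_nu hg
  obtain ⟨ζ, hζ⟩ := t_CUT Γ D ρ S.mD S.fd S.fac
  obtain ⟨sq, one, -, dw⟩ := msd_closed Γ D ρ φ m s S hS ζ hζ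
  have js2 := ONE.int_nu hg sq
  have jw : ∀ x : Fin 4 → ℂ, Integrable (fun z => dirWick (s z) x)
      (ProbabilityTheory.cond (Berry.area ρ) D) := fun x => ONE.int_nu hg (dw x).1
  have hfin := hS.fin
  have jd : Integrable (fun z => dia (s z)) (ProbabilityTheory.cond (Berry.area ρ) D) := by
    refine Integrable.mono' js2 (meas_dia hS).aestronglyMeasurable
      (Eventually.of_forall fun z => ?_)
    rw [Real.norm_eq_abs, abs_of_nonneg (KAP.dia_nonneg _)]
    have := hfin z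
    exact KAP.dia_le t_WIE (s z)
  have hfam := lfr_closed Γ ρ φ m s S.fac S.loc hS (fun n => S.eig.invariant n)
  have hae : ∀ᵐ z ∂(ProbabilityTheory.cond (Berry.area ρ) D),
      (((s z).prod (s z)) {p : S1 × S1 | p.1 = -p.2}).toReal = dg (s z) := by
    filter_upwards [HUL.ae_cond (ρ := ρ) (D := D) (HUL.odd_zero hfam)] with z hz
    exact (t_WIE (s z) (hfin z)).2 hz
  refine ⟨js2, jw, one, ?_, ?_⟩
  · unfold Berry.rAvg
    set ν := ProbabilityTheory.cond (Berry.area ρ) D with hν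
    have e : ∀ N, qs N (fun x => ∫ z, dirWick (s z) x ∂ν) = ∫ z, qs N (dirWick (s z)) ∂ν := by
      intro N
      unfold qs
      rw [integral_const_mul, integral_finsetSum _ fun q _ => jw _]
    have l1 : Tendsto (fun N => ∫ z, qs N (dirWick (s z)) ∂ν) atTop
        (𝓝 (∫ z, 8 / 9 * dia (s z) ∂ν)) := by
      refine tendsto_integral_of_dominated_convergence
        (fun z => 3 * ((s z) univ).toReal ^ 2) (fun N => ?_) (js2.const_mul 3) (fun N => ?_) ?_
      · have h5 : Integrable (fun z => qs N (dirWick (s z))) ν := by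
          unfold qs
          exact (integrable_finsetSum _ fun q _ => jw _).const_mul _
        exact h5.aestronglyMeasurable
      · refine Eventually.of_forall fun z => ?_
        rw [Real.norm_eq_abs]
        exact LIM.abs_qs (by positivity) (t_WKB (s z) (hfin z))
      · filter_upwards [hae] with z hz
        exact wkq_closed (s z) (hfin z) hz
    rw [integral_const_mul] at l1
    exact l1.congr fun N => (e N).symm
  · unfold Berry.rAvg
    set ν := ProbabilityTheory.cond (Berry.area ρ) D with hν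
    have e : ∀ N, (bl N fun x y => ∫ z, dirWick (s z) ![x, x, y, y] ∂ν) =
        ∫ z, (bl N fun x y => dirWick (s z) ![x, x, y, y]) ∂ν := by
      intro N
      unfold bl
      rw [integral_const_mul, integral_finsetSum _ fun p _ => integrable_finsetSum _ fun q _ =>
        jw _]
      congr 1
      exact Finset.sum_congr rfl fun p _ => (integral_finsetSum _ fun q _ => jw _).symm
    have l1 : Tendsto (fun N => ∫ z, (bl N fun x y => dirWick (s z) ![x, x, y, y]) ∂ν) atTop
        (𝓝 (∫ z, (((s z) univ).toReal ^ 2 + 2 * dia (s z)) ∂ν)) := by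
      refine tendsto_integral_of_dominated_convergence
        (fun z => 3 * ((s z) univ).toReal ^ 2) (fun N => ?_) (js2.const_mul 3) (fun N => ?_) ?_
      · have h5 : Integrable (fun z => bl N fun x y => dirWick (s z) ![x, x, y, y]) ν := by
          unfold bl
          exact (integrable_finsetSum _ fun p _ => integrable_finsetSum _ fun q _ =>
            jw _).const_mul _
        exact h5.aestronglyMeasurable
      · refine Eventually.of_forall fun z => ?_
        rw [Real.norm_eq_abs]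
        exact LIM.abs_bl (by positivity) fun x y => t_WKB (s z) (hfin z) _
      · filter_upwards [hae] with z hz
        exact wkl_closed (s z) (hfin z) hz
    rw [integral_add js2 (jd.const_mul 2), integral_const_mul] at l1
    exact l1.congr fun N => (e N).symm

/-- bounded fourth moments -/
lemma exists_gen [Countable Γ] (H : Hy Γ ρ D φ m) (hB : ∃ B : ℝ, ∀ n, km ρ D φ n ≤ B) :
    ∃ (j : ℕ → ℕ) (s : ProbabilityTheory.Kernel ℍ S1), StrictMono j ∧
      Integrable (fun z => ((s z) univ).toReal ^ 2) (ProbabilityTheory.cond (Berry.area ρ) D) ∧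
      Tendsto (fun N => qs N (fun x => Berry.rAvg ρ D (fun z => dirWick (s z) x))) atTop
        (𝓝 (8 / 9 * Berry.rAvg ρ D (fun z => dia (s z)))) ∧
      Tendsto (fun N => bl N (fun x y => Berry.rAvg ρ D (fun z => dirWick (s z) ![x, x, y, y])))
        atTop (𝓝 (Berry.rAvg ρ D (fun z => ((s z) univ).toReal ^ 2)
          + 2 * Berry.rAvg ρ D (fun z => dia (s z)))) ∧
      ((∀ᵐ z ∂((volume : Measure ℍ).restrict D), ((s z) univ).toReal = 1) ↔
        Equi (fun n => φ (j n))) ∧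
      ∀ x, Tendsto (fun n => gm ρ D φ m (j n) x - (Berry.rAvg ρ D (fun z => dirWick (s z) x)
        + (km ρ D φ (j n) - 3 * Berry.rAvg ρ D (fun z => (s z univ).toReal ^ 2)) / 3 * resK x))
        atTop (𝓝 0) := by
  obtain ⟨B, hB⟩ := hB
  obtain ⟨i, μ, hi, hμ⟩ := exist_closed Γ ρ D φ m inferInstance H.fac H.meas H.fd H.eig H.smooth
    H.norm
  have H' := LW4.Hy_comp H hi.tendsto_atTop
  obtain ⟨N₁, S₁⟩ := FLA.exists_sur (Γ := Γ) (ρ := ρ) (D := D) (φ := fun n => φ (i n))
    (m := fun n => m (i n)) H'.fac.smooth H'.fac.inv H'.meas H'.fd H'.fac.cpt H'.eig H'.smooth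
    H'.norm
  have hμ₁ := FLA.sem_comp hμ (tendsto_add_atTop_nat N₁)
  have H₁ := LW4.Hy_comp H' (tendsto_add_atTop_nat N₁)
  obtain ⟨N, u, s, hm1, hμ', hμe, T⟩ := exists_dat (Γ := Γ) (ρ := ρ) (D := D)
    (φ := fun n => φ (i (n + N₁))) (m := fun n => m (i (n + N₁))) (μ := μ) inferInstance H₁.fac
    H₁.meas H₁.fd H₁.eig H₁.smooth ⟨B, fun n => hB (i (n + N₁))⟩ hμ₁
  have hS : Sem ρ (fun n => φ (i (n + N₁))) (fun n => m (i (n + N₁))) s := by
    refine ⟨T.fin, fun K hK hKU => ?_, by rw [← hμe]; exact hμ₁⟩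
    have h1 := T.lim.loc 0 K hK hKU
    refine h1.ae_eq ?_
    have h2 : ∀ᵐ z ∂((volume : Measure ℂ).restrict K),
        u 0 z = (((s (ofComplex z)) univ).toReal : ℂ) :=
      ae_restrict_of_ae_restrict_of_subset hKU T.ue
    exact h2
  obtain ⟨l1, -, -, l4, l5⟩ := lims S₁ hS
  have hE := t_EQDH Γ D ρ _ _ s S₁ hS
  refine ⟨fun n => i (n + N + N₁), s, fun a b hab => hi (by omega), l1, l4, l5, ?_,
    fun x => ?_⟩
  · rw [hE]
    constructor
    · intro h ζ a b c
      exact (h ζ a b c).comp (tendsto_add_atTop_nat N)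
    · intro h ζ a b c
      exact (tendsto_add_atTop_iff_nat N).1 (h ζ a b c)
  · have h1 := T.main fourVar_closed glob (fun _ => 1) continuous_const (fun _ _ _ => rfl) x
    simp only [one_mul] at h1
    exact h1

/-- no plane waves, small energy -/
lemma en_box (h1 : StmtEx4) (h3 : StmtWv4) [Countable Γ] (H : Hy Γ ρ D φ m)
    (hB : Box4 ρ D φ m) {ε : ℝ} (hε : 0 < ε) : ∃ N₀ : ℕ, ∀ N ≥ N₀, ∀ᶠ n in atTop,
      enM ρ D φ m N n ≤ ε + ε * km ρ D φ n := by
  have hprob : IsProbabilityMeasure (Berry.rFrameProb ρ D) := MV4.prob H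
  obtain ⟨N₀, hN₀⟩ := hB (ε / 3 * (8 / 9 * ε)) (by positivity)
  refine ⟨N₀, fun N hN => ?_⟩
  have h2 : ∀ᶠ n in atTop, ∀ q ∈ box N,
      gm ρ D φ m n ![pt q, pt q, pt q, pt q] ≤ 2 * km ρ D φ n := by
    rw [Filter.eventually_all_finset]
    intro q _
    filter_upwards [(LW4.diag H (pt q)).eventually_lt_const (show (1 : ℝ) < 2 by norm_num)]
      with n hn
    have h4 : 0 < km ρ D φ n := lt_of_lt_of_le one_pos (LW4.km_ge H n)
    exact ((div_lt_iff₀ h4).1 hn).le
  filter_upwards [hN₀ N hN, h3 Γ ρ D φ m H N, h2] with n ha hb hc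
  obtain ⟨hm, C, hC⟩ := hb
  obtain ⟨-, -, -, h4⟩ := h1 (ℍ × ℝ) (Berry.rFrameProb ρ D) (Berry.rWave ρ (φ n) (m n)) C N hm hC
  have h5 := h4 (ε / 3) (by positivity) (ε / 3 * (8 / 9 * ε)) (by positivity) ha
  refine h5.trans ?_
  have hk := LW4.km_ge H n
  have h6 : 1 / (N : ℝ) ^ 2 * ∑ q ∈ box N, ∫ p, Berry.rWave ρ (φ n) (m n) (pt q) p ^ 4
      ∂(Berry.rFrameProb ρ D) ≤ 2 * km ρ D φ n := by
    have h7 : ∀ q ∈ box N, ∫ p, Berry.rWave ρ (φ n) (m n) (pt q) p ^ 4
        ∂(Berry.rFrameProb ρ D) ≤ 2 * km ρ D φ n := by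
      intro q hq
      refine le_trans (le_of_eq ?_) (hc q hq)
      unfold gm
      refine integral_congr_ae (Eventually.of_forall fun p => ?_)
      simp only [Matrix.cons_val_zero, Matrix.cons_val_one, Matrix.cons_val]
      ring
    rcases Nat.eq_zero_or_pos N with h0 | h0
    · subst h0
      simp [box]
      linarith
    · have h8 : ∑ q ∈ box N, ∫ p, Berry.rWave ρ (φ n) (m n) (pt q) p ^ 4
          ∂(Berry.rFrameProb ρ D) ≤ (N : ℝ) ^ 2 * (2 * km ρ D φ n) := by
        refine (Finset.sum_le_card_nsmul _ _ _ h7).trans (le_of_eq ?_)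
        rw [nsmul_eq_mul, LIM.card_box]
        push_cast
        rfl
      have h9 : (0 : ℝ) < (N : ℝ) ^ 2 := by positivity
      rw [one_div, inv_mul_le_iff₀ h9]
      exact h8
  have h10 : 9 / 8 * (ε / 3 * (8 / 9 * ε) / (ε / 3)) = ε := by
    field_simp
  have h11 := mul_le_mul_of_nonneg_left h6 (show 0 ≤ 9 / 8 * (ε / 3) by positivity)
  have h12 : 0 ≤ ε * km ρ D φ n := by positivity
  nlinarith

/-- **the lower bound**: equidistributed mass and no plane waves -/
theorem low (h1 : StmtEx4) (h3 : StmtWv4) [Countable Γ] (H : Hy Γ ρ D φ m) (hE : Equi φ)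
    (hB : Box4 ρ D φ m) {η : ℝ} (hη : 0 < η) : ∀ᶠ n in atTop, 3 - η ≤ km ρ D φ n := by
  by_contra hcon
  rw [not_eventually] at hcon
  obtain ⟨ns, hns, hbad⟩ := extraction_of_frequently_atTop hcon
  have hbad' : ∀ i, km ρ D φ (ns i) < 3 - η := fun i => not_le.1 (hbad i)
  have Hs := LW4.Hy_comp H hns.tendsto_atTop
  obtain ⟨j, s, hj, js2, hq, hb, hEq, hx⟩ := exists_gen Hs ⟨3, fun i => by
    have := hbad' i
    show km ρ D φ (ns i) ≤ 3
    linarith⟩
  have hg : Berry.Geo Γ ρ D :=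
    geo_of H.meas H.fd H.fac.cpt (continuous_of_smooth H.fac.smooth) H.fac.inv
  have hP := ONE.prob_nu hg
  have hPf : IsProbabilityMeasure (Berry.rFrameProb ρ D) := MV4.prob H
  have hst : Tendsto (fun n => ns (j n)) atTop atTop := hns.tendsto_atTop.comp hj.tendsto_atTop
  have hmass := hEq.2 (LW4.equi_comp hE hst)
  have hmass' : ∀ᵐ z ∂(ProbabilityTheory.cond (Berry.area ρ) D), ((s z) univ).toReal = 1 := by
    have hac : ProbabilityTheory.cond (Berry.area ρ) D ≪ (volume : Measure ℍ).restrict D := by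
      refine (Measure.smul_absolutelyContinuous).trans ?_
      exact (withDensity_absolutelyContinuous _ _).restrict D
    exact hac.ae_le hmass
  have hS2 : Berry.rAvg ρ D (fun z => (s z univ).toReal ^ 2) = 1 := by
    have e4 : (fun z => (s z univ).toReal ^ 2)
        =ᵐ[ProbabilityTheory.cond (Berry.area ρ) D] fun _ => (1 : ℝ) := by
      filter_upwards [hmass'] with z hz
      rw [hz, one_pow]
    unfold Berry.rAvg
    rw [integral_congr_ae e4, integral_const, probReal_univ, one_smul]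
  rw [hS2] at hx hb
  set W : (Fin 4 → ℂ) → ℝ := fun x => Berry.rAvg ρ D (fun z => dirWick (s z) x) with hW
  set d := Berry.rAvg ρ D (fun z => dia (s z)) with hd
  have hx' : ∀ x, Tendsto (fun i => gm ρ D φ m (ns (j i)) x
      - (W x + (km ρ D φ (ns (j i)) - 3 * 1) / 3 * resK x)) atTop (𝓝 0) := hx
  -- a large box
  have t1 : Tendsto (fun N => 9 / 4 * qs N W) atTop (𝓝 (9 / 4 * (8 / 9 * d))) := hq.const_mul _
  have t2 : Tendsto (fun N => 9 / 4 * qs N resK) atTop (𝓝 (9 / 4 * (4 / 9))) :=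
    rkq_closed.1.const_mul _
  have e1 : (9 : ℝ) / 4 * (8 / 9 * d) = 2 * d := by ring
  have e2 : (9 : ℝ) / 4 * (4 / 9) = 1 := by norm_num
  rw [e1] at t1
  rw [e2] at t2
  obtain ⟨N₀, hN₀⟩ := en_box h1 h3 H hB (show (0 : ℝ) < η / 100 by positivity)
  have k1 := (Metric.tendsto_nhds.1 t1) (η / 100) (by positivity)
  have k2 := (Metric.tendsto_nhds.1 t2) (η / 100) (by positivity)
  have k3 := (Metric.tendsto_nhds.1 hb) (η / 100) (by positivity)
  have k4 := (Metric.tendsto_nhds.1 rkq_closed.2) (η / 100) (by positivity)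
  obtain ⟨N, ⟨⟨⟨⟨b1, b2⟩, b3⟩, b4⟩, b5⟩, b6⟩ := (((((k1.and k2).and k3).and k4).and
    (eventually_ge_atTop N₀)).and (eventually_gt_atTop 0)).exists
  rw [Real.dist_eq] at b1 b2 b3 b4
  -- the energy
  have l1 := (Metric.tendsto_nhds.1 (CNE.en_lim h1 h3 H hst hx' N)) (η / 100) (by positivity)
  -- the local mass
  have l2 : Tendsto (fun i => bl N (fun x y => gm ρ D φ m (ns (j i)) ![x, x, y, y])
      - (bl N (fun x y => W ![x, x, y, y])
        + (km ρ D φ (ns (j i)) - 3 * 1) / 3 * bl N (fun x y => resK ![x, x, y, y])))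
      atTop (𝓝 0) := by
    have h3 := (tendsto_finsetSum (box N) fun p _ => tendsto_finsetSum (box N) fun q _ =>
      hx' ![pt p, pt p, pt q, pt q]).const_mul (1 / (N : ℝ) ^ 4)
    simp only [Finset.sum_const_zero, mul_zero] at h3
    refine h3.congr fun n => ?_
    simp only [bl, Finset.sum_sub_distrib, Finset.sum_add_distrib, ← Finset.mul_sum]
    ring
  have l2' := (Metric.tendsto_nhds.1 l2) (η / 100) (by positivity)
  have l3 : Tendsto (fun i => 1 / (N : ℝ) ^ 2 * ∑ q ∈ box N,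
      ∫ p, Berry.rWave ρ (φ (ns (j i))) (m (ns (j i))) (pt q) p
        * Berry.rWave ρ (φ (ns (j i))) (m (ns (j i))) (pt q) p ∂(Berry.rFrameProb ρ D)) atTop
      (𝓝 1) := by
    obtain ⟨K, hSur⟩ := FLA.exists_sur (Γ := Γ) (ρ := ρ) (D := D) (φ := φ) (m := m) H.fac.smooth
      H.fac.inv H.meas H.fd H.fac.cpt H.eig H.smooth H.norm
    have h7 : ∀ q : ℕ × ℕ, Tendsto (fun n => ∫ p, Berry.rWave ρ (φ n) (m n) (pt q) p
        * Berry.rWave ρ (φ n) (m n) (pt q) p ∂(Berry.rFrameProb ρ D)) atTop (𝓝 1) := by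
      intro q
      have h8 := PKM.OR2.mom hSur (pt q) (pt q)
      rw [sub_self, Berry.waveK_zero] at h8
      exact (tendsto_add_atTop_iff_nat K).1 h8
    have h9 := ((tendsto_finsetSum (box N) fun q _ => h7 q).const_mul (1 / (N : ℝ) ^ 2)).comp hst
    have e0 : 1 / (N : ℝ) ^ 2 * ∑ _q ∈ box N, (1 : ℝ) = 1 := by
      rw [Finset.sum_const, box, Finset.card_product, Finset.card_range, nsmul_eq_mul, mul_one]
      push_cast
      field_simp
    rw [e0] at h9
    exact h9
  have l3' := (Metric.tendsto_nhds.1 l3) (η / 100) (by positivity)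
  obtain ⟨i, ⟨⟨⟨c1, c2⟩, c3⟩, c4⟩, c5⟩ := ((((l1.and l2').and l3').and
    (hst.eventually (hN₀ N b5))).and (hst.eventually (h3 Γ ρ D φ m H N))).exists
  rw [Real.dist_eq, sub_zero] at c1 c2
  rw [Real.dist_eq] at c3
  obtain ⟨hmeas, C, hC⟩ := c5
  have hex := MV4.expand (Berry.rFrameProb ρ D)
    (fun x p => Berry.rWave ρ (φ (ns (j i))) (m (ns (j i))) x p) C N hmeas hC
  have hnn : 0 ≤ ∫ o, (loc (fun x => Berry.rWave ρ (φ (ns (j i))) (m (ns (j i))) x o) N - 1) ^ 2
      ∂(Berry.rFrameProb ρ D) := integral_nonneg fun o => sq_nonneg _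
  rw [hex] at hnn
  have hBl : 1 / (N : ℝ) ^ 4 * ∑ p ∈ box N, ∑ q ∈ box N,
      ∫ o, Berry.rWave ρ (φ (ns (j i))) (m (ns (j i))) (pt p) o
        * Berry.rWave ρ (φ (ns (j i))) (m (ns (j i))) (pt p) o
        * Berry.rWave ρ (φ (ns (j i))) (m (ns (j i))) (pt q) o
        * Berry.rWave ρ (φ (ns (j i))) (m (ns (j i))) (pt q) o
        ∂(Berry.rFrameProb ρ D) = bl N (fun x y => gm ρ D φ m (ns (j i)) ![x, x, y, y]) := rfl
  rw [hBl] at hnn
  have c6 := hbad' (j i)
  have c7 := LW4.km_ge H (ns (j i))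
  set κ := km ρ D φ (ns (j i)) with hκ
  set R := bl N (fun x y => resK ![x, x, y, y]) with hR
  set B := bl N (fun x y => W ![x, x, y, y]) with hBd
  set c := 9 / 4 * qs N resK with hc
  set w := 9 / 4 * qs N W with hw
  have d1 := abs_lt.1 b1
  have d2 := abs_lt.1 b2
  have d3 := abs_lt.1 b3
  have d4 := abs_lt.1 b4
  have d5 := abs_lt.1 c1
  have d6 := abs_lt.1 c2
  have d7 := abs_lt.1 c3
  have f1 : |(κ - 3 * 1) / 3 * (c - 1)| ≤ 1 * (η / 100) := by
    rw [abs_mul]
    refine mul_le_mul ?_ b2.le (abs_nonneg _) (by norm_num)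
    rw [abs_le]
    constructor <;> linarith
  have f2 : |(κ - 3 * 1) / 3 * (R - 2)| ≤ 1 * (η / 100) := by
    rw [abs_mul]
    refine mul_le_mul ?_ b4.le (abs_nonneg _) (by norm_num)
    rw [abs_le]
    constructor <;> linarith
  have g1 := abs_le.1 f1
  have g2 := abs_le.1 f2
  nlinarith [g1.1, g1.2, g2.1, g2.2, d1.1, d1.2, d3.1, d3.2, d5.1, d5.2, d6.1, d6.2, d7.1, d7.2]

end GEN

end

end PK4
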