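import Pool.Agent.PK4.St

/-!
# The fourth moments of eigenfunctions and their plane waves: statements, part 2
-/

set_option autoImplicit false

open Complex MeasureTheory Filter Topology Set
open UpperHalfPlane hiding I
open scoped ContDiff MatrixGroups ProbabilityTheory ENNReal

namespace PK4

open PWV NFP

noncomputable section

/-- LB4: the four-point function of the random wave over pairs of points.
Proof. As LQ4, with `wkl_closed`: `QE.wick x = dirWick s x` for the uniform probability measure `s`,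
`(s univ).toReal ^ 2 + 2 * dg s = 1`. -/
def StmtLb4 : Prop := Tendsto (fun N => bl N fun x y => QE.wick ![x, x, y, y]) atTop (𝓝 1)

/-- MV4: the variance of the local mass in boxes, for quantum ergodic sequences.
Proof. For large `n` (WV4): `∫ (loc - 1)² = bl N (gm ![x, x, y, y]) - 2 N⁻² ∑_q ∫ Fₙ(q)² + 1` (finite sums,
`N ≥ 1`, `loc² = N⁻⁴ ∑_p ∑_q F(p)² F(q)²`; integrability: bounded and measurable). `∫ Fₙ(q)² → 1`:
`QJ.StmtFinP`, proved by `finP` in `BWM/C40.lean` (`waveK 0 = 1`). `QE.four_surface` (`BWM/C15`):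
`(gm x - (wick x + (κ - 3) defc x)) / κ → 0`, `defc x = resK x / 3`; LB4 and `rkq_closed.2` (limit `2`);
`κ ≥ 1` (`PK4.LW4.km_ge`). -/
def StmtMv4 : Prop :=
  StmtLb4 → StmtWv4 →
  ∀ (Γ : Subgroup SL(2, ℝ)) [Countable Γ] (ρ : ℍ → ℝ) (D : Set ℍ) (φ : ℕ → ℍ → ℝ) (m : ℕ → ℝ),
    Hy Γ ρ D φ m → QE.QuantumErgodic ρ φ m →
    ∀ ε > 0, ∃ N₀ : ℕ, ∀ N ≥ N₀, ∀ᶠ n in atTop,
      |∫ p, (loc (fun x => Berry.rWave ρ (φ n) (m n) x p) N - 1) ^ 2 ∂(Berry.rFrameProb ρ D)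
        - 2 / 3 * (km ρ D φ n - 3)| ≤ ε * km ρ D φ n

/-- STA: small boxes control large boxes. (Any bounded functions on a probability space.)
Proof. Write `g r = f (pt r) * ew v r`, `A^t = coef (fun x => f (x + pt t)) M v`; `pt q + pt t = pt (q + t)`,
`ew v (q + t) = ew v q * ew v t`. So `N⁻² ∑_{t ∈ box N} ew v t * A^t = M⁻² ∑_{q ∈ box M} N⁻² ∑_{t ∈ box N} g (q + t)`,
and for `q ∈ box M`, `‖∑_{t ∈ box N} g (q + t) - ∑_{r ∈ box N} g r‖ ≤ ∑_{r ∈ R} |f (pt r)|` with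
`R = (box (M + N)).filter fun r => ¬ (M ≤ r.1 ∧ r.1 < N ∧ M ≤ r.2 ∧ r.2 < N)` (every point of the symmetric
difference of `q + box N` and `box N` is in `R`; `#R = (N + M)² - (N - M)² = 4 M N`, or `≤`). Hence
`‖coef f N v‖ ≤ N⁻² ∑_{t ∈ box N} ‖A^t‖ + N⁻² ∑_{r ∈ R} |f (pt r)|`, and with `(a + b)⁴ ≤ 8 a⁴ + 8 b⁴` and the
power mean inequality (`inner_le_nnorm_mul_nnorm`, `inv_pow_le..`, or `inner`-free: `Finset.sum_div_card..`,
`Real.pow_sum_div_card_le_sum_pow`, or twice `sq_sum_le_card_mul_sum_sq`)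
`‖coef f N v‖⁴ ≤ 8 N⁻² ∑_t ‖A^t‖⁴ + 8 N⁻⁸ (4 M N)³ ∑_{r ∈ R} f (pt r)⁴`. The supremum over `v` of the right side
is at most the sum of the suprema; integrate (`lintegral_add_right`, `lintegral_finset_sum'` needs
measurability of the suprema: instead bound `⨆ v, ofReal ‖A^t‖⁴ ≤ ofReal (16 / 9 en (fun x => f (x + pt t)) M)`
pointwise by NIK (`t_NIK t_PRS t_SQR`) BEFORE integrating; `en` is nonnegative and, by `par_closed`, a finite
sum of products of the measurable functions `F (pt (q + t))`, so everything is measurable and integrable):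
`8 (16 / 9) e + 8 N⁻⁸ (4 M N)⁴ κ ≤ 15 e + 2048 (M / N)⁴ κ` (`e ≥ 0`). -/
def StmtSta : Prop :=
  ∀ (Ω : Type) [MeasurableSpace Ω] (P : Measure Ω) [IsProbabilityMeasure P] (F : ℂ → Ω → ℝ)
    (C : ℝ) (M N : ℕ), 0 < M → M ≤ N → (∀ q ∈ box (M + N), Measurable (F (pt q))) →
    (∀ q ∈ box (M + N), ∀ o, |F (pt q) o| ≤ C) → ∀ e κ : ℝ,
    (∀ t ∈ box N, ∫ o, en (fun x => F (x + pt t) o) M ∂P ≤ e) →
    (∀ q ∈ box (M + N), ∫ o, F (pt q) o ^ 4 ∂P ≤ κ) →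
    ∫⁻ o, ⨆ v : ℂ, ENNReal.ofReal (‖coef (fun x => F x o) N v‖ ^ 4) ∂P
      ≤ ENNReal.ofReal (15 * e + 2048 * ((M : ℝ) / N) ^ 4 * κ)

/-- negative curvature -/
def Neg (ρ : ℍ → ℝ) : Prop :=
  ∀ z : ℍ, 0 < 1 + z.im ^ 2 * Laplacian.laplacian (fun w : ℂ => ρ (ofComplex w)) z

/-- NCM: negative curvature, `κₙ → 3`. (Assigned to the architect, helper42.) -/
def StmtNcm : Prop :=
  StmtEx4 → StmtWv4 →
  ∀ (Γ : Subgroup SL(2, ℝ)) [Countable Γ] (ρ : ℍ → ℝ) (D : Set ℍ) (φ : ℕ → ℍ → ℝ) (m : ℕ → ℝ),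
    Hy Γ ρ D φ m → Neg ρ → Tendsto (km ρ D φ) atTop (𝓝 3) →
    Equi φ ∧ ∀ ns : ℕ → ℕ, Tendsto ns atTop atTop → ∃ l : ℕ → ℕ, Tendsto l atTop atTop ∧
      ∀ ε > 0, ∃ M : ℕ, 0 < M ∧ ∀ᶠ i in atTop, enM ρ D φ m M (ns (l i)) ≤ ε

/-- DIA: negative curvature, `κₙ → 3` implies no plane waves in `L⁴`.
Proof. `κₙ → 3`, so `κₙ ≤ 4` for large `n`.
(i) Translations: for `x : Fin 4 → ℂ` and `y`, `gm n (fun i => x i + y) - gm n x → 0`
(`tendsto_of_subseq_tendsto` and `PK4.LW4.cases`: the case `κ → ∞` is impossible; in the other case the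
limit is the same since `dirWick s` and `resK` depend only on differences, resp. `resK` is unchanged when
`y` is added to all points: `unfold`, `ring_nf`). So with EX4 (2) for the field `x ↦ Fₙ(x + pt t)` (WV4 for
`box (M + N)`, `pt q + pt t = pt (q + t)`): `∫ en (Fₙ(· + pt t)) M - enM M n → 0` for every `t`, `M`
(finite sum, `LW4.qs_lim`).
(ii) For every `ε > 0` there is `M₁` such that for large `n` there is `M ∈ [1, M₁]` with `enM M n ≤ ε`. If not,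
choose a strictly increasing `ns` such that for all `M ∈ [1, k]`, `enM M (ns k) > ε`
(`extraction_forall_of_frequently`); NCM gives `l`, `M` with `enM M (ns (l i)) ≤ ε` for large `i`;
contradiction when `l i ≥ M`.
(iii) Given `ε`, take `M₁` for `ε / 60`, `N₀ ≥ M₁` with `2048 (M₁ / N₀)⁴ · 5 ≤ ε / 2`; for `N ≥ N₀` and large
`n`: STA with the `M` of (ii), `e = ε / 60 + ε / 60`, `κ = 5` (`E Fₙ(q)⁴ → 3` by (i) with `x = 0`, or by LW4 (b)). -/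
def StmtDia : Prop :=
  StmtEx4 → StmtWv4 → StmtSta → StmtNcm →
  ∀ (Γ : Subgroup SL(2, ℝ)) [Countable Γ] (ρ : ℍ → ℝ) (D : Set ℍ) (φ : ℕ → ℍ → ℝ) (m : ℕ → ℝ),
    Hy Γ ρ D φ m → Neg ρ → Tendsto (km ρ D φ) atTop (𝓝 3) → Box4 ρ D φ m

/-- NCF: **the formula in negative curvature**, without quantum ergodicity, for sequences with a
semiclassical measure.
Proof. `BSL.FLA.exists_sur`: after a shift, `Sur`. `PKM.t_DEN` (`Equi` gives its hypothesis): a kernel `s₀`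
with `μ = (area ρ) ⊗ₘ s₀`, `Sem`, mass one a.e.; `BSL.noa_closed` and `PWV.t_ZDI`:
`rAvg (dia (s₀ z)) = 0`. With `W N = qs N (fun x => rAvg (dirWick (s₀ z) x))`: `W N → 0` (dominated convergence as
in `PWV/LIM.lean`, with `wkq_closed`, `t_WKB`; `dia ≥ 0` has mean zero, so it is zero a.e.; the odd moments:
`BSL.lfr_closed` and `HUL.odd_zero`, see how `t_LIM` gets `hae`). Claim: for every `x`,
`(gm n x - (rAvg (dirWick (s₀ z) x) + (κ - 3) / 3 resK x)) / κ → 0`. By subsequences as in `PK4.LW4.cases`: if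
`κ → ∞`, `NFP.infty_closed` (`|rAvg dirWick| ≤ 3`); if `κ` is bounded, `NFP.exists_dat` for the subsequence and
the SAME `μ` (the subsequence has the same semiclassical measure, `NFP.Semiclassical` is a limit: search
`sem_comp`) gives a kernel `s'` with `μ = (area ρ) ⊗ₘ s'` and `T.main`; `LW4.mass_one`; and `s' = s₀` a.e.: change
both on null sets to probability measures, restrict `area ρ` to compact sets, and use
`ProbabilityTheory.Kernel.ae_eq_of_compProd_eq` (finite measures); `κ ≥ 1` (`LW4.km_ge`). Then as in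
`LW4.upper`, with `enM_eq`: `|enM N n - 9/4 W N - (κ - 3) / 3 c_N| ≤ o(κ)`, `c_N = 9/4 qs N resK → 1`. -/
def StmtNcf : Prop :=
  StmtEx4 → StmtWv4 →
  ∀ (Γ : Subgroup SL(2, ℝ)) [Countable Γ] (ρ : ℍ → ℝ) (D : Set ℍ) (φ : ℕ → ℍ → ℝ) (m : ℕ → ℝ),
    Hy Γ ρ D φ m → Neg ρ → Equi φ → ∀ μ : Measure (ℍ × S1), Semiclassical ρ φ m μ →
    ∀ ε > 0, ∃ N₀ : ℕ, ∀ N ≥ N₀, ∀ᶠ n in atTop,
      |km ρ D φ n - 3 - 3 * enM ρ D φ m N n| ≤ ε * km ρ D φ n

/-- **The theorem.** -/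
def StmtL4 : Prop :=
  ∀ (Γ : Subgroup SL(2, ℝ)) [Countable Γ] (ρ : ℍ → ℝ),
    ContDiffOn ℝ ∞ (fun w : ℂ => ρ (ofComplex w)) {w | 0 < w.im} →
    (∀ γ ∈ Γ, ∀ z, ρ (γ • z) = ρ z) →
    ∀ D : Set ℍ, MeasurableSet D → IsFundamentalDomain Γ D (volume : Measure ℍ) →
    (∃ K : Set ℍ, IsCompact K ∧ ∀ z, ∃ γ ∈ Γ, γ • z ∈ K) →
    ∀ (φ : ℕ → ℍ → ℝ) (m : ℕ → ℝ), Berry.REigenSeq Γ ρ φ m →
    (∀ n, ContDiffOn ℝ ∞ (fun w : ℂ => φ n (ofComplex w)) {w | 0 < w.im}) →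
    (∀ n, Berry.rAvg ρ D (fun z => φ n z ^ 2) = 1) →
    -- the formulas, quantum ergodic sequences
    (QE.QuantumErgodic ρ φ m → ∀ ε > 0, ∃ N₀ : ℕ, ∀ N ≥ N₀, ∀ᶠ n in atTop,
      |km ρ D φ n - 3 - 3 * enM ρ D φ m N n| ≤ ε * km ρ D φ n ∧
      |∫ p, (loc (fun x => Berry.rWave ρ (φ n) (m n) x p) N - 1) ^ 2 ∂(Berry.rFrameProb ρ D)
        - 2 * enM ρ D φ m N n| ≤ ε * km ρ D φ n) ∧
    (QE.QuantumErgodic ρ φ m → ∀ x : Fin 4 → ℂ, ∀ ε > 0, ∃ N₀ : ℕ, ∀ N ≥ N₀, ∀ᶠ n in atTop,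
      |gm ρ D φ m n x - QE.wick x - enM ρ D φ m N n * resK x| ≤ ε * km ρ D φ n) ∧
    -- equidistributed mass
    (Equi φ → ∀ ε > 0, ∃ N₀ : ℕ, ∀ N ≥ N₀, ∀ᶠ n in atTop,
      km ρ D φ n ≤ 3 + 3 * enM ρ D φ m N n + ε * km ρ D φ n) ∧
    -- all closed surfaces
    List.TFAE [
      Berry.RGaussUpToFour ρ D φ m,
      Berry.RLocalGauss ρ φ m,
      QE.QuantumErgodic ρ φ m ∧ Tendsto (km ρ D φ) atTop (𝓝 3),
      QE.QuantumErgodic ρ φ m ∧ Box4 ρ D φ m] ∧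
    -- negative curvature
    (Neg ρ →
      (Tendsto (km ρ D φ) atTop (𝓝 3) ↔ Equi φ ∧ Box4 ρ D φ m) ∧
      (Equi φ → ∀ μ : Measure (ℍ × S1), Semiclassical ρ φ m μ →
        ∀ ε > 0, ∃ N₀ : ℕ, ∀ N ≥ N₀, ∀ᶠ n in atTop,
          |km ρ D φ n - 3 - 3 * enM ρ D φ m N n| ≤ ε * km ρ D φ n))

end

end PK4
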