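import Pool.Agent.PK4.St2

/-!
# The fourth moments of eigenfunctions and their plane waves: statements, part 3

The energy of the plane waves is almost decreasing in the side of the box, uniformly; so in negative
curvature the formula holds for every sequence, without a semiclassical measure.
-/

set_option autoImplicit false

open Complex MeasureTheory Filter Topology Set
open UpperHalfPlane hiding I
open scoped ContDiff MatrixGroups ProbabilityTheory ENNReal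

namespace PK4

open PWV NFP

noncomputable section

/-- TBD: uniform bound for the sums of characters over additive quadruples (`PWV.WKQ.T`).
Proof. `CHR.sum_ex`, `CHR.abs_sum_cos_le`: `|T N a b c| ≤ N⁻⁶ ‖S N a.re b.re c.re‖ ‖S N a.im b.im c.im‖`.
One of `|a.re|`, `|a.im|` is at least `‖a‖ / 2` (`Complex.norm_le_abs_re_add_abs_im`); call it `|α|`,
`0 < |α| ≤ 2`; `‖ex α - 1‖ = 2 |sin (α / 2)| ≥ 2 |α| / π` (`Complex.norm_exp_I_mul_ofReal_sub_one` or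
`norm_exp_mul_I_sub..`; `Real.mul_abs_le_abs_sin`), so `gb α ≤ π / |α|`, and `CHR.S_geo`, `CHR.S_triv` give
`|T| ≤ N⁻⁶ (N² π / |α|) N³ ≤ 2 π / (N ‖a‖) ≤ 8 / (N ‖a‖)`. -/
def StmtTbd : Prop :=
  ∀ (N : ℕ) (a b c : ℂ), 0 < N → a ≠ 0 → ‖a‖ ≤ 2 → |PWV.WKQ.T N a b c| ≤ 8 / ((N : ℝ) * ‖a‖)

/-- POS: two of the sums are nonnegative, and equal.
Proof. On `quads N` (`x₀ + x₃ = x₁ + x₂`), `pt x₀ - pt x₁ = pt x₂ - pt x₃` (`WKQ.pt_quads`), so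
`ip (x₀ - x₁) a = ip (x₀ + x₂) (a / 2) - ip (x₁ + x₃) (a / 2)`, and `x₀ + x₃ = x₁ + x₂` says that the pairs
`p = (x₀, x₂)` and `p' = (x₁, x₃)` have the same difference `f p = x₀ - x₂` (in `ℤ × ℤ`). So
`∑_{quads} cos (ip x₀ a - ip x₁ a) = ∑_{p, p' ∈ box², f p = f p'} (C p C p' + S p S p')`
`= ∑_d ((∑_{f p = d} C p)² + (∑_{f p = d} S p)²) ≥ 0`, `C p = cos (ip (x₀ + x₂) (a / 2))`, `S p` the sine
(`Finset.sum_fiberwise_of_maps_to`, `Finset.sum_mul_sum`; reindex `quads N` by `Finset.sum_nbij'`;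
compare the sums of squares in `PK4/NNG.lean`). The equality: exchange `x₁` and `x₂` in `quads N`
(`Finset.sum_nbij'`), `ip x 0 = 0`. -/
def StmtPos4 : Prop :=
  ∀ (N : ℕ) (a : ℂ), 0 ≤ PWV.WKQ.T N a (-a) 0 ∧ PWV.WKQ.T N a 0 (-a) = PWV.WKQ.T N a (-a) 0

/-- MNP: the energy of a Gaussian wave is almost decreasing in the side of the box, uniformly.
Proof. (A) For every `0 < δ ≤ 1` there are `M₀`, `L` such that for `M ≥ M₀`, `N ≥ L M`, `‖a‖ ≤ 2`: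
`T N a (-a) 0 ≤ (1 + δ) T M a (-a) 0 + δ`. Let `η² = δ / 8`, `η > 0`. `T N 0 0 0 → 4 / 9`
(`CHR` part 2, `WKQ.T_zero`), so for `M, N ≥ M₀`, `T N 0 0 0 ≤ (1 + δ / 4) T M 0 0 0`, `T M 0 0 0 ≥ 0`. If
`‖a‖ ≤ η / M`: `|ip (x₀ - x₁) a| ≤ 2 M ‖a‖ ≤ 2 η` for `x₀, x₁ ∈ box M`, so `T M a (-a) 0 ≥ (1 - 2 η²) T M 0 0 0`
(`Real.one_sub_sq_div_two_le_cos`) and `T N a (-a) 0 ≤ T N 0 0 0` (`WKQ.T_le`, `T_zero`);
`(1 + δ / 4) ≤ (1 + δ) (1 - δ / 4)`. If `‖a‖ > η / M`: TBD gives `T N a (-a) 0 ≤ 8 M / (N η) ≤ δ` for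
`L ≥ 8 / (η δ)`, and POS `T M a (-a) 0 ≥ 0`. (B) In `WKQ.Ph` the first four terms are of this form, for
`‖a‖ ≤ 2` (`WKQ.norm_ro`; POS for the terms `T N a 0 (-a)`), and the last two are at most `4 / N` (TBD,
`‖2 ro‖ = 2`). So for `N ≥ L M`, `M ≥ M₀`, `M₀ ≥ 100 / δ`: `Ph N z ≤ (1 + δ) Ph M z + 3 δ` for all `z` (use a
smaller `δ`). (C) `WKQ.qs_eq`: integrate over `nu s` (`cont_Ph`, bounded, finite measure of total mass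
`2 π (s univ)²`). For `δ > 1` use `δ = 1` (`qs M (dirWick s) ≥ 0`, NNG). -/
def StmtMnp : Prop :=
  StmtTbd → StmtPos4 → StmtNng →
  ∀ δ > 0, ∃ M₀ L : ℕ, 0 < M₀ ∧ 0 < L ∧ ∀ M ≥ M₀, ∀ N ≥ L * M,
    ∀ s : Measure S1, IsFiniteMeasure s →
      qs N (dirWick s) ≤ (1 + δ) * qs M (dirWick s) + δ * (s univ).toReal ^ 2

/-- the conclusion of MNP -/
def Mnp : Prop :=
  ∀ δ > 0, ∃ M₀ L : ℕ, 0 < M₀ ∧ 0 < L ∧ ∀ M ≥ M₀, ∀ N ≥ L * M,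
    ∀ s : Measure S1, IsFiniteMeasure s →
      qs N (dirWick s) ≤ (1 + δ) * qs M (dirWick s) + δ * (s univ).toReal ^ 2

/-- MON: negative curvature, the energy of the plane waves is almost decreasing.
Proof. Let `δ > 0`; take `M₀`, `L` from `Mnp` for `δ / 100`, `M₀` so large that moreover
`|c_N - 1| ≤ δ / 100` for `N ≥ M₀`, `c_N = 9 / 4 qs N resK` (`rkq_closed`). Fix `M ≥ M₀`, `N ≥ L M`. If the
conclusion fails there is `ns` with `enM N n > enM M n + δ κ` along `ns` (`extraction_of_frequently_atTop`),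
and `NCM.cases` (as in `PK4.LW4.upper`; `enM_eq`, `qs_lim`, `qs_lin`) gives `t`. Case `κ → ∞`:
`(enM N - enM M) / κ → (c_N - c_M) / 3`, contradiction. Case of a kernel `s`: let `S = rAvg p²`,
`w_N = 9 / 4 qs N (rAvg (dirWick (s z))) = 9 / 4 rAvg (qs N (dirWick (s z)))` (finite sums, `dirWick` is
integrable). Then `enM N - (w_N + (κ - 3 S) / 3 c_N) → 0` and the same for `M`. By `Mnp`,
`w_N ≤ (1 + δ / 100) w_M + 9 / 400 δ S`, and `w_M ≤ 9 / 4 · 3 S` (`LIM.abs_qs`, `t_WKB`). Since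
`enM N' ≥ 0` for every `N'` (EX4, WV4), `w_N' → 0` and `c_N' → 1`: for every `η > 0`, `κ ≥ 3 S - η` for large
`i`. So `enM N - enM M ≤ δ / 100 (27 / 4) S + 9 / 400 δ S + |κ - 3 S| / 3 · 2 δ / 100 + o(1) < δ κ`
(`S ≤ (κ + η) / 3`, `κ ≥ 1` by `LW4.km_ge`): contradiction. -/
def StmtMon : Prop :=
  StmtEx4 → StmtWv4 → Mnp →
  ∀ (Γ : Subgroup SL(2, ℝ)) [Countable Γ] (ρ : ℍ → ℝ) (D : Set ℍ) (φ : ℕ → ℍ → ℝ) (m : ℕ → ℝ),
    Hy Γ ρ D φ m → Neg ρ →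
    ∀ δ > 0, ∃ M₀ L : ℕ, 0 < M₀ ∧ 0 < L ∧ ∀ M ≥ M₀, ∀ N ≥ L * M, ∀ᶠ n in atTop,
      enM ρ D φ m N n ≤ enM ρ D φ m M n + δ * km ρ D φ n

/-- UNI: **negative curvature, every sequence**: `κₙ ≥ 3 + 3 E_N - ε κₙ`.
Proof. (A) For all `ε > 0` and `M₀` there is `M₁ ≥ M₀` such that for large `n` there is `M ∈ [M₀, M₁]` with
`3 + 3 enM M n ≤ κ + ε κ`. If not, choose `ns` strictly increasing such that the inequality fails for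
`ns k` and all `M ∈ [M₀, M₀ + k]` (`extraction_forall_of_frequently`), and apply `NCM.cases`. Case `κ → ∞`:
`enM M / κ → c_M / 3` for fixed `M`; take `M` with `c_M ≤ 1 + ε / 10`; then `3 + 3 enM M ≤ (1 + ε / 2) κ + 3
≤ (1 + ε) κ` for large `i`, contradiction when `t i ≥ M - M₀`. Case of a kernel: for fixed `M`,
`enM M - (w_M + (κ - 3 S) / 3 c_M) → 0` with `w_M → 0` and `S ≥ 1` (`PWV.FIN.one_le`, `ONE.int_mass`), and
`κ ≥ 3 S - η` eventually (see MON), so `3 enM M ≤ 3 w_M + (κ - 3 S) c_M + o(1) ≤ κ - 3 + ε κ` for suitable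
`M ≥ M₀` (`|c_M - 1| ≤ ε / 10`, `|κ - 3 S| ≤ κ + η`) and large `i`. Contradiction.
(B) Given `ε`, take `M₀`, `L` from MON for `δ = ε / 10`, `M₁` from (A) for `ε / 10` and `M₀`, `N₀ = L M₁`. For
`N ≥ N₀` and large `n`: MON for all `M ∈ [M₀, M₁]` (finitely many) and (A). -/
def StmtUni : Prop :=
  StmtEx4 → StmtWv4 → StmtMon → Mnp →
  ∀ (Γ : Subgroup SL(2, ℝ)) [Countable Γ] (ρ : ℍ → ℝ) (D : Set ℍ) (φ : ℕ → ℍ → ℝ) (m : ℕ → ℝ),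
    Hy Γ ρ D φ m → Neg ρ →
    ∀ ε > 0, ∃ N₀ : ℕ, ∀ N ≥ N₀, ∀ᶠ n in atTop,
      3 + 3 * enM ρ D φ m N n ≤ km ρ D φ n + ε * km ρ D φ n

/-- **The theorem**, final form. -/
def StmtL5 : Prop :=
  ∀ (Γ : Subgroup SL(2, ℝ)) [Countable Γ] (ρ : ℍ → ℝ),
    ContDiffOn ℝ ∞ (fun w : ℂ => ρ (ofComplex w)) {w | 0 < w.im} →
    (∀ γ ∈ Γ, ∀ z, ρ (γ • z) = ρ z) →
    ∀ D : Set ℍ, MeasurableSet D → IsFundamentalDomain Γ D (volume : Measure ℍ) →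
    (∃ K : Set ℍ, IsCompact K ∧ ∀ z, ∃ γ ∈ Γ, γ • z ∈ K) →
    ∀ (φ : ℕ → ℍ → ℝ) (m : ℕ → ℝ), Berry.REigenSeq Γ ρ φ m →
    (∀ n, ContDiffOn ℝ ∞ (fun w : ℂ => φ n (ofComplex w)) {w | 0 < w.im}) →
    (∀ n, Berry.rAvg ρ D (fun z => φ n z ^ 2) = 1) →
    -- the formulas, quantum ergodic sequences
    (QE.QuantumErgodic ρ φ m → ∀ ε > 0, ∃ N₀ : ℕ, ∀ N ≥ N₀, ∀ᶠ n in atTop,
      |km ρ D φ n - 3 - 3 * enM ρ D φ m N n| ≤ ε * km ρ D φ n ∧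
      |∫ p, (loc (fun x => Berry.rWave ρ (φ n) (m n) x p) N - 1) ^ 2 ∂(Berry.rFrameProb ρ D)
        - 2 * enM ρ D φ m N n| ≤ ε * km ρ D φ n) ∧
    (QE.QuantumErgodic ρ φ m → ∀ x : Fin 4 → ℂ, ∀ ε > 0, ∃ N₀ : ℕ, ∀ N ≥ N₀, ∀ᶠ n in atTop,
      |gm ρ D φ m n x - QE.wick x - enM ρ D φ m N n * resK x| ≤ ε * km ρ D φ n) ∧
    -- equidistributed mass
    (Equi φ → ∀ ε > 0, ∃ N₀ : ℕ, ∀ N ≥ N₀, ∀ᶠ n in atTop,
      km ρ D φ n ≤ 3 + 3 * enM ρ D φ m N n + ε * km ρ D φ n) ∧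
    -- all closed surfaces
    List.TFAE [
      Berry.RGaussUpToFour ρ D φ m,
      Berry.RLocalGauss ρ φ m,
      QE.QuantumErgodic ρ φ m ∧ Tendsto (km ρ D φ) atTop (𝓝 3),
      QE.QuantumErgodic ρ φ m ∧ Box4 ρ D φ m] ∧
    -- negative curvature, every sequence
    (Neg ρ →
      (∀ ε > 0, ∃ N₀ : ℕ, ∀ N ≥ N₀, ∀ᶠ n in atTop,
        3 + 3 * enM ρ D φ m N n ≤ km ρ D φ n + ε * km ρ D φ n) ∧
      (Equi φ → ∀ ε > 0, ∃ N₀ : ℕ, ∀ N ≥ N₀, ∀ᶠ n in atTop,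
          |km ρ D φ n - 3 - 3 * enM ρ D φ m N n| ≤ ε * km ρ D φ n) ∧
      (Tendsto (km ρ D φ) atTop (𝓝 3) ↔ Equi φ ∧ Box4 ρ D φ m))

end

end PK4
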