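import Pool.Agent.PWV.St
import Pool.Agent.PK4.St3

/-!
# The fourth moments of eigenfunctions and their plane waves: statements, part 4
-/

set_option autoImplicit false

open Complex MeasureTheory Filter Topology Set
open UpperHalfPlane hiding I
open scoped ContDiff MatrixGroups ProbabilityTheory ENNReal

namespace PK4

open PWV NFP

noncomputable section

/-- MAS: **the formula for all sequences on all closed surfaces**: if the semiclassical measure is
`(area ρ) ⊗ₘ s` with locally square integrable mass `p(z) = s_z(S¹)`, and `a(z)` is the sum of the squares of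
the atoms of `s_z`, then `κₙ = 3 avg (p² - 2 a) + 3 E_N + o(κₙ)`.
Proof. As `PK4/NCF.lean` with three changes. (1) `NCM.energy` (`NCF.W_lim`) without `noa_closed`:
`qs N (fun x => rAvg (dirWick (s z) x)) → 8 / 9 rAvg (dia (s z))` (`wkq_closed`, `dg s = dia s`; `Sur` after a
shift by `BSL.FLA.exists_sur`; `BSL.Sem` passes to subsequences, `BSL.FLA.sem_comp`). (2) `NCF.ker_eq` for
kernels with finite masses: on `A_k = {z ∈ D | s z univ ≤ k ∧ s' z univ ≤ k}` both kernels are finite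
(`exists_fin` with `Kernel.piecewise` for the set `s z univ ≤ k`, `NCF.restr`), and `D = ⋃ A_k`. (3)
`NCF.claim` with `S = rAvg p²`: for every `x`,
`(gm n x - (rAvg (dirWick (s z) x) + (κ - 3 S) / 3 resK x)) / κ → 0` (bounded `κ`: `exists_dat` for the
subsequence and the same measure; `κ → ∞`: `infty_closed`, the constants divided by `κ` tend to zero). So
`|enM N n - (2 rAvg dia + (κ - 3 S) / 3)| ≤ |w_N - 2 rAvg dia| + |κ - 3 S| / 3 |c_N - 1| + o(κ)`, with
`w_N = 9 / 4 qs N (rAvg dirWick) → 2 rAvg dia`, `c_N = 9 / 4 qs N resK → 1`, `κ ≥ 1`. -/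
def StmtMas : Prop :=
  StmtEx4 → StmtWv4 →
  ∀ (Γ : Subgroup SL(2, ℝ)) [Countable Γ] (ρ : ℍ → ℝ) (D : Set ℍ) (φ : ℕ → ℍ → ℝ) (m : ℕ → ℝ),
    Hy Γ ρ D φ m → ∀ s : ProbabilityTheory.Kernel ℍ S1, BSL.Sem ρ φ m s →
    ∀ ε > 0, ∃ N₀ : ℕ, ∀ N ≥ N₀, ∀ᶠ n in atTop,
      |km ρ D φ n - 3 * Berry.rAvg ρ D (fun z => ((s z) univ).toReal ^ 2 - 2 * BSL.dia (s z))
        - 3 * enM ρ D φ m N n| ≤ ε * km ρ D φ n

end

end PK4
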