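import Pool.Agent.PWV.EQDH
import Pool.Agent.PWV.ZDI
import Pool.Agent.PWV.LIM
import Pool.Agent.PK4.St4
import Pool.Agent.PK4.NCF

/-!
# MAS: the formula for all sequences on all closed surfaces
-/

set_option autoImplicit false

open Complex MeasureTheory Filter Topology Set
open UpperHalfPlane hiding I
open scoped ContDiff MatrixGroups ProbabilityTheory ENNReal

namespace PK4

open QE QE.NC NFP NFP.BND PWV

noncomputable section

namespace MAS

variable {Γ : Subgroup SL(2, ℝ)} {ρ : ℍ → ℝ} {D : Set ℍ} {φ : ℕ → ℍ → ℝ} {m : ℕ → ℝ}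

/-! ### the kernel is determined by the measure -/

/-- a kernel with mass at most `k` -/
lemma exists_fin {ν : Measure ℍ} (k : ℕ) (s : ProbabilityTheory.Kernel ℍ S1)
    (hs : ∀ᵐ z ∂ν, (s z) univ ≤ k) :
    ∃ t : ProbabilityTheory.Kernel ℍ S1, ProbabilityTheory.IsFiniteKernel t ∧
      ∀ᵐ z ∂ν, s z = t z := by
  classical
  have hm : MeasurableSet {z | s z univ ≤ k} :=
    (s.measurable_coe MeasurableSet.univ) measurableSet_Iic
  refine ⟨ProbabilityTheory.Kernel.piecewise hm s 0,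
    ⟨⟨k, ENNReal.natCast_lt_top k, fun z => ?_⟩⟩, ?_⟩
  · rw [ProbabilityTheory.Kernel.piecewise_apply']
    split_ifs with h
    · exact h
    · simp
  · filter_upwards [hs] with z hz
    rw [ProbabilityTheory.Kernel.piecewise_apply]
    exact (if_pos hz).symm

lemma ker_eq [Countable Γ] (hg : Berry.Geo Γ ρ D) (hDm : MeasurableSet D)
    {s s' : ProbabilityTheory.Kernel ℍ S1} (hs : ∀ z, IsFiniteMeasure (s z))
    (hs' : ∀ z, IsFiniteMeasure (s' z))
    (h : (Berry.area ρ) ⊗ₘ s = (Berry.area ρ) ⊗ₘ s') :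
    ∀ᵐ z ∂(ProbabilityTheory.cond (Berry.area ρ) D), s z = s' z := by
  have hsf := NFP.POS.sfin s hs
  have hsf' := NFP.POS.sfin s' hs'
  have hsfa : SFinite (Berry.area ρ) := by
    unfold Berry.area
    infer_instance
  let A : ℕ → Set ℍ := fun k => D ∩ ({z | s z univ ≤ k} ∩ {z | s' z univ ≤ k})
  have hAm : ∀ k, MeasurableSet (A k) := fun k => hDm.inter
    (((s.measurable_coe MeasurableSet.univ) measurableSet_Iic).inter
      ((s'.measurable_coe MeasurableSet.univ) measurableSet_Iic))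
  have hAk : ∀ k, ∀ᵐ z ∂((Berry.area ρ).restrict (A k)), s z = s' z := by
    intro k
    have hfin : IsFiniteMeasure ((Berry.area ρ).restrict (A k)) :=
      ⟨by
        rw [Measure.restrict_apply_univ]
        exact (measure_mono inter_subset_left).trans_lt
          (lt_top_iff_ne_top.2 (Berry.area_ne_top hg))⟩
    have m1 : ∀ᵐ z ∂((Berry.area ρ).restrict (A k)), (s z) univ ≤ k := by
      filter_upwards [ae_restrict_mem (hAm k)] with z hz
      exact hz.2.1
    have m1' : ∀ᵐ z ∂((Berry.area ρ).restrict (A k)), (s' z) univ ≤ k := by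
      filter_upwards [ae_restrict_mem (hAm k)] with z hz
      exact hz.2.2
    obtain ⟨t, ht, e⟩ := exists_fin k s m1
    obtain ⟨t', ht', e'⟩ := exists_fin k s' m1'
    have h2 : ((Berry.area ρ).restrict (A k)) ⊗ₘ t = ((Berry.area ρ).restrict (A k)) ⊗ₘ t' := by
      rw [← Measure.compProd_congr e, ← Measure.compProd_congr e', NCF.restr (hAm k),
        NCF.restr (hAm k), h]
    have h3 := ProbabilityTheory.Kernel.ae_eq_of_compProd_eq h2
    filter_upwards [e, e', h3] with z a b c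
    rw [a, b, c]
  have hU : (⋃ k, A k) = D := by
    apply subset_antisymm
    · exact iUnion_subset fun k => inter_subset_left
    · intro z hz
      obtain ⟨k₁, hk₁⟩ := ENNReal.exists_nat_gt (measure_ne_top (s z) univ)
      obtain ⟨k₂, hk₂⟩ := ENNReal.exists_nat_gt (measure_ne_top (s' z) univ)
      refine mem_iUnion.2 ⟨max k₁ k₂, hz, ?_, ?_⟩
      · exact hk₁.le.trans (by exact_mod_cast le_max_left k₁ k₂)
      · exact hk₂.le.trans (by exact_mod_cast le_max_right k₁ k₂)
  have h4 : ∀ᵐ z ∂((Berry.area ρ).restrict D), s z = s' z := by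
    rw [← hU]
    exact (ae_restrict_iUnion_iff A _).2 hAk
  unfold ProbabilityTheory.cond
  exact Measure.ae_smul_measure h4 _

/-! ### the energy of the limit -/

lemma W_lim [Countable Γ] {s : ProbabilityTheory.Kernel ℍ S1} (hS : BSL.Sur Γ D ρ φ m)
    (hs : BSL.Sem ρ φ m s) :
    Tendsto (fun N => qs N (fun x => Berry.rAvg ρ D (fun z => dirWick (s z) x))) atTop
      (𝓝 (8 / 9 * Berry.rAvg ρ D (fun z => BSL.dia (s z)))) ∧
    Berry.rAvg ρ D (fun z => ((s z) univ).toReal ^ 2 - 2 * BSL.dia (s z))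
      = Berry.rAvg ρ D (fun z => ((s z) univ).toReal ^ 2)
        - 2 * Berry.rAvg ρ D (fun z => BSL.dia (s z)) := by
  have hg : Berry.Geo Γ ρ D :=
    geo_of hS.mD hS.fd hS.fac.cpt (continuous_of_smooth hS.fac.smooth) hS.fac.inv
  have hP := ONE.prob_nu hg
  obtain ⟨ζ, hζ⟩ := BSL.t_CUT Γ D ρ hS.mD hS.fd hS.fac
  obtain ⟨sq, -, -, dw⟩ := BSL.msd_closed Γ D ρ φ m s hS hs ζ hζ
  have hfam := BSL.lfr_closed Γ ρ φ m s hS.fac hS.loc hs (fun n => hS.eig.invariant n)
  have js2 := ONE.int_nu hg sq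
  have hfin := hs.fin
  have jw : ∀ x : Fin 4 → ℂ, Integrable (fun z => dirWick (s z) x)
      (ProbabilityTheory.cond (Berry.area ρ) D) := fun x => ONE.int_nu hg (dw x).1
  have hae : ∀ᵐ z ∂(ProbabilityTheory.cond (Berry.area ρ) D),
      (((s z).prod (s z)) {p : S1 × S1 | p.1 = -p.2}).toReal = dg (s z) := by
    filter_upwards [BSL.HUL.ae_cond (ρ := ρ) (D := D) (BSL.HUL.odd_zero hfam)] with z hz
    exact (BSL.t_WIE (s z) (hfin z)).2 hz
  unfold Berry.rAvg
  set ν := ProbabilityTheory.cond (Berry.area ρ) D with hν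
  have e : ∀ N, qs N (fun x => ∫ z, dirWick (s z) x ∂ν) = ∫ z, qs N (dirWick (s z)) ∂ν := by
    intro N
    unfold qs
    rw [integral_const_mul, integral_finsetSum _ fun q _ => jw _]
  have hq : ∀ N, AEStronglyMeasurable (fun z => qs N (dirWick (s z))) ν := by
    intro N
    have h5 : Integrable (fun z => qs N (dirWick (s z))) ν := by
      unfold qs
      exact (integrable_finsetSum _ fun q _ => jw _).const_mul _
    exact h5.aestronglyMeasurable
  have hb : ∀ N z, |qs N (dirWick (s z))| ≤ 3 * ((s z) univ).toReal ^ 2 := fun N z =>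
    PWV.LIM.abs_qs (by positivity) (t_WKB (s z) (hfin z))
  have hl : ∀ᵐ z ∂ν, Tendsto (fun N => qs N (dirWick (s z))) atTop
      (𝓝 (8 / 9 * BSL.dia (s z))) := by
    filter_upwards [hae] with z hz
    exact wkq_closed (s z) (hfin z) hz
  have l1 : Tendsto (fun N => ∫ z, qs N (dirWick (s z)) ∂ν) atTop
      (𝓝 (∫ z, 8 / 9 * BSL.dia (s z) ∂ν)) :=
    tendsto_integral_of_dominated_convergence
      (fun z => 3 * ((s z) univ).toReal ^ 2) hq (js2.const_mul 3)
      (fun N => Eventually.of_forall fun z => by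
        rw [Real.norm_eq_abs]
        exact hb N z) hl
  have hdm : AEStronglyMeasurable (fun z => 8 / 9 * BSL.dia (s z)) ν :=
    aestronglyMeasurable_of_tendsto_ae _ hq hl
  have hdi : Integrable (fun z => 8 / 9 * BSL.dia (s z)) ν := by
    refine (js2.const_mul 3).mono' hdm ?_
    filter_upwards [hl] with z hz
    rw [Real.norm_eq_abs]
    exact le_of_tendsto hz.abs (Eventually.of_forall fun N => hb N z)
  have hdi' : Integrable (fun z => 2 * BSL.dia (s z)) ν := by
    refine (hdi.const_mul (9 / 4)).congr (Eventually.of_forall fun z => ?_)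
    beta_reduce
    ring
  constructor
  · rw [integral_const_mul] at l1
    exact l1.congr fun N => (e N).symm
  · rw [integral_sub js2 hdi', integral_const_mul]

/-! ### the four-point function -/

lemma claim [Countable Γ] (H : Hy Γ ρ D φ m) {s : ProbabilityTheory.Kernel ℍ S1}
    (hμ : Semiclassical ρ φ m ((Berry.area ρ) ⊗ₘ s))
    (hs : ∀ z, IsFiniteMeasure (s z)) (x : Fin 4 → ℂ) :
    Tendsto (fun n => (gm ρ D φ m n x - (Berry.rAvg ρ D (fun z => dirWick (s z) x)
      + (km ρ D φ n - 3 * Berry.rAvg ρ D (fun z => (s z univ).toReal ^ 2)) / 3 * resK x))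
        / km ρ D φ n) atTop (𝓝 0) := by
  have hρc : Continuous ρ := continuous_of_smooth H.fac.smooth
  have hg : Berry.Geo Γ ρ D := QE.NC.geo_of H.meas H.fd H.fac.cpt hρc H.fac.inv
  refine tendsto_of_subseq_tendsto fun ns hns => ?_
  by_cases hbd : ∃ B : ℝ, ∃ᶠ i in atTop, km ρ D φ (ns i) ≤ B
  · obtain ⟨B, hB⟩ := hbd
    obtain ⟨t, ht, htB⟩ := extraction_of_frequently_atTop hB
    have hst : Tendsto (fun i => ns (t i)) atTop atTop := hns.comp ht.tendsto_atTop
    have H' := LW4.Hy_comp H hst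
    obtain ⟨N, u, s', -, -, hμe, T⟩ := exists_dat (Γ := Γ) (ρ := ρ) (D := D)
      (φ := fun i => φ (ns (t i))) (m := fun i => m (ns (t i)))
      (μ := (Berry.area ρ) ⊗ₘ s) inferInstance H'.fac
      H'.meas H'.fd H'.eig H'.smooth ⟨B, fun i => htB i⟩ (BSL.FLA.sem_comp hμ hst)
    have hae := ker_eq hg H.meas hs T.fin hμe
    have h1 := T.main fourVar_closed glob (fun _ => 1) continuous_const (fun _ _ _ => rfl) x
    simp only [one_mul] at h1
    have e1 : Berry.rAvg ρ D (fun z => dirWick (s' z) x)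
        = Berry.rAvg ρ D (fun z => dirWick (s z) x) := by
      unfold Berry.rAvg
      refine integral_congr_ae ?_
      filter_upwards [hae] with z hz
      rw [hz]
    have e2 : Berry.rAvg ρ D (fun z => (s' z univ).toReal ^ 2)
        = Berry.rAvg ρ D (fun z => (s z univ).toReal ^ 2) := by
      unfold Berry.rAvg
      refine integral_congr_ae ?_
      filter_upwards [hae] with z hz
      rw [hz]
    rw [e1, e2] at h1
    refine ⟨fun i => t (i + N), ?_⟩
    refine squeeze_zero_norm (fun i => ?_) (tendsto_zero_iff_norm_tendsto_zero.1 h1)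
    rw [norm_div]
    refine div_le_self (norm_nonneg _) ?_
    rw [Real.norm_eq_abs]
    exact (LW4.km_ge H _).trans (le_abs_self _)
  · have hinf : Tendsto (fun i => km ρ D φ (ns i)) atTop atTop := by
      rw [tendsto_atTop]
      intro B
      have h1 : ¬ ∃ᶠ i in atTop, km ρ D φ (ns i) ≤ B := fun h => hbd ⟨B, h⟩
      rw [not_frequently] at h1
      filter_upwards [h1] with i hi
      exact (not_le.1 hi).le
    have H' := LW4.Hy_comp H hns
    have h1 := infty_closed Γ ρ D (fun i => φ (ns i)) (fun i => m (ns i)) inferInstance H'.fac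
      H'.meas H'.fd H'.eig H'.smooth H'.norm hinf (fun _ => 1) continuous_const
      (fun _ _ _ => rfl) x
    simp only [one_mul] at h1
    have h1' : Tendsto (fun i => (gm ρ D φ m (ns i) x - km ρ D φ (ns i) / 3 * resK x)
        / km ρ D φ (ns i)) atTop (𝓝 0) := h1
    have h2 : Tendsto (fun i => (Berry.rAvg ρ D (fun z => dirWick (s z) x)
        - Berry.rAvg ρ D (fun z => (s z univ).toReal ^ 2) * resK x)
        / km ρ D φ (ns i)) atTop (𝓝 0) := hinf.const_div_atTop _
    have h3 := h1'.sub h2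
    rw [sub_zero] at h3
    refine ⟨id, h3.congr fun i => ?_⟩
    simp only [id]
    rw [← sub_div]
    congr 1
    ring

/-! ### the energy -/

lemma main (h1 : StmtEx4) (h3 : StmtWv4) [Countable Γ] (H : Hy Γ ρ D φ m)
    {s : ProbabilityTheory.Kernel ℍ S1} (hsem : BSL.Sem ρ φ m s) {ε : ℝ} (hε : 0 < ε) :
    ∃ N₀ : ℕ, ∀ N ≥ N₀, ∀ᶠ n in atTop,
      |km ρ D φ n - 3 * Berry.rAvg ρ D (fun z => ((s z) univ).toReal ^ 2 - 2 * BSL.dia (s z))
        - 3 * enM ρ D φ m N n| ≤ ε * km ρ D φ n := by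
  obtain ⟨K, hS⟩ := BSL.FLA.exists_sur (Γ := Γ) (D := D) H.fac.smooth H.fac.inv H.meas H.fd
    H.fac.cpt H.eig H.smooth H.norm
  have hK : Tendsto (fun n : ℕ => n + K) atTop atTop := tendsto_add_atTop_nat K
  have hsemK : BSL.Sem ρ (fun n => φ (n + K)) (fun n => m (n + K)) s :=
    ⟨hsem.fin, hsem.loc, BSL.FLA.sem_comp hsem.sem hK⟩
  obtain ⟨hW, hsplit⟩ := W_lim hS hsemK
  rw [hsplit]
  have hcl := fun x => claim H hsem.sem hsem.fin x
  set S : ℝ := Berry.rAvg ρ D (fun z => ((s z) univ).toReal ^ 2) with hSd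
  set A : ℝ := Berry.rAvg ρ D (fun z => BSL.dia (s z)) with hAd
  have hS0 : 0 ≤ S := by
    rw [hSd]
    unfold Berry.rAvg
    exact integral_nonneg fun z => by positivity
  have hc := rkq_closed.1.const_mul (9 / 4 : ℝ)
  have hc1 : (9 / 4 : ℝ) * (4 / 9) = 1 := by norm_num
  rw [hc1] at hc
  obtain ⟨N₁, hN₁⟩ := (Metric.tendsto_atTop.1 hc) (ε / (20 * (1 + 3 * S))) (by positivity)
  obtain ⟨N₂, hN₂⟩ := (Metric.tendsto_atTop.1 hW) (ε / 50) (by positivity)
  refine ⟨max N₁ N₂, fun N hNN => ?_⟩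
  set c : ℝ := 9 / 4 * qs N resK with hcd
  set W : ℝ := qs N (fun x => Berry.rAvg ρ D (fun z => dirWick (s z) x)) with hWd
  have hcb : |c - 1| < ε / (20 * (1 + 3 * S)) := by
    have := hN₁ N ((le_max_left _ _).trans hNN)
    rwa [Real.dist_eq] at this
  have hWb : |W - 8 / 9 * A| < ε / 50 := by
    have := hN₂ N ((le_max_right _ _).trans hNN)
    rwa [Real.dist_eq] at this
  have k1 := (LW4.qs_lim N hcl).const_mul (9 / 4 : ℝ)
  have e0 : qs N (fun _ => (0 : ℝ)) = 0 := by simp [qs]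
  rw [e0, mul_zero] at k1
  have k2 := (Metric.tendsto_nhds.1 k1) (ε / 20) (by positivity)
  filter_upwards [k2, LW4.enM_eq h1 h3 H N] with n b1 b2
  have b4 := LW4.km_ge H n
  set κ := km ρ D φ n with hκ
  have hκ0 : (0 : ℝ) < κ := by linarith
  have e1 : qs N (fun x => (gm ρ D φ m n x - (Berry.rAvg ρ D (fun z => dirWick (s z) x)
      + (κ - 3 * S) / 3 * resK x)) / κ)
      = (qs N (gm ρ D φ m n) - (W + (κ - 3 * S) / 3 * qs N resK)) / κ := by
    have := LW4.qs_lin N (gm ρ D φ m n) resK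
      (fun x => Berry.rAvg ρ D (fun z => dirWick (s z) x)) (1 / κ) (-((κ - 3 * S) / 3) / κ) (-1 / κ)
    have e2 : (fun x => (gm ρ D φ m n x - (Berry.rAvg ρ D (fun z => dirWick (s z) x)
        + (κ - 3 * S) / 3 * resK x)) / κ)
        = fun x => 1 / κ * gm ρ D φ m n x + -((κ - 3 * S) / 3) / κ * resK x
          + -1 / κ * (fun x => Berry.rAvg ρ D (fun z => dirWick (s z) x)) x := by
      funext x
      ring
    rw [e2, this]
    ring
  rw [e1, Real.dist_eq, sub_zero] at b1
  have b5 : |9 / 4 * qs N (gm ρ D φ m n) - 9 / 4 * W - (κ - 3 * S) / 3 * c| < ε / 20 * κ := by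
    have e3 : 9 / 4 * ((qs N (gm ρ D φ m n) - (W + (κ - 3 * S) / 3 * qs N resK)) / κ)
        = (9 / 4 * qs N (gm ρ D φ m n) - 9 / 4 * W - (κ - 3 * S) / 3 * c) / κ := by
      rw [hcd]
      ring
    rw [e3, abs_div, abs_of_pos hκ0, div_lt_iff₀ hκ0] at b1
    exact b1
  rw [b2]
  have b6 : |κ - 3 * S| ≤ (1 + 3 * S) * κ := by
    rw [abs_le]
    constructor <;> nlinarith
  have b7 : |(κ - 3 * S) * (1 - c)| ≤ ε / 20 * κ := by
    have e4 : ε / 20 * κ = (1 + 3 * S) * κ * (ε / (20 * (1 + 3 * S))) := by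
      field_simp
    rw [e4, abs_mul]
    refine mul_le_mul b6 ?_ (abs_nonneg _) (by positivity)
    rw [abs_sub_comm]
    exact hcb.le
  have b8 : κ - 3 * (S - 2 * A) - 3 * (9 / 4 * qs N (gm ρ D φ m n))
      = (κ - 3 * S) * (1 - c) - 27 / 4 * (W - 8 / 9 * A)
        - 3 * (9 / 4 * qs N (gm ρ D φ m n) - 9 / 4 * W - (κ - 3 * S) / 3 * c) := by ring
  rw [b8]
  have b5' := abs_lt.1 b5
  have b7' := abs_le.1 b7
  have hWb' := abs_lt.1 hWb
  have b9 : ε / 50 ≤ ε / 50 * κ := le_mul_of_one_le_right (by positivity) b4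
  rw [abs_le]
  constructor <;> nlinarith

end MAS

/-- **MAS**: the formula for all sequences on all closed surfaces. -/
theorem t_MAS : StmtMas := by
  intro h1 h3 Γ _ ρ D φ m H s hs ε hε
  exact MAS.main h1 h3 H hs hε

end

end PK4
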