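import Pool.Agent.PK4.GEN
import Pool.Agent.PK4.MAS

/-!
# LMS: the mean square of the local mass, for all sequences
-/

set_option autoImplicit false

open Complex MeasureTheory Filter Topology Set
open UpperHalfPlane hiding I
open scoped ContDiff MatrixGroups ProbabilityTheory ENNReal

namespace PK4

open QE QE.NC NFP NFP.BND PWV BSL

noncomputable section

namespace LMS

variable {Γ : Subgroup SL(2, ℝ)} {ρ : ℍ → ℝ} {D : Set ℍ} {φ : ℕ → ℍ → ℝ} {m : ℕ → ℝ}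
  {s : ProbabilityTheory.Kernel ℍ S1}

/-- the four-point formula, summed over the pairs of points of the box -/
lemma four [Countable Γ] (H : Hy Γ ρ D φ m) (hS : Sem ρ φ m s) (N : ℕ) :
    Tendsto (fun n => (bl N (fun x y => gm ρ D φ m n ![x, x, y, y])
      - (bl N (fun x y => Berry.rAvg ρ D (fun z => dirWick (s z) ![x, x, y, y]))
      + (km ρ D φ n - 3 * Berry.rAvg ρ D (fun z => (s z univ).toReal ^ 2)) / 3
        * bl N (fun x y => resK ![x, x, y, y]))) / km ρ D φ n)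
      atTop (𝓝 0) := by
  have h1 := fun x => MAS.claim H hS.sem hS.fin x
  set S2 := Berry.rAvg ρ D (fun z => (s z univ).toReal ^ 2) with hS2
  have h3 := (tendsto_finsetSum (box N) fun p _ => tendsto_finsetSum (box N) fun q _ =>
    h1 ![pt p, pt p, pt q, pt q]).const_mul (1 / (N : ℝ) ^ 4)
  simp only [Finset.sum_const_zero, mul_zero] at h3
  refine h3.congr fun n => ?_
  have e1 : ∀ p q : ℕ × ℕ, (gm ρ D φ m n ![pt p, pt p, pt q, pt q]
      - (Berry.rAvg ρ D (fun z => dirWick (s z) ![pt p, pt p, pt q, pt q])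
        + (km ρ D φ n - 3 * S2) / 3 * resK ![pt p, pt p, pt q, pt q])) / km ρ D φ n
      = (km ρ D φ n)⁻¹ * gm ρ D φ m n ![pt p, pt p, pt q, pt q]
        + (-(km ρ D φ n)⁻¹) * Berry.rAvg ρ D (fun z => dirWick (s z) ![pt p, pt p, pt q, pt q])
        + (-((km ρ D φ n)⁻¹ * ((km ρ D φ n - 3 * S2) / 3))) * resK ![pt p, pt p, pt q, pt q] := by
    intro p q
    ring
  simp only [e1, Finset.sum_add_distrib, ← Finset.mul_sum]
  unfold bl
  ring

/-- the mean of the local mass -/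
lemma mean [Countable Γ] (H : Hy Γ ρ D φ m) {N : ℕ} (hN : 0 < N) :
    Tendsto (fun n => 1 / (N : ℝ) ^ 2 * ∑ q ∈ box N,
      ∫ p, Berry.rWave ρ (φ n) (m n) (pt q) p * Berry.rWave ρ (φ n) (m n) (pt q) p
        ∂(Berry.rFrameProb ρ D)) atTop (𝓝 1) := by
  obtain ⟨K, hSur⟩ := FLA.exists_sur (Γ := Γ) (ρ := ρ) (D := D) (φ := φ) (m := m) H.fac.smooth
    H.fac.inv H.meas H.fd H.fac.cpt H.eig H.smooth H.norm
  have h7 : ∀ q : ℕ × ℕ, Tendsto (fun n => ∫ p, Berry.rWave ρ (φ n) (m n) (pt q) p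
      * Berry.rWave ρ (φ n) (m n) (pt q) p ∂(Berry.rFrameProb ρ D)) atTop (𝓝 1) := by
    intro q
    have h8 := PKM.OR2.mom hSur (pt q) (pt q)
    rw [sub_self, Berry.waveK_zero] at h8
    exact (tendsto_add_atTop_iff_nat K).1 h8
  have h9 := (tendsto_finsetSum (box N) fun q _ => h7 q).const_mul (1 / (N : ℝ) ^ 2)
  have e0 : 1 / (N : ℝ) ^ 2 * ∑ _q ∈ box N, (1 : ℝ) = 1 := by
    rw [Finset.sum_const, box, Finset.card_product, Finset.card_range, nsmul_eq_mul, mul_one]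
    push_cast
    field_simp
  rw [e0] at h9
  exact h9

end LMS

/-- **LMS**: the mean square of the local mass, for all sequences. -/
theorem loc_law (h1 : StmtEx4) (h3 : StmtWv4) {Γ : Subgroup SL(2, ℝ)} {ρ : ℍ → ℝ} {D : Set ℍ}
    {φ : ℕ → ℍ → ℝ} {m : ℕ → ℝ} {s : ProbabilityTheory.Kernel ℍ S1} [Countable Γ]
    (H : Hy Γ ρ D φ m) (hS : Sem ρ φ m s) {ε : ℝ} (hε : 0 < ε) :
    ∃ N₀ : ℕ, ∀ N ≥ N₀, ∀ᶠ n in atTop,
      |∫ p, (loc (fun x => Berry.rWave ρ (φ n) (m n) x p) N - 1) ^ 2 ∂(Berry.rFrameProb ρ D)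
        - (Berry.rAvg ρ D (fun z => ((s z) univ).toReal ^ 2 - 2 * dia (s z)) - 1)
        - 2 * enM ρ D φ m N n| ≤ ε * km ρ D φ n := by
  have hP := MV4.prob H
  obtain ⟨K, hSur⟩ := FLA.exists_sur (Γ := Γ) (D := D) H.fac.smooth H.fac.inv H.meas H.fd
    H.fac.cpt H.eig H.smooth H.norm
  have hK : Tendsto (fun n : ℕ => n + K) atTop atTop := tendsto_add_atTop_nat K
  have hSK : Sem ρ (fun n => φ (n + K)) (fun n => m (n + K)) s :=
    ⟨hS.fin, hS.loc, FLA.sem_comp hS.sem hK⟩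
  obtain ⟨-, -, -, -, hbl⟩ := GEN.lims hSur hSK
  obtain ⟨-, hsplit⟩ := MAS.W_lim hSur hSK
  obtain ⟨N₀, hN₀⟩ := MAS.main h1 h3 H hS (show 0 < ε / 10 by positivity)
  rw [hsplit] at hN₀
  rw [hsplit]
  have hfour := LMS.four H hS
  set S : ℝ := Berry.rAvg ρ D (fun z => ((s z) univ).toReal ^ 2) with hSd
  set A : ℝ := Berry.rAvg ρ D (fun z => dia (s z)) with hAd
  have hS0 : 0 ≤ S := by
    rw [hSd]
    unfold Berry.rAvg
    exact integral_nonneg fun z => by positivity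
  obtain ⟨N₁, hN₁⟩ := (Metric.tendsto_atTop.1 rkq_closed.2) (ε / (10 * (1 + 3 * S)))
    (by positivity)
  obtain ⟨N₂, hN₂⟩ := (Metric.tendsto_atTop.1 hbl) (ε / 10) (by positivity)
  refine ⟨max (max N₁ N₂) (max N₀ 1), fun N hNN => ?_⟩
  have g1 : N₁ ≤ N := ((le_max_left _ _).trans (le_max_left _ _)).trans hNN
  have g2 : N₂ ≤ N := ((le_max_right _ _).trans (le_max_left _ _)).trans hNN
  have g3 : N₀ ≤ N := ((le_max_left _ _).trans (le_max_right _ _)).trans hNN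
  have g4 : 0 < N := ((le_max_right _ _).trans (le_max_right _ _)).trans hNN
  have a1 := hN₁ N g1
  have a2 := hN₂ N g2
  rw [Real.dist_eq] at a1 a2
  have a3 := (Metric.tendsto_nhds.1 (hfour N)) (ε / 10) (by positivity)
  have a4 := (Metric.tendsto_nhds.1 (LMS.mean H g4)) (ε / 20) (by positivity)
  filter_upwards [a3, a4, hN₀ N g3, h3 Γ ρ D φ m H N] with n b1 b2 b3 hwv
  obtain ⟨hmeas, C, hC⟩ := hwv
  have hex := MV4.expand (Berry.rFrameProb ρ D) (fun x p => Berry.rWave ρ (φ n) (m n) x p) C N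
    hmeas hC
  have hB : 1 / (N : ℝ) ^ 4 * ∑ p ∈ box N, ∑ q ∈ box N,
      ∫ o, Berry.rWave ρ (φ n) (m n) (pt p) o * Berry.rWave ρ (φ n) (m n) (pt p) o
        * Berry.rWave ρ (φ n) (m n) (pt q) o * Berry.rWave ρ (φ n) (m n) (pt q) o
        ∂(Berry.rFrameProb ρ D) = bl N (fun x y => gm ρ D φ m n ![x, x, y, y]) := rfl
  rw [hB] at hex
  rw [hex]
  have hk1 := LW4.km_ge H n
  rw [Real.dist_eq] at b2
  set κ := km ρ D φ n with hκ
  have hκ0 : (0 : ℝ) < κ := by linarith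
  set G := bl N (fun x y => gm ρ D φ m n ![x, x, y, y]) with hG
  set W := bl N (fun x y => Berry.rAvg ρ D (fun z => dirWick (s z) ![x, x, y, y])) with hW
  set R := bl N (fun x y => resK ![x, x, y, y]) with hR
  set l := 1 / (N : ℝ) ^ 2 * ∑ q ∈ box N,
      ∫ p, Berry.rWave ρ (φ n) (m n) (pt q) p * Berry.rWave ρ (φ n) (m n) (pt q) p
        ∂(Berry.rFrameProb ρ D) with hl
  rw [Real.dist_eq, sub_zero, abs_div, abs_of_pos hκ0, div_lt_iff₀ hκ0] at b1
  have c1 : |κ - 3 * S| ≤ (1 + 3 * S) * κ := by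
    rw [abs_le]
    constructor <;> nlinarith
  have c2 : |(κ - 3 * S) / 3 * (R - 2)| ≤ ε / 10 * κ := by
    have e4 : ε / 10 * κ = (1 + 3 * S) * κ * (ε / (10 * (1 + 3 * S))) := by
      field_simp
    rw [e4, abs_mul]
    refine mul_le_mul ?_ a1.le (abs_nonneg _) (by positivity)
    rw [abs_div, abs_of_pos (by norm_num : (0 : ℝ) < 3)]
    have := abs_nonneg (κ - 3 * S)
    linarith
  have e2 : G - 2 * l + 1 - (S - 2 * A - 1) - 2 * enM ρ D φ m N n
      = (G - (W + (κ - 3 * S) / 3 * R)) + (W - (S + 2 * A)) + (κ - 3 * S) / 3 * (R - 2)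
        - 2 * (l - 1) + 2 / 3 * (κ - 3 * (S - 2 * A) - 3 * enM ρ D φ m N n) := by
    ring
  rw [e2]
  have f1 := abs_lt.1 b1
  have f2 := abs_lt.1 a2
  have f3 := abs_le.1 c2
  have f4 := abs_lt.1 b2
  have f5 := abs_le.1 b3
  have f6 : ε / 10 ≤ ε / 10 * κ := le_mul_of_one_le_right (by positivity) hk1
  rw [abs_le]
  constructor <;> linarith [f1.1, f1.2, f2.1, f2.2, f3.1, f3.2, f4.1, f4.2, f5.1, f5.2]

end

end PK4
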