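import Pool.Agent.PK4.St

/-!
# Project L4, module NNG: the energy of a Gaussian wave is nonnegative
-/

set_option autoImplicit false

open Complex MeasureTheory Filter Topology Set
open UpperHalfPlane hiding I
open scoped ContDiff MatrixGroups ProbabilityTheory ENNReal

namespace PK4

open PWV NFP

noncomputable section

namespace NNG

/-- the points of an additive quadruple -/
lemma pt_rel {N : ℕ} {q : (ℕ × ℕ) × (ℕ × ℕ) × (ℕ × ℕ) × (ℕ × ℕ)} (hq : q ∈ quads N) :
    pt q.1 + pt q.2.2.2 = pt q.2.1 + pt q.2.2.1 := by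
  unfold quads at hq
  have h := (Finset.mem_filter.1 hq).2
  rw [← PWV.SQR.pt_add, ← PWV.SQR.pt_add, h]

/-- the third pairing is a sum of squares -/
lemma third (N : ℕ) (K : ℂ → ℝ) :
    0 ≤ ∑ q ∈ quads N, K (pt q.1 - pt q.2.2.2) * K (pt q.2.1 - pt q.2.2.1) := by
  have hmaps : ∀ p ∈ box N ×ˢ box N, p.1 + p.2 ∈ box (2 * N) := by
    intro p hp
    unfold box at hp ⊢
    simp only [Finset.mem_product, Finset.mem_range, Prod.fst_add, Prod.snd_add] at hp ⊢
    omega
  have e3 : ∑ q ∈ ((box N ×ˢ box N) ×ˢ (box N ×ˢ box N)).filter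
        (fun q => q.1.1 + q.1.2 = q.2.1 + q.2.2),
        K (pt q.1.1 - pt q.1.2) * K (pt q.2.1 - pt q.2.2) =
      ∑ q ∈ quads N, K (pt q.1 - pt q.2.2.2) * K (pt q.2.1 - pt q.2.2.1) := by
    refine Finset.sum_nbij' (fun q => (q.1.1, q.2.1, q.2.2, q.1.2))
      (fun q => ((q.1, q.2.2.2), (q.2.1, q.2.2.1))) ?_ ?_ ?_ ?_ ?_
    · intro q hq
      unfold quads
      simp only [Finset.mem_filter, Finset.mem_product] at hq ⊢
      tauto
    · intro q hq
      unfold quads at hq
      simp only [Finset.mem_filter, Finset.mem_product] at hq ⊢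
      tauto
    · intro q _
      rfl
    · intro q _
      rfl
    · intro q _
      rfl
  rw [← e3, ← PWV.PAR.sq_fib (box N ×ˢ box N) (box (2 * N)) (fun p => p.1 + p.2) hmaps
      (fun p => K (pt p.1 - pt p.2))]
  exact Finset.sum_nonneg fun k _ => sq_nonneg _

/-- the integrand at an additive quadruple -/
def W (s : Measure S1) (q : (ℕ × ℕ) × (ℕ × ℕ) × (ℕ × ℕ) × (ℕ × ℕ)) (θ : ℝ) : ℝ :=
  dirK s (Complex.exp (θ * Complex.I) * (pt q.1 - pt q.2.1))
      * dirK s (Complex.exp (θ * Complex.I) * (pt q.2.2.1 - pt q.2.2.2))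
    + dirK s (Complex.exp (θ * Complex.I) * (pt q.1 - pt q.2.2.1))
      * dirK s (Complex.exp (θ * Complex.I) * (pt q.2.1 - pt q.2.2.2))
    + dirK s (Complex.exp (θ * Complex.I) * (pt q.1 - pt q.2.2.2))
      * dirK s (Complex.exp (θ * Complex.I) * (pt q.2.1 - pt q.2.2.1))

lemma wick_eq (s : Measure S1) (q : (ℕ × ℕ) × (ℕ × ℕ) × (ℕ × ℕ) × (ℕ × ℕ)) :
    dirWick s ![pt q.1, pt q.2.1, pt q.2.2.1, pt q.2.2.2] =
      1 / (2 * Real.pi) * ∫ θ in (0 : ℝ)..(2 * Real.pi), W s q θ := rfl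

lemma cont_W (s : Measure S1) [IsFiniteMeasure s]
    (q : (ℕ × ℕ) × (ℕ × ℕ) × (ℕ × ℕ) × (ℕ × ℕ)) : Continuous (W s q) := by
  have h : ∀ y : ℂ, Continuous fun θ : ℝ => dirK s (Complex.exp (θ * Complex.I) * y) := by
    intro y
    refine (ONE.cont_dirK s).comp ?_
    fun_prop
  unfold W
  exact (((h _).mul (h _)).add ((h _).mul (h _))).add ((h _).mul (h _))

end NNG

open NNG in
theorem t_NNG : StmtNng := by
  intro s hs N
  unfold qs
  refine mul_nonneg (by positivity) ?_
  rw [Finset.sum_congr rfl fun q _ => wick_eq s q, ← Finset.mul_sum,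
    ← intervalIntegral.integral_finsetSum fun q _ => (cont_W s q).intervalIntegrable _ _]
  refine mul_nonneg (by positivity)
    (intervalIntegral.integral_nonneg (by positivity) fun θ _ => ?_)
  unfold W
  rw [Finset.sum_add_distrib, Finset.sum_add_distrib]
  refine add_nonneg (add_nonneg ?_ ?_) ?_
  · refine Finset.sum_nonneg fun q hq => ?_
    have h : pt q.2.2.1 - pt q.2.2.2 = pt q.1 - pt q.2.1 := by
      linear_combination -(pt_rel hq)
    rw [h]
    exact mul_self_nonneg _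
  · refine Finset.sum_nonneg fun q hq => ?_
    have h : pt q.2.1 - pt q.2.2.2 = pt q.1 - pt q.2.2.1 := by
      linear_combination -(pt_rel hq)
    rw [h]
    exact mul_self_nonneg _
  · exact third N fun u => dirK s (Complex.exp (θ * Complex.I) * u)

end

end PK4
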