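import Pool.Agent.PK4.St

/-!
# UPP: at most `3` in the limit if there are no plane waves

Real sequences only.
-/

set_option autoImplicit false

open Filter Topology

namespace PK4

/-- UPP: the fourth moments are at most `3` in the limit if there are no plane waves. -/
theorem t_UPP : StmtUpp := by
  intro κ e hκ hU hB η hη
  obtain ⟨t, ht0, ht1, htη⟩ : ∃ t : ℝ, 0 < t ∧ t ≤ 1 ∧ t ≤ η :=
    ⟨min 1 η, lt_min one_pos hη, min_le_left _ _, min_le_right _ _⟩
  have ht : 0 < t / 100 := by positivity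
  obtain ⟨N₁, h1⟩ := hU (t / 100) ht
  obtain ⟨N₂, h2⟩ := hB (t / 100 * (t / 100)) (mul_pos ht ht) (t / 100) ht
  filter_upwards [h1 (max N₁ N₂) (le_max_left _ _), h2 (max N₁ N₂) (le_max_right _ _)] with n a b
  have hd : t / 100 * (t / 100) / (t / 100) = t / 100 := mul_div_cancel_right₀ _ ht.ne'
  rw [hd] at b
  have hk := hκ n
  by_contra hc
  have hc' : 3 + t < κ n := by
    have := not_le.mp hc
    linarith
  nlinarith [mul_nonneg ht0.le hk, mul_nonneg (sub_nonneg.mpr ht1) hk, mul_pos ht0 (sub_pos.mpr hc'),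
    mul_nonneg (sub_nonneg.mpr ht1) (sub_nonneg.mpr hc'.le), mul_nonneg ht0.le (sub_nonneg.mpr ht1)]

end PK4
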