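import Pool.Agent.PK4.St

/-!
# L4, module WV4 (helper48): the waves at the points of the box are measurable and bounded
-/

set_option autoImplicit false

open Complex MeasureTheory Filter Topology Set
open UpperHalfPlane hiding I
open scoped ContDiff MatrixGroups ProbabilityTheory ENNReal

namespace PK4

open PWV NFP

namespace WV4

open QE QE.NC ONE

variable {Γ : Subgroup SL(2, ℝ)} {ρ : ℍ → ℝ} {D : Set ℍ} {φ : ℕ → ℍ → ℝ} {m : ℕ → ℝ}

/-- the wave at a fixed point is continuous for large `n` -/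
lemma ev_one [Countable Γ] (H : PK4.Hy Γ ρ D φ m) (x : ℂ) :
    ∀ᶠ n in atTop, Continuous (Berry.rWave ρ (φ n) (m n) x) := by
  have rc : Continuous ρ := continuous_of_smooth H.fac.smooth
  have hgeo : Berry.Geo Γ ρ D := geo_of H.meas H.fd H.fac.cpt rc H.fac.inv
  obtain ⟨R, hR⟩ := hgeo.bdd
  filter_upwards [H.eig.tendsto.eventually_gt_atTop (‖x‖ * Real.exp R),
    H.eig.tendsto.eventually_gt_atTop 0] with n hn hn0
  refine rWave_continuous (continuous_of_smooth (H.smooth n)) rc (fun z => ?_) hn0.ne'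
  rw [norm_div, Complex.norm_real, Real.norm_of_nonneg (by positivity),
    div_lt_one (mul_pos hn0 (Real.exp_pos _))]
  have h1 : Real.exp (-R) ≤ Real.exp (ρ z) := Real.exp_le_exp.2 (abs_le.1 (hR z)).1
  calc ‖x‖ = ‖x‖ * Real.exp R * Real.exp (-R) := by
        rw [mul_assoc, ← Real.exp_add, add_neg_cancel, Real.exp_zero, mul_one]
    _ < m n * Real.exp (-R) := by gcongr
    _ ≤ m n * Real.exp (ρ z) := by gcongr

end WV4

open WV4 in
theorem t_WV4 : StmtWv4 := by
  intro Γ _ ρ D φ m H N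
  have h1 : ∀ᶠ n in atTop, ∀ q ∈ box N, Continuous (Berry.rWave ρ (φ n) (m n) (pt q)) :=
    (Filter.eventually_all_finset _).2 fun q _ => ev_one H (pt q)
  filter_upwards [h1] with n hn
  obtain ⟨C₂, hC₂⟩ := Berry.bdd_of_cocompact (QE.continuous_of_smooth (H.smooth n))
    (H.eig.invariant n) H.fac.cpt
  exact ⟨fun q hq => (hn q hq).measurable, C₂, fun q _ p => hC₂ _⟩

end PK4
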