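import Pool.Agent.PK4.FIN4
import Pool.Agent.PK4.GEN
import Pool.Agent.PK4.MAS
import Pool.Agent.PK4.LMS
import Pool.Agent.PK4.EX4
import Pool.Agent.PK4.NNG
import Pool.Agent.PK4.UPP
import Pool.Agent.PK4.WV4
import Pool.Agent.PK4.LW4
import Pool.Agent.PK4.BX4

/-!
# ADD: the remaining parts of the theorem
-/

set_option autoImplicit false

open Complex MeasureTheory Filter Topology Set
open UpperHalfPlane hiding I
open scoped ContDiff MatrixGroups ProbabilityTheory ENNReal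

namespace PK4

open PWV NFP

noncomputable section

variable {Γ : Subgroup SL(2, ℝ)} {ρ : ℍ → ℝ} {D : Set ℍ} {φ : ℕ → ℍ → ℝ} {m : ℕ → ℝ}

/-- equidistributed mass and no plane waves -/
theorem three_closed [Countable Γ] (H : Hy Γ ρ D φ m) (hE : Equi φ) (hB : Box4 ρ D φ m) :
    Tendsto (fun n => Berry.rAvg ρ D fun z => φ n z ^ 4) atTop (𝓝 3) := by
  obtain ⟨l1, l2⟩ := t_LW4 t_EX4 t_NNG t_WV4 Γ ρ D φ m H
  exact FIN4.tend_three (fun η hη => GEN.low t_EX4 t_WV4 H hE hB hη)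
    (t_BX4 t_EX4 t_UPP t_WV4 Γ ρ D φ m H l2 (l1 hE) hB)

/-- the two formulas, for all sequences -/
theorem mas_closed [Countable Γ] (H : Hy Γ ρ D φ m) {s : ProbabilityTheory.Kernel ℍ S1}
    (hS : BSL.Sem ρ φ m s) {ε : ℝ} (hε : 0 < ε) : ∃ N₀ : ℕ, ∀ N ≥ N₀, ∀ᶠ n in atTop,
    |km ρ D φ n - 3 * Berry.rAvg ρ D (fun z => ((s z) univ).toReal ^ 2 - 2 * BSL.dia (s z))
      - 3 * enM ρ D φ m N n| ≤ ε * km ρ D φ n ∧
    |∫ p, (loc (fun x => Berry.rWave ρ (φ n) (m n) x p) N - 1) ^ 2 ∂(Berry.rFrameProb ρ D)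
      - (Berry.rAvg ρ D (fun z => ((s z) univ).toReal ^ 2 - 2 * BSL.dia (s z)) - 1)
      - 2 * enM ρ D φ m N n| ≤ ε * km ρ D φ n := by
  obtain ⟨N₁, b1⟩ := t_MAS t_EX4 t_WV4 Γ ρ D φ m H s hS ε hε
  obtain ⟨N₂, b2⟩ := loc_law t_EX4 t_WV4 H hS hε
  refine ⟨max N₁ N₂, fun N hN => ?_⟩
  filter_upwards [b1 N (le_trans (le_max_left _ _) hN), b2 N (le_trans (le_max_right _ _) hN)]
    with n c1 c2
  exact ⟨c1, c2⟩

/-- the four-point function of every sequence -/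
theorem law_closed [Countable Γ] (H : Hy Γ ρ D φ m) {s : ProbabilityTheory.Kernel ℍ S1}
    (hS : BSL.Sem ρ φ m s) (x : Fin 4 → ℂ) {ε : ℝ} (hε : 0 < ε) : ∀ᶠ n in atTop,
    |gm ρ D φ m n x - (Berry.rAvg ρ D (fun z => dirWick (s z) x)
      + (km ρ D φ n / 3 - Berry.rAvg ρ D (fun z => ((s z) univ).toReal ^ 2)) * resK x)|
      ≤ ε * km ρ D φ n := by
  have h := MAS.claim H hS.sem hS.fin x
  filter_upwards [(Metric.tendsto_nhds.1 h) ε hε] with n h1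
  have hk : 0 < km ρ D φ n := lt_of_lt_of_le one_pos (LW4.km_ge H n)
  rw [Real.dist_eq, sub_zero, abs_div, abs_of_pos hk, div_lt_iff₀ hk] at h1
  have e : (km ρ D φ n - 3 * Berry.rAvg ρ D (fun z => ((s z) univ).toReal ^ 2)) / 3 * resK x
      = (km ρ D φ n / 3 - Berry.rAvg ρ D (fun z => ((s z) univ).toReal ^ 2)) * resK x := by
    ring
  rw [e] at h1
  exact h1.le

/-- the converse in negative curvature -/
theorem equi_closed [Countable Γ] (H : Hy Γ ρ D φ m) (hneg : Neg ρ)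
    (hB : ∃ B : ℝ, ∀ n, km ρ D φ n ≤ B)
    (hf : ∀ ε > 0, ∃ N₀ : ℕ, ∀ N ≥ N₀, ∀ᶠ n in Filter.atTop,
      km ρ D φ n ≤ 3 + 3 * enM ρ D φ m N n + ε * km ρ D φ n) : Equi φ :=
  CNE.equi t_EX4 t_WV4 H hneg hB hf

end

end PK4
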