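import Pool.Agent.PWV.EQDH
import Pool.Agent.PWV.ZDI
import Pool.Agent.PWV.LIM
import Pool.Agent.PK4.LW4

/-!
# EXS: semiclassical measures of sequences with bounded fourth moments
-/

set_option autoImplicit false

open Complex MeasureTheory Filter Topology Set
open UpperHalfPlane hiding I
open scoped ContDiff MatrixGroups ProbabilityTheory ENNReal

namespace PK4

open QE QE.NC NFP NFP.BND PWV

noncomputable section

/-- **EXS**: a subsequence has a semiclassical measure with locally square integrable mass. -/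
theorem exists_sem {Γ : Subgroup SL(2, ℝ)} {ρ : ℍ → ℝ} {D : Set ℍ} {φ : ℕ → ℍ → ℝ} {m : ℕ → ℝ}
    [Countable Γ] (H : Hy Γ ρ D φ m) (hB : ∃ B : ℝ, ∀ n, km ρ D φ n ≤ B) :
    ∃ (j : ℕ → ℕ) (s : ProbabilityTheory.Kernel ℍ S1), StrictMono j ∧
      BSL.Sem ρ (fun n => φ (j n)) (fun n => m (j n)) s := by
  obtain ⟨B, hB⟩ := hB
  obtain ⟨i, μ, hi, hμ⟩ := exist_closed Γ ρ D φ m inferInstance H.fac H.meas H.fd H.eig H.smooth
    H.norm
  have H' := LW4.Hy_comp H hi.tendsto_atTop
  obtain ⟨N, u, s, hm1, hμ', hμe, T⟩ := exists_dat (Γ := Γ) (ρ := ρ) (D := D)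
    (φ := fun n => φ (i n)) (m := fun n => m (i n)) (μ := μ) inferInstance H'.fac H'.meas H'.fd
    H'.eig H'.smooth ⟨B, fun n => hB (i n)⟩ hμ
  refine ⟨fun n => i (n + N), s, fun a b hab => hi (by omega), T.fin, fun K hK hKU => ?_, ?_⟩
  · have h1 := T.lim.loc 0 K hK hKU
    refine h1.ae_eq ?_
    have h2 : ∀ᵐ z ∂((volume : Measure ℂ).restrict K),
        u 0 z = (((s (ofComplex z)) univ).toReal : ℂ) :=
      ae_restrict_of_ae_restrict_of_subset hKU T.ue
    exact h2
  · rw [← hμe]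
    exact hμ'

end

end PK4
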