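import Pool.Agent.BSL.QEU
import Pool.Agent.PK4.St

/-!
# PK4, module LQ4: the four-point function of the random wave over additive quadruples (helper85)
-/

set_option autoImplicit false

open Complex MeasureTheory Filter Topology Set
open UpperHalfPlane hiding I
open scoped ContDiff MatrixGroups ProbabilityTheory ENNReal

namespace PK4

open PWV NFP QE QE.NC QJ U3 CRM

namespace LQ4

noncomputable section

/-- the uniform measure has no atoms -/
lemma atom (w : S1) : uniS {w} = 0 := by
  unfold uniS
  rw [Measure.map_apply QES.cont_dirS.measurable (measurableSet_singleton w)]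
  have hv : (volume : Measure ℝ) (dirS ⁻¹' {w}) = 0 := by
    refine Set.Countable.measure_zero ?_ _
    by_cases hne : ∃ a : ℝ, dirS a = w
    · obtain ⟨a, ha⟩ := hne
      refine (Set.countable_range fun n : ℤ => a + n * (2 * Real.pi)).mono ?_
      intro θ hθ
      have h1 : dirS θ = w := hθ
      have h2 : Complex.exp (θ * Complex.I) = Complex.exp (a * Complex.I) := by
        have := congrArg (fun t : S1 => (t : ℂ)) (h1.trans ha.symm)
        exact this
      rw [Complex.exp_eq_exp_iff_exists_int] at h2
      obtain ⟨n, hn⟩ := h2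
      refine ⟨n, ?_⟩
      show a + n * (2 * Real.pi) = θ
      have h3 : (θ : ℂ) = a + n * (2 * Real.pi) := by
        have h4 : (θ : ℂ) * Complex.I = (a + n * (2 * Real.pi)) * Complex.I := by
          rw [hn]
          ring
        exact mul_right_cancel₀ Complex.I_ne_zero h4
      exact_mod_cast h3.symm
    · have : dirS ⁻¹' {w} = ∅ := by
        rw [Set.eq_empty_iff_forall_notMem]
        intro θ hθ
        exact hne ⟨θ, hθ⟩
      rw [this]
      exact Set.countable_empty
  exact ProbabilityTheory.cond_absolutelyContinuous hv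

/-- graphs are null sets -/
lemma graph (f : S1 → S1) (hf : Continuous f) :
    (uniS.prod uniS) {p : S1 × S1 | p.2 = f p.1} = 0 := by
  have hm : MeasurableSet {p : S1 × S1 | p.2 = f p.1} :=
    (isClosed_eq continuous_snd (hf.comp continuous_fst)).measurableSet
  rw [Measure.prod_apply hm]
  have e : ∀ x : S1, Prod.mk x ⁻¹' {p : S1 × S1 | p.2 = f p.1} = {f x} := by
    intro x
    ext y
    rfl
  simp only [e, atom, lintegral_zero]

lemma dg_zero : dg uniS = 0 := by
  unfold dg
  have e : {p : S1 × S1 | p.1 = p.2} = {p : S1 × S1 | p.2 = id p.1} := by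
    ext p
    exact eq_comm
  rw [e, graph id continuous_id, ENNReal.toReal_zero]

lemma anti_zero : ((uniS.prod uniS) {p : S1 × S1 | p.1 = -p.2}).toReal = 0 := by
  have e : {p : S1 × S1 | p.1 = -p.2} = {p : S1 × S1 | p.2 = -p.1} := by
    ext p
    show p.1 = -p.2 ↔ p.2 = -p.1
    constructor
    · intro h
      rw [h, neg_neg]
    · intro h
      rw [h, neg_neg]
  rw [e, graph (fun w => -w) continuous_neg, ENNReal.toReal_zero]

end

end LQ4

theorem t_LQ4 : StmtLq4 := by
  unfold StmtLq4
  have h := wkq_closed uniS (inferInstance : IsFiniteMeasure uniS)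
    (LQ4.anti_zero.trans LQ4.dg_zero.symm)
  rw [LQ4.dg_zero, mul_zero] at h
  have e : QE.wick = dirWick uniS := by
    funext x
    rw [BSL.QEU.dirWick_uniS]
    rfl
  rw [e]
  exact h

end PK4
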