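import Pool.Agent.CRM.StQ
import Pool.Agent.PK4.St2
import Pool.Agent.PK4.LQ4

/-!
# PK4, module LB4: the four-point function of the random wave over pairs of points
-/

set_option autoImplicit false

open Complex MeasureTheory Filter Topology Set
open UpperHalfPlane hiding I
open scoped ContDiff MatrixGroups ProbabilityTheory ENNReal

namespace PK4

open PWV NFP QE QE.NC QJ U3 CRM

theorem t_LB4 : StmtLb4 := by
  unfold StmtLb4
  have h := wkl_closed uniS (inferInstance : IsFiniteMeasure uniS)
    (LQ4.anti_zero.trans LQ4.dg_zero.symm)
  rw [LQ4.dg_zero, mul_zero, add_zero, measure_univ, ENNReal.toReal_one, one_pow] at h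
  have e : QE.wick = dirWick uniS := by
    funext x
    rw [BSL.QEU.dirWick_uniS]
    rfl
  rw [e]
  exact h

end PK4
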