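import Pool.Agent.PK4.St3
import Pool.Agent.PWV.WKQ
import Pool.Agent.PWV.CHR

/-!
# L4, module MNP (helper48): the energy of a Gaussian wave is almost decreasing in the side of the box
-/

set_option autoImplicit false

open Complex MeasureTheory Filter Topology Set
open UpperHalfPlane hiding I
open scoped ContDiff MatrixGroups ProbabilityTheory ENNReal

namespace PK4

open PWV NFP

noncomputable section

namespace MNP

open PWV.WKQ

/-- the normalised number of the quadruples -/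
lemma T000 {N : ℕ} (hN : 0 < N) : T N 0 0 0 = ((2 + 1 / (N : ℝ) ^ 2) / 3) ^ 2 := by
  have hN' : (0 : ℝ) < N := by exact_mod_cast hN
  rw [T_zero, PWV.CHR.card_quads]
  field_simp

lemma T000_anti {M N : ℕ} (hM : 0 < M) (hMN : M ≤ N) : T N 0 0 0 ≤ T M 0 0 0 := by
  have hN : 0 < N := lt_of_lt_of_le hM hMN
  have hM' : (0 : ℝ) < M := by exact_mod_cast hM
  have hMN' : (M : ℝ) ≤ N := by exact_mod_cast hMN
  rw [T000 hM, T000 hN]
  have h1 : 1 / (N : ℝ) ^ 2 ≤ 1 / (M : ℝ) ^ 2 :=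
    one_div_le_one_div_of_le (by positivity) (pow_le_pow_left₀ hM'.le hMN' 2)
  have h2 : (0 : ℝ) ≤ 1 / (N : ℝ) ^ 2 := by positivity
  exact pow_le_pow_left₀ (by linarith) (by linarith) 2

lemma ip_le (x a : ℂ) : |ip x a| ≤ ‖x‖ * ‖a‖ := by
  unfold ip
  refine (Complex.abs_re_le_norm _).trans ?_
  rw [norm_mul, Complex.norm_conj]

lemma norm_pt {N : ℕ} {q : ℕ × ℕ} (hq : q ∈ box N) (q' : ℕ × ℕ) (hq' : q' ∈ box N) :
    ‖pt q - pt q'‖ ≤ 2 * N := by
  unfold box at hq hq'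
  rw [Finset.mem_product, Finset.mem_range, Finset.mem_range] at hq hq'
  have h1 : ((q.1 : ℕ) : ℝ) ≤ N := by exact_mod_cast hq.1.le
  have h2 : ((q.2 : ℕ) : ℝ) ≤ N := by exact_mod_cast hq.2.le
  have h3 : ((q'.1 : ℕ) : ℝ) ≤ N := by exact_mod_cast hq'.1.le
  have h4 : ((q'.2 : ℕ) : ℝ) ≤ N := by exact_mod_cast hq'.2.le
  have g1 : (0 : ℝ) ≤ ((q.1 : ℕ) : ℝ) := Nat.cast_nonneg _
  have g2 : (0 : ℝ) ≤ ((q.2 : ℕ) : ℝ) := Nat.cast_nonneg _
  have g3 : (0 : ℝ) ≤ ((q'.1 : ℕ) : ℝ) := Nat.cast_nonneg _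
  have g4 : (0 : ℝ) ≤ ((q'.2 : ℕ) : ℝ) := Nat.cast_nonneg _
  have e1 : (pt q - pt q').re = q.1 - q'.1 := by simp [pt]
  have e2 : (pt q - pt q').im = q.2 - q'.2 := by simp [pt]
  refine (Complex.norm_le_abs_re_add_abs_im _).trans ?_
  rw [e1, e2]
  have k1 : |((q.1 : ℕ) : ℝ) - (q'.1 : ℕ)| ≤ N := abs_le.2 ⟨by linarith, by linarith⟩
  have k2 : |((q.2 : ℕ) : ℝ) - (q'.2 : ℕ)| ≤ N := abs_le.2 ⟨by linarith, by linarith⟩
  linarith

/-- small frequencies -/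
lemma small {M : ℕ} {a : ℂ} {η : ℝ} (h : (M : ℝ) * ‖a‖ ≤ η) :
    (1 - 2 * η ^ 2) * T M 0 0 0 ≤ T M a (-a) 0 := by
  have h0 : 0 ≤ (M : ℝ) * ‖a‖ := by positivity
  rw [T_zero]
  unfold T
  rw [mul_left_comm]
  refine mul_le_mul_of_nonneg_left ?_ (by positivity)
  have e : (1 - 2 * η ^ 2) * ((quads M).card : ℝ) = ∑ _q ∈ quads M, (1 - 2 * η ^ 2) := by
    rw [Finset.sum_const, nsmul_eq_mul, mul_comm]
  rw [e]
  refine Finset.sum_le_sum fun q hq => ?_
  unfold quads at hq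
  rw [Finset.mem_filter, Finset.mem_product, Finset.mem_product] at hq
  have h1 : ip (pt q.1) a + ip (pt q.2.1) (-a) + ip (pt q.2.2.1) 0 = ip (pt q.1 - pt q.2.1) a := by
    rw [ip_neg_right, ip_zero_right, ip_sub]
    ring
  rw [h1]
  have h2 := ip_le (pt q.1 - pt q.2.1) a
  have h3 := norm_pt hq.1.1 _ hq.1.2.1
  have h4 : |ip (pt q.1 - pt q.2.1) a| ≤ 2 * η := by
    refine h2.trans ((mul_le_mul_of_nonneg_right h3 (norm_nonneg _)).trans ?_)
    linarith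
  have h5 := Real.one_sub_sq_div_two_le_cos (x := ip (pt q.1 - pt q.2.1) a)
  have h6 : (ip (pt q.1 - pt q.2.1) a) ^ 2 ≤ (2 * η) ^ 2 := by
    rw [← sq_abs]
    exact pow_le_pow_left₀ (abs_nonneg _) h4 2
  linarith

/-- the sums of the first kind -/
lemma partA (hT : StmtTbd) (hP : StmtPos4) {δ : ℝ} (h0 : 0 < δ) (h1 : δ ≤ 1) {M N : ℕ}
    (hM : 0 < M) (hMN : 32 / δ ^ 2 * M ≤ N) (hMN' : M ≤ N) (a : ℂ) (ha : ‖a‖ ≤ 2) :
    T N a (-a) 0 ≤ (1 + δ) * T M a (-a) 0 + δ := by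
  have hN : 0 < N := lt_of_lt_of_le hM hMN'
  have hM' : (0 : ℝ) < M := by exact_mod_cast hM
  have hN' : (0 : ℝ) < N := by exact_mod_cast hN
  by_cases hs : (M : ℝ) * ‖a‖ ≤ δ / 4
  · have k1 := small hs
    have k2 : T N a (-a) 0 ≤ T N 0 0 0 := by
      rw [T_zero]
      exact (le_abs_self _).trans (T_le N _ _ _)
    have k3 := T000_anti hM hMN'
    have k4 : 0 ≤ T M 0 0 0 := by
      rw [T_zero]
      positivity
    have k5 : 1 ≤ (1 + δ) * (1 - 2 * (δ / 4) ^ 2) := by nlinarith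
    have k6 : T M 0 0 0 ≤ (1 + δ) * ((1 - 2 * (δ / 4) ^ 2) * T M 0 0 0) := by
      rw [← mul_assoc]
      exact le_mul_of_one_le_left k4 k5
    have k7 : (1 + δ) * ((1 - 2 * (δ / 4) ^ 2) * T M 0 0 0) ≤ (1 + δ) * T M a (-a) 0 :=
      mul_le_mul_of_nonneg_left k1 (by linarith)
    linarith
  · push Not at hs
    have ha0 : a ≠ 0 := by
      rintro rfl
      rw [norm_zero, mul_zero] at hs
      linarith
    have hna : 0 < ‖a‖ := norm_pos_iff.2 ha0
    have k1 := (le_abs_self _).trans (hT N a (-a) 0 hN ha0 ha)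
    have k2 : 8 / ((N : ℝ) * ‖a‖) ≤ δ := by
      rw [div_le_iff₀ (by positivity)]
      have k3 : 32 / δ ^ 2 * M * ‖a‖ ≤ N * ‖a‖ := mul_le_mul_of_nonneg_right hMN hna.le
      have k4 : 32 / δ ^ 2 * (δ / 4) ≤ 32 / δ ^ 2 * (M * ‖a‖) :=
        mul_le_mul_of_nonneg_left hs.le (by positivity)
      have k5 : δ * (32 / δ ^ 2 * (δ / 4)) = 8 := by
        field_simp
        norm_num
      have k6 : δ * (32 / δ ^ 2 * (δ / 4)) ≤ δ * (N * ‖a‖) :=
        mul_le_mul_of_nonneg_left (by linarith [mul_assoc (32 / δ ^ 2) (M : ℝ) ‖a‖]) h0.le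
      linarith
    have k3 : 0 ≤ (1 + δ) * T M a (-a) 0 := mul_nonneg (by linarith) (hP M a).1
    linarith

/-- the integrand -/
lemma partB (hT : StmtTbd) (hP : StmtPos4) {δ : ℝ} (h0 : 0 < δ) (h1 : δ ≤ 1) {M N : ℕ}
    (hM : 0 < M) (hMN : 32 / δ ^ 2 * M ≤ N) (hMN' : M ≤ N) (hM12 : 12 / δ ≤ M)
    (z : ℝ × S1 × S1) : Ph N z ≤ (1 + δ) * Ph M z + 3 * δ := by
  have hN : 0 < N := lt_of_lt_of_le hM hMN'
  have hM' : (0 : ℝ) < M := by exact_mod_cast hM
  have hN' : (0 : ℝ) < N := by exact_mod_cast hN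
  have hMN'' : (M : ℝ) ≤ N := by exact_mod_cast hMN'
  have na := norm_ro z.1 z.2.1
  have nb := norm_ro z.1 z.2.2
  unfold Ph
  obtain ⟨a, ha⟩ : ∃ a, a = ro z.1 z.2.1 := ⟨_, rfl⟩
  obtain ⟨b, hb⟩ : ∃ b, b = ro z.1 z.2.2 := ⟨_, rfl⟩
  rw [← ha, ← hb]
  rw [← ha] at na
  rw [← hb] at nb
  have n1 : ‖a - b‖ ≤ 2 := by
    have := norm_sub_le a b
    linarith
  have n2 : ‖a + b‖ ≤ 2 := by
    have := norm_add_le a b
    linarith
  have n3 : ‖2 * a‖ = 2 := by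
    rw [norm_mul, na]
    norm_num
  have n4 : 2 * a ≠ 0 := by
    intro h
    rw [h, norm_zero] at n3
    norm_num at n3
  have t1 := partA hT hP h0 h1 hM hMN hMN' (a - b) n1
  have t2 := partA hT hP h0 h1 hM hMN hMN' (a + b) n2
  have u5 : ∀ (K : ℕ), 0 < K → ∀ b' c', |T K (2 * a) b' c'| ≤ 4 / (K : ℝ) := by
    intro K hK b' c'
    have hK' : (0 : ℝ) < K := by exact_mod_cast hK
    have h := hT K (2 * a) b' c' hK n4 n3.le
    rw [n3] at h
    have e : 8 / ((K : ℝ) * 2) = 4 / K := by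
      field_simp
      norm_num
    rwa [e] at h
  rw [(hP N (a - b)).2, (hP N (a + b)).2, (hP M (a - b)).2, (hP M (a + b)).2]
  have v1 := (le_abs_self _).trans (u5 N hN (-a - b) (-a + b))
  have v2 := (le_abs_self _).trans (u5 N hN (-a + b) (-a - b))
  have v3 := (neg_abs_le _).trans' (neg_le_neg (u5 M hM (-a - b) (-a + b)))
  have v4 := (neg_abs_le _).trans' (neg_le_neg (u5 M hM (-a + b) (-a - b)))
  have w1 : 4 / (N : ℝ) ≤ 4 / M := div_le_div_of_nonneg_left (by norm_num) hM' hMN''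
  have w2 : 4 / (M : ℝ) ≤ δ / 3 := by
    rw [div_le_iff₀ h0] at hM12
    rw [div_le_div_iff₀ hM' (by norm_num)]
    linarith
  have w3 : (1 + δ) * (4 / (M : ℝ)) ≤ 2 * (4 / (M : ℝ)) :=
    mul_le_mul_of_nonneg_right (by linarith) (by positivity)
  have w4 : (1 + δ) * (-(4 / (M : ℝ))) ≤ (1 + δ) * (1 / 2 * (T M (2 * a) (-a - b) (-a + b) +
      T M (2 * a) (-a + b) (-a - b))) :=
    mul_le_mul_of_nonneg_left (by linarith) (by linarith)
  linarith

/-- the total mass -/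
lemma mass (s : Measure S1) [IsFiniteMeasure s] :
    (nu s).real univ = 2 * Real.pi * (s univ).toReal ^ 2 := by
  have hpi : (0 : ℝ) ≤ 2 * Real.pi := by have := Real.pi_pos; positivity
  have e : (nu s) univ = ENNReal.ofReal (2 * Real.pi) * (s univ * s univ) := by
    unfold nu
    rw [← univ_prod_univ, Measure.prod_prod, ← univ_prod_univ, Measure.prod_prod,
      Measure.restrict_apply_univ, Real.volume_Ioc, sub_zero]
  rw [Measure.real, e, ENNReal.toReal_mul, ENNReal.toReal_mul, ENNReal.toReal_ofReal hpi]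
  ring

lemma int_Ph (s : Measure S1) [IsFiniteMeasure s] (N : ℕ) : Integrable (Ph N) (nu s) := by
  refine Integrable.of_bound (C := 3 * (1 / (N : ℝ) ^ 6 * ((quads N).card : ℝ)))
    (cont_Ph N).aestronglyMeasurable (Eventually.of_forall fun z => ?_)
  rw [← sumH, norm_mul, Real.norm_of_nonneg (by positivity : (0 : ℝ) ≤ 1 / (N : ℝ) ^ 6),
    mul_left_comm]
  refine mul_le_mul_of_nonneg_left ?_ (by positivity)
  refine (norm_sum_le _ _).trans ((Finset.sum_le_sum fun q _ => H_le _ z).trans ?_)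
  rw [Finset.sum_const, nsmul_eq_mul, mul_comm]

end MNP

open MNP PWV.WKQ in
theorem t_MNP : StmtMnp := by
  intro hT hP hNN δ hδ
  obtain ⟨d, hd⟩ : ∃ d, d = min δ 1 / 3 := ⟨_, rfl⟩
  have hd0 : 0 < d := by
    rw [hd]
    have : 0 < min δ 1 := lt_min hδ one_pos
    linarith
  have hd1 : d ≤ 1 := by
    rw [hd]
    have : min δ 1 ≤ 1 := min_le_right _ _
    linarith
  have hd2 : 3 * d ≤ δ := by
    rw [hd]
    have : min δ 1 ≤ δ := min_le_left _ _
    linarith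
  obtain ⟨M₀, hM₀⟩ := exists_nat_ge (12 / d)
  obtain ⟨L, hL⟩ := exists_nat_ge (32 / d ^ 2)
  refine ⟨M₀ + 1, L + 1, Nat.succ_pos _, Nat.succ_pos _, fun M hM N hN s hs => ?_⟩
  have hM1 : 0 < M := lt_of_lt_of_le (Nat.succ_pos _) hM
  have hMN' : M ≤ N := le_trans (Nat.le_mul_of_pos_left M (Nat.succ_pos L)) hN
  have hM12 : 12 / d ≤ M := by
    have : ((M₀ + 1 : ℕ) : ℝ) ≤ M := by exact_mod_cast hM
    push_cast at this
    linarith
  have hMN : 32 / d ^ 2 * M ≤ N := by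
    have h1 : (((L + 1) * M : ℕ) : ℝ) ≤ N := by exact_mod_cast hN
    push_cast at h1
    have h2 : 32 / d ^ 2 * M ≤ ((L : ℝ) + 1) * M :=
      mul_le_mul_of_nonneg_right (by linarith) (Nat.cast_nonneg _)
    linarith
  have hpi : 0 < 2 * Real.pi := by have := Real.pi_pos; positivity
  have key : ∫ z, Ph N z ∂(nu s) ≤ (1 + d) * ∫ z, Ph M z ∂(nu s) +
      3 * d * (2 * Real.pi * (s univ).toReal ^ 2) := by
    have h1 : ∫ z, Ph N z ∂(nu s) ≤ ∫ z, ((1 + d) * Ph M z + 3 * d) ∂(nu s) :=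
      integral_mono (int_Ph s N) (((int_Ph s M).const_mul _).add (integrable_const _))
        fun z => partB hT hP hd0 hd1 hM1 hMN hMN' hM12 z
    rw [integral_add ((int_Ph s M).const_mul _) (integrable_const _), integral_const_mul,
      integral_const, mass, smul_eq_mul, mul_comm (2 * Real.pi * (s univ).toReal ^ 2)] at h1
    exact h1
  have hq : qs N (dirWick s) ≤ (1 + d) * qs M (dirWick s) + 3 * d * (s univ).toReal ^ 2 := by
    rw [qs_eq, qs_eq]
    have h2 := mul_le_mul_of_nonneg_left key (by positivity : (0 : ℝ) ≤ 1 / (2 * Real.pi))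
    refine h2.trans (le_of_eq ?_)
    field_simp
  have hqM := hNN s hs M
  have e1 : (1 + d) * qs M (dirWick s) ≤ (1 + δ) * qs M (dirWick s) :=
    mul_le_mul_of_nonneg_right (by linarith) hqM
  have e2 : 3 * d * (s univ).toReal ^ 2 ≤ δ * (s univ).toReal ^ 2 :=
    mul_le_mul_of_nonneg_right hd2 (by positivity)
  linarith

end

end PK4
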