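import Pool.Agent.PWV.FIN
import Pool.Agent.PWV.EQDH
import Pool.Agent.PWV.ZDI
import Pool.Agent.PWV.LIM
import Pool.Agent.PK4.St2
import Pool.Agent.PK4.LW4

/-!
# NCM: negative curvature, fourth moments tending to three
-/

set_option autoImplicit false

open Complex MeasureTheory Filter Topology Set
open UpperHalfPlane hiding I
open scoped ContDiff MatrixGroups ProbabilityTheory ENNReal

namespace PK4

open QE QE.NC NFP NFP.BND PWV BSL

noncomputable section

namespace NCM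

variable {Γ : Subgroup SL(2, ℝ)} {ρ : ℍ → ℝ} {D : Set ℍ} {φ : ℕ → ℍ → ℝ} {m : ℕ → ℝ}
  {s : ProbabilityTheory.Kernel ℍ S1}

/-- the energy of the directional measures vanishes -/
lemma energy [Countable Γ] (S : Sur Γ D ρ φ m) (hneg : Neg ρ) (hS : Sem ρ φ m s) :
    Tendsto (fun N => qs N (fun x => Berry.rAvg ρ D (fun z => dirWick (s z) x))) atTop (𝓝 0) := by
  have hg : Berry.Geo Γ ρ D :=
    geo_of S.mD S.fd S.fac.cpt (continuous_of_smooth S.fac.smooth) S.fac.inv
  have hP := ONE.prob_nu hg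
  obtain ⟨ζ, hζ⟩ := t_CUT Γ D ρ S.mD S.fd S.fac
  obtain ⟨sq, one, -, dw⟩ := msd_closed Γ D ρ φ m s S hS ζ hζ
  have js2 := ONE.int_nu hg sq
  have jw : ∀ x : Fin 4 → ℂ, Integrable (fun z => dirWick (s z) x)
      (ProbabilityTheory.cond (Berry.area ρ) D) := fun x => ONE.int_nu hg (dw x).1
  have hdia := t_ZDI Γ D ρ φ m s S hS (noa_closed Γ D ρ φ m s S hneg hS UH subset_rfl)
  have hfin := hS.fin
  have hfam := lfr_closed Γ ρ φ m s S.fac S.loc hS (fun n => S.eig.invariant n)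
  have hae : ∀ᵐ z ∂(ProbabilityTheory.cond (Berry.area ρ) D),
      (((s z).prod (s z)) {p : S1 × S1 | p.1 = -p.2}).toReal = dg (s z) := by
    filter_upwards [HUL.ae_cond (ρ := ρ) (D := D) (HUL.odd_zero hfam)] with z hz
    exact (t_WIE (s z) (hfin z)).2 hz
  unfold Berry.rAvg at hdia ⊢
  set ν := ProbabilityTheory.cond (Berry.area ρ) D with hν
  have e : ∀ N, qs N (fun x => ∫ z, dirWick (s z) x ∂ν) = ∫ z, qs N (dirWick (s z)) ∂ν := by
    intro N
    unfold qs
    rw [integral_const_mul, integral_finsetSum _ fun q _ => jw _]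
  have l1 : Tendsto (fun N => ∫ z, qs N (dirWick (s z)) ∂ν) atTop
      (𝓝 (∫ z, 8 / 9 * dia (s z) ∂ν)) := by
    refine tendsto_integral_of_dominated_convergence
      (fun z => 3 * ((s z) univ).toReal ^ 2) (fun N => ?_) (js2.const_mul 3) (fun N => ?_) ?_
    · have h5 : Integrable (fun z => qs N (dirWick (s z))) ν := by
        unfold qs
        exact (integrable_finsetSum _ fun q _ => jw _).const_mul _
      exact h5.aestronglyMeasurable
    · refine Eventually.of_forall fun z => ?_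
      rw [Real.norm_eq_abs]
      exact LIM.abs_qs (by positivity) (t_WKB (s z) (hfin z))
    · filter_upwards [hae] with z hz
      exact wkq_closed (s z) (hfin z) hz
  rw [integral_const_mul, hdia, mul_zero] at l1
  exact l1.congr fun N => (e N).symm

/-- bounded fourth moments -/
lemma exists_neg [Countable Γ] (H : Hy Γ ρ D φ m) (hneg : Neg ρ)
    (hB : ∃ B : ℝ, ∀ n, km ρ D φ n ≤ B) :
    ∃ (j : ℕ → ℕ) (s : ProbabilityTheory.Kernel ℍ S1), StrictMono j ∧
      (∀ z, IsFiniteMeasure (s z)) ∧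
      Integrable (fun z => ((s z) univ).toReal ^ 2) (ProbabilityTheory.cond (Berry.area ρ) D) ∧
      (∀ x, Integrable (fun z => dirWick (s z) x) (ProbabilityTheory.cond (Berry.area ρ) D)) ∧
      Berry.rAvg ρ D (fun z => ((s z) univ).toReal) = 1 ∧
      Tendsto (fun N => qs N (fun x => Berry.rAvg ρ D (fun z => dirWick (s z) x))) atTop (𝓝 0) ∧
      ((∀ᵐ z ∂((volume : Measure ℍ).restrict D), ((s z) univ).toReal = 1) ↔
        Equi (fun n => φ (j n))) ∧
      ∀ x, Tendsto (fun n => gm ρ D φ m (j n) x - (Berry.rAvg ρ D (fun z => dirWick (s z) x)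
        + (km ρ D φ (j n) - 3 * Berry.rAvg ρ D (fun z => (s z univ).toReal ^ 2)) / 3 * resK x))
        atTop (𝓝 0) := by
  obtain ⟨B, hB⟩ := hB
  obtain ⟨i, μ, hi, hμ⟩ := exist_closed Γ ρ D φ m inferInstance H.fac H.meas H.fd H.eig H.smooth
    H.norm
  have H' := LW4.Hy_comp H hi.tendsto_atTop
  obtain ⟨N₁, S₁⟩ := FLA.exists_sur (Γ := Γ) (ρ := ρ) (D := D) (φ := fun n => φ (i n))
    (m := fun n => m (i n)) H'.fac.smooth H'.fac.inv H'.meas H'.fd H'.fac.cpt H'.eig H'.smooth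
    H'.norm
  have hμ₁ := FLA.sem_comp hμ (tendsto_add_atTop_nat N₁)
  have H₁ := LW4.Hy_comp H' (tendsto_add_atTop_nat N₁)
  obtain ⟨N, u, s, hm1, hμ', hμe, T⟩ := exists_dat (Γ := Γ) (ρ := ρ) (D := D)
    (φ := fun n => φ (i (n + N₁))) (m := fun n => m (i (n + N₁))) (μ := μ) inferInstance H₁.fac
    H₁.meas H₁.fd H₁.eig H₁.smooth ⟨B, fun n => hB (i (n + N₁))⟩ hμ₁
  have hS : Sem ρ (fun n => φ (i (n + N₁))) (fun n => m (i (n + N₁))) s := by
    refine ⟨T.fin, fun K hK hKU => ?_, by rw [← hμe]; exact hμ₁⟩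
    have h1 := T.lim.loc 0 K hK hKU
    refine h1.ae_eq ?_
    have h2 : ∀ᵐ z ∂((volume : Measure ℂ).restrict K),
        u 0 z = (((s (ofComplex z)) univ).toReal : ℂ) :=
      ae_restrict_of_ae_restrict_of_subset hKU T.ue
    exact h2
  have hg : Berry.Geo Γ ρ D :=
    geo_of H.meas H.fd H.fac.cpt (continuous_of_smooth H.fac.smooth) H.fac.inv
  obtain ⟨ζ, hζ⟩ := t_CUT Γ D ρ S₁.mD S₁.fd S₁.fac
  obtain ⟨sq, one, -, dw⟩ := msd_closed Γ D ρ _ _ s S₁ hS ζ hζ
  have hE := t_EQDH Γ D ρ _ _ s S₁ hS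
  refine ⟨fun n => i (n + N + N₁), s, fun a b hab => hi (by omega), T.fin,
    ONE.int_nu hg sq, fun x => ONE.int_nu hg (dw x).1, one, energy S₁ hneg hS, ?_, fun x => ?_⟩
  · rw [hE]
    constructor
    · intro h ζ a b c
      exact (h ζ a b c).comp (tendsto_add_atTop_nat N)
    · intro h ζ a b c
      have h1 := h ζ a b c
      exact (tendsto_add_atTop_iff_nat N).1 h1
  · have h1 := T.main fourVar_closed glob (fun _ => 1) continuous_const (fun _ _ _ => rfl) x
    simp only [one_mul] at h1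
    exact h1

/-- the two cases, in negative curvature -/
lemma cases [Countable Γ] (H : Hy Γ ρ D φ m) (hneg : Neg ρ) {ns : ℕ → ℕ}
    (hns : Tendsto ns atTop atTop) : ∃ t : ℕ → ℕ, Tendsto t atTop atTop ∧
      ((Tendsto (fun i => km ρ D φ (ns (t i))) atTop atTop ∧
          ∀ x, Tendsto (fun i => (gm ρ D φ m (ns (t i)) x - km ρ D φ (ns (t i)) / 3 * resK x)
            / km ρ D φ (ns (t i))) atTop (𝓝 0)) ∨
        ∃ s : ProbabilityTheory.Kernel ℍ S1, (∀ z, IsFiniteMeasure (s z)) ∧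
          Integrable (fun z => ((s z) univ).toReal ^ 2)
            (ProbabilityTheory.cond (Berry.area ρ) D) ∧
          (∀ x, Integrable (fun z => dirWick (s z) x)
            (ProbabilityTheory.cond (Berry.area ρ) D)) ∧
          Berry.rAvg ρ D (fun z => ((s z) univ).toReal) = 1 ∧
          Tendsto (fun N => qs N (fun x => Berry.rAvg ρ D (fun z => dirWick (s z) x))) atTop
            (𝓝 0) ∧
          ((∀ᵐ z ∂((volume : Measure ℍ).restrict D), ((s z) univ).toReal = 1) ↔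
            Equi (fun n => φ (ns (t n)))) ∧
          ∀ x, Tendsto (fun i => gm ρ D φ m (ns (t i)) x
            - (Berry.rAvg ρ D (fun z => dirWick (s z) x)
              + (km ρ D φ (ns (t i)) - 3 * Berry.rAvg ρ D (fun z => (s z univ).toReal ^ 2)) / 3
                * resK x)) atTop (𝓝 0)) := by
  by_cases hbd : ∃ B : ℝ, ∃ᶠ i in atTop, km ρ D φ (ns i) ≤ B
  · obtain ⟨B, hB⟩ := hbd
    obtain ⟨t, ht, htB⟩ := extraction_of_frequently_atTop hB
    have hst : Tendsto (fun i => ns (t i)) atTop atTop := hns.comp ht.tendsto_atTop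
    obtain ⟨j, s, hj, a1⟩ := exists_neg (LW4.Hy_comp H hst) hneg ⟨B, fun n => htB n⟩
    exact ⟨fun i => t (j i), ht.tendsto_atTop.comp hj.tendsto_atTop, Or.inr ⟨s, a1⟩⟩
  · have hinf : Tendsto (fun i => km ρ D φ (ns i)) atTop atTop := by
      rw [tendsto_atTop]
      intro B
      have h1 : ¬ ∃ᶠ i in atTop, km ρ D φ (ns i) ≤ B := fun h => hbd ⟨B, h⟩
      rw [not_frequently] at h1
      filter_upwards [h1] with i hi
      exact (not_le.1 hi).le
    have H' := LW4.Hy_comp H hns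
    refine ⟨id, tendsto_id, Or.inl ⟨hinf, fun x => ?_⟩⟩
    have h1 := infty_closed Γ ρ D (fun i => φ (ns i)) (fun i => m (ns i)) inferInstance H'.fac
      H'.meas H'.fd H'.eig H'.smooth H'.norm hinf (fun _ => 1) continuous_const
      (fun _ _ _ => rfl) x
    simp only [one_mul] at h1
    exact h1

/-- the mass is one if the fourth moments tend to three -/
lemma key (h1 : StmtEx4) (h3 : StmtWv4) [Countable Γ] (H : Hy Γ ρ D φ m) (hneg : Neg ρ)
    (h4 : Tendsto (km ρ D φ) atTop (𝓝 3)) {ns : ℕ → ℕ} (hns : Tendsto ns atTop atTop) :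
    ∃ l : ℕ → ℕ, Tendsto l atTop atTop ∧ Equi (fun i => φ (ns (l i))) ∧
      ∀ ε > 0, ∃ M : ℕ, 0 < M ∧ ∀ᶠ i in atTop, enM ρ D φ m M (ns (l i)) ≤ ε := by
  obtain ⟨B, hB⟩ := h4.bddAbove_range
  obtain ⟨j, s, hj, hfin, js2, -, hone, hW, hEq, hx⟩ := exists_neg (LW4.Hy_comp H hns) hneg
    ⟨B, fun n => hB ⟨ns n, rfl⟩⟩
  have hg : Berry.Geo Γ ρ D :=
    geo_of H.meas H.fd H.fac.cpt (continuous_of_smooth H.fac.smooth) H.fac.inv
  have hP := ONE.prob_nu hg
  have hst : Tendsto (fun n => ns (j n)) atTop atTop := hns.comp hj.tendsto_atTop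
  set S2 := Berry.rAvg ρ D (fun z => (s z univ).toReal ^ 2) with hS2
  have hk : Tendsto (fun n => km ρ D φ (ns (j n))) atTop (𝓝 3) := h4.comp hst
  -- the four-point functions converge
  have hx' : ∀ x, Tendsto (fun n => gm ρ D φ m (ns (j n)) x) atTop
      (𝓝 (Berry.rAvg ρ D (fun z => dirWick (s z) x) + (3 - 3 * S2) / 3 * resK x)) := by
    intro x
    have a1 := (((hk.sub_const (3 * S2)).div_const 3).mul_const (resK x)).const_add
      (Berry.rAvg ρ D (fun z => dirWick (s z) x))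
    have a2 := (hx x).add a1
    rw [zero_add] at a2
    refine a2.congr fun n => ?_
    show gm ρ D φ m (ns (j n)) x - (Berry.rAvg ρ D (fun z => dirWick (s z) x)
        + (km ρ D φ (ns (j n)) - 3 * S2) / 3 * resK x)
      + (Berry.rAvg ρ D (fun z => dirWick (s z) x)
        + (km ρ D φ (ns (j n)) - 3 * S2) / 3 * resK x) = gm ρ D φ m (ns (j n)) x
    ring
  -- the energies converge
  have hen : ∀ M : ℕ, Tendsto (fun n => enM ρ D φ m M (ns (j n))) atTop
      (𝓝 (9 / 4 * (qs M (fun x => Berry.rAvg ρ D (fun z => dirWick (s z) x))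
        + (1 - S2) * qs M resK))) := by
    intro M
    have a1 := (LW4.qs_lim M hx').const_mul (9 / 4 : ℝ)
    have a2 : qs M (fun x => Berry.rAvg ρ D (fun z => dirWick (s z) x)
        + (3 - 3 * S2) / 3 * resK x)
        = qs M (fun x => Berry.rAvg ρ D (fun z => dirWick (s z) x)) + (1 - S2) * qs M resK := by
      have := LW4.qs_lin M (fun x => Berry.rAvg ρ D (fun z => dirWick (s z) x)) resK
        (fun _ => 0) 1 ((3 - 3 * S2) / 3) 0
      have e1 : (fun x => Berry.rAvg ρ D (fun z => dirWick (s z) x)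
          + (3 - 3 * S2) / 3 * resK x)
          = fun x => 1 * (fun x => Berry.rAvg ρ D (fun z => dirWick (s z) x)) x
            + (3 - 3 * S2) / 3 * resK x + 0 * (fun _ : Fin 4 → ℂ => (0 : ℝ)) x := by
        funext x
        ring
      rw [e1, this]
      ring
    rw [a2] at a1
    refine a1.congr' ?_
    filter_upwards [hst.eventually (LW4.enM_eq h1 h3 H M)] with n hn
    exact hn.symm
  have hnn : ∀ M : ℕ, 0 ≤ 9 / 4 * (qs M (fun x => Berry.rAvg ρ D (fun z => dirWick (s z) x))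
      + (1 - S2) * qs M resK) := by
    intro M
    refine ge_of_tendsto (hen M) ?_
    have hPf := Berry.rFrameProb_isProb hg
    filter_upwards [hst.eventually (h3 Γ ρ D φ m H M)] with n hn
    obtain ⟨a1, C, a2⟩ := hn
    exact (h1 (ℍ × ℝ) (Berry.rFrameProb ρ D)
      (fun x => Berry.rWave ρ (φ (ns (j n))) (m (ns (j n))) x) C M a1 a2).1
  have hlim : Tendsto (fun M : ℕ => 9 / 4 * (qs M (fun x => Berry.rAvg ρ D
      (fun z => dirWick (s z) x)) + (1 - S2) * qs M resK)) atTop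
      (𝓝 (9 / 4 * (0 + (1 - S2) * (4 / 9)))) :=
    (hW.add (rkq_closed.1.const_mul (1 - S2))).const_mul _
  have hle : S2 ≤ 1 := by
    have := ge_of_tendsto' hlim hnn
    linarith
  have j1 : Integrable (fun z => ((s z) univ).toReal) (ProbabilityTheory.cond (Berry.area ρ) D) :=
    ONE.int_mass js2
  have hge : 1 ≤ S2 := FIN.one_le j1 js2 hone
  have hS1 : S2 = 1 := le_antisymm hle hge
  have hmass := ONE.ae_nu hg (FIN.ae_one j1 js2 hone hS1)
  refine ⟨j, hj.tendsto_atTop, hEq.1 hmass, fun ε hε => ?_⟩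
  rw [hS1] at hlim
  have hz : (9 / 4 : ℝ) * (0 + (1 - 1) * (4 / 9)) = 0 := by norm_num
  rw [hz] at hlim
  obtain ⟨M, b1, b2⟩ := ((hlim.eventually_lt_const hε).and (eventually_gt_atTop 0)).exists
  refine ⟨M, b2, ?_⟩
  have b3 := hen M
  rw [hS1] at b3
  filter_upwards [b3.eventually_lt_const b1] with i hi
  exact hi.le

end NCM

/-- **NCM**: negative curvature, `κₙ → 3`. -/
theorem t_NCM : StmtNcm := by
  intro h1 h3 Γ _ ρ D φ m H hneg h4
  refine ⟨fun ζ a b c => ?_, fun ns hns => ?_⟩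
  · refine tendsto_of_subseq_tendsto fun ns hns => ?_
    obtain ⟨l, hl, hE, -⟩ := NCM.key h1 h3 H hneg h4 hns
    exact ⟨l, hE ζ a b c⟩
  · obtain ⟨l, hl, -, hM⟩ := NCM.key h1 h3 H hneg h4 hns
    exact ⟨l, hl, hM⟩

end

end PK4
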