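import Pool.Agent.PK4.St3
import Pool.Agent.PK4.NCM

/-!
# MON: negative curvature, the energy of the plane waves is almost decreasing
-/

set_option autoImplicit false

open Complex MeasureTheory Filter Topology Set
open UpperHalfPlane hiding I
open scoped ContDiff MatrixGroups ProbabilityTheory ENNReal

namespace PK4

open QE QE.NC NFP NFP.BND PWV BSL

noncomputable section

namespace MON

variable {Γ : Subgroup SL(2, ℝ)} {ρ : ℍ → ℝ} {D : Set ℍ} {φ : ℕ → ℍ → ℝ} {m : ℕ → ℝ}
  {s : ProbabilityTheory.Kernel ℍ S1}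

/-- the energy of the averaged four-point function is the average of the energies -/
lemma qs_avg (jw : ∀ x : Fin 4 → ℂ, Integrable (fun z => dirWick (s z) x)
      (ProbabilityTheory.cond (Berry.area ρ) D)) (N : ℕ) :
    qs N (fun x => Berry.rAvg ρ D (fun z => dirWick (s z) x))
      = Berry.rAvg ρ D (fun z => qs N (dirWick (s z))) := by
  unfold qs Berry.rAvg
  rw [integral_const_mul, integral_finsetSum _ fun q _ => jw _]

lemma qs_int (jw : ∀ x : Fin 4 → ℂ, Integrable (fun z => dirWick (s z) x)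
      (ProbabilityTheory.cond (Berry.area ρ) D)) (N : ℕ) :
    Integrable (fun z => qs N (dirWick (s z))) (ProbabilityTheory.cond (Berry.area ρ) D) := by
  unfold qs
  exact (integrable_finsetSum _ fun q _ => jw _).const_mul _

/-- comparison of the energies of two boxes -/
lemma compare {δ : ℝ} {M N : ℕ}
    (hMN : ∀ s : Measure S1, IsFiniteMeasure s →
      qs N (dirWick s) ≤ (1 + δ) * qs M (dirWick s) + δ * (s univ).toReal ^ 2)
    (hs : ∀ z, IsFiniteMeasure (s z))
    (js2 : Integrable (fun z => ((s z) univ).toReal ^ 2)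
      (ProbabilityTheory.cond (Berry.area ρ) D))
    (jw : ∀ x : Fin 4 → ℂ, Integrable (fun z => dirWick (s z) x)
      (ProbabilityTheory.cond (Berry.area ρ) D)) :
    qs N (fun x => Berry.rAvg ρ D (fun z => dirWick (s z) x))
      ≤ (1 + δ) * qs M (fun x => Berry.rAvg ρ D (fun z => dirWick (s z) x))
        + δ * Berry.rAvg ρ D (fun z => (s z univ).toReal ^ 2) := by
  rw [qs_avg jw N, qs_avg jw M]
  have h1 : Berry.rAvg ρ D (fun z => qs N (dirWick (s z)))
      ≤ Berry.rAvg ρ D (fun z => (1 + δ) * qs M (dirWick (s z))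
        + δ * ((s z) univ).toReal ^ 2) := by
    unfold Berry.rAvg
    exact integral_mono (qs_int jw N) (((qs_int jw M).const_mul _).add (js2.const_mul _))
      fun z => hMN (s z) (hs z)
  refine h1.trans (le_of_eq ?_)
  unfold Berry.rAvg
  rw [integral_add ((qs_int jw M).const_mul _) (js2.const_mul _), integral_const_mul,
    integral_const_mul]

/-- the energy of the directional measures is bounded -/
lemma bound (M : ℕ) (hs : ∀ z, IsFiniteMeasure (s z))
    (js2 : Integrable (fun z => ((s z) univ).toReal ^ 2)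
      (ProbabilityTheory.cond (Berry.area ρ) D))
    (jw : ∀ x : Fin 4 → ℂ, Integrable (fun z => dirWick (s z) x)
      (ProbabilityTheory.cond (Berry.area ρ) D)) :
    qs M (fun x => Berry.rAvg ρ D (fun z => dirWick (s z) x))
      ≤ 3 * Berry.rAvg ρ D (fun z => (s z univ).toReal ^ 2) := by
  rw [qs_avg jw M]
  have h1 : Berry.rAvg ρ D (fun z => qs M (dirWick (s z)))
      ≤ Berry.rAvg ρ D (fun z => 3 * ((s z) univ).toReal ^ 2) := by
    unfold Berry.rAvg
    refine integral_mono (qs_int jw M) (js2.const_mul _) fun z => ?_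
    exact (le_abs_self _).trans (LIM.abs_qs (by positivity) (t_WKB (s z) (hs z)))
  refine h1.trans (le_of_eq ?_)
  unfold Berry.rAvg
  rw [integral_const_mul]

/-- the case of unbounded fourth moments -/
lemma lim_infty (h1 : StmtEx4) (h3 : StmtWv4) [Countable Γ] (H : Hy Γ ρ D φ m) {k : ℕ → ℕ}
    (hk : Tendsto k atTop atTop) (hinf : Tendsto (fun i => km ρ D φ (k i)) atTop atTop)
    (hA : ∀ x, Tendsto (fun i => (gm ρ D φ m (k i) x - km ρ D φ (k i) / 3 * resK x)
      / km ρ D φ (k i)) atTop (𝓝 0)) (N : ℕ) :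
    Tendsto (fun i => enM ρ D φ m N (k i) / km ρ D φ (k i)) atTop
      (𝓝 (9 / 4 * qs N resK / 3)) := by
  have k1 := ((LW4.qs_lim N hA).const_mul (9 / 4 : ℝ)).add_const (9 / 4 * qs N resK / 3)
  have e0 : qs N (fun _ => (0 : ℝ)) = 0 := by simp [qs]
  rw [e0, mul_zero, zero_add] at k1
  refine k1.congr' ?_
  filter_upwards [hk.eventually (LW4.enM_eq h1 h3 H N), hinf.eventually_gt_atTop 0] with i b2 b3
  rw [b2]
  have := LW4.qs_lin N (gm ρ D φ m (k i)) resK (fun _ => 0) (1 / km ρ D φ (k i)) (-(1 / 3)) 0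
  have e2 : (fun x => (gm ρ D φ m (k i) x - km ρ D φ (k i) / 3 * resK x) / km ρ D φ (k i))
      = fun x => 1 / km ρ D φ (k i) * gm ρ D φ m (k i) x
        + -(1 / 3) * resK x + 0 * (fun _ : Fin 4 → ℂ => (0 : ℝ)) x := by
    funext x
    have := b3.ne'
    field_simp
    ring
  rw [e2, this]
  have := b3.ne'
  field_simp
  ring

/-- the case of bounded fourth moments -/
lemma lim_fin (h1 : StmtEx4) (h3 : StmtWv4) [Countable Γ] (H : Hy Γ ρ D φ m) {k : ℕ → ℕ}
    (hk : Tendsto k atTop atTop) {W : (Fin 4 → ℂ) → ℝ} {S2 : ℝ}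
    (hB : ∀ x, Tendsto (fun i => gm ρ D φ m (k i) x
      - (W x + (km ρ D φ (k i) - 3 * S2) / 3 * resK x)) atTop (𝓝 0)) (N : ℕ) :
    Tendsto (fun i => enM ρ D φ m N (k i)
      - (9 / 4 * qs N W + (km ρ D φ (k i) - 3 * S2) / 3 * (9 / 4 * qs N resK))) atTop (𝓝 0) := by
  have k1 := (LW4.qs_lim N hB).const_mul (9 / 4 : ℝ)
  have e0 : qs N (fun _ => (0 : ℝ)) = 0 := by simp [qs]
  rw [e0, mul_zero] at k1
  refine k1.congr' ?_
  filter_upwards [hk.eventually (LW4.enM_eq h1 h3 H N)] with i b2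
  rw [b2]
  have := LW4.qs_lin N (gm ρ D φ m (k i)) resK W 1 (-((km ρ D φ (k i) - 3 * S2) / 3)) (-1)
  have e2 : (fun x => gm ρ D φ m (k i) x - (W x + (km ρ D φ (k i) - 3 * S2) / 3 * resK x))
      = fun x => 1 * gm ρ D φ m (k i) x + -((km ρ D φ (k i) - 3 * S2) / 3) * resK x
        + -1 * W x := by
    funext x
    ring
  rw [e2, this]
  ring

/-- the energies are nonnegative -/
lemma nonneg (h1 : StmtEx4) (h3 : StmtWv4) [Countable Γ] (H : Hy Γ ρ D φ m) (N : ℕ) :
    ∀ᶠ n in atTop, 0 ≤ enM ρ D φ m N n := by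
  have hg : Berry.Geo Γ ρ D :=
    geo_of H.meas H.fd H.fac.cpt (continuous_of_smooth H.fac.smooth) H.fac.inv
  have hPf := Berry.rFrameProb_isProb hg
  filter_upwards [h3 Γ ρ D φ m H N] with n hn
  obtain ⟨a1, C, a2⟩ := hn
  exact (h1 (ℍ × ℝ) (Berry.rFrameProb ρ D) (fun x => Berry.rWave ρ (φ n) (m n) x) C N a1 a2).1

/-- the fourth moments are at least `3 S` -/
lemma km_low (h1 : StmtEx4) (h3 : StmtWv4) [Countable Γ] (H : Hy Γ ρ D φ m) {k : ℕ → ℕ}
    (hk : Tendsto k atTop atTop) {W : (Fin 4 → ℂ) → ℝ} {S2 : ℝ}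
    (hW : Tendsto (fun N => qs N W) atTop (𝓝 0))
    (hB : ∀ x, Tendsto (fun i => gm ρ D φ m (k i) x
      - (W x + (km ρ D φ (k i) - 3 * S2) / 3 * resK x)) atTop (𝓝 0)) {η : ℝ} (hη : 0 < η) :
    ∀ᶠ i in atTop, 3 * S2 - η ≤ km ρ D φ (k i) := by
  have hc := rkq_closed.1.const_mul (9 / 4 : ℝ)
  have hc1 : (9 / 4 : ℝ) * (4 / 9) = 1 := by norm_num
  rw [hc1] at hc
  have hW' := hW.const_mul (9 / 4 : ℝ)
  rw [mul_zero] at hW'
  obtain ⟨N, b1, b2⟩ := ((hc.eventually (lt_mem_nhds (show (1 / 2 : ℝ) < 1 by norm_num))).and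
    (hW'.eventually (gt_mem_nhds (show (0 : ℝ) < η / 12 by positivity)))).exists
  have b3 := (lim_fin h1 h3 H hk hB N).eventually (gt_mem_nhds (show (0 : ℝ) < η / 12 by positivity))
  filter_upwards [b3, hk.eventually (nonneg h1 h3 H N)] with i c1 c2
  by_contra hcon
  rw [not_le] at hcon
  have c3 : (km ρ D φ (k i) - 3 * S2) / 3 < - (η / 3) := by linarith
  have c4 : (km ρ D φ (k i) - 3 * S2) / 3 * (9 / 4 * qs N resK) ≤ -(η / 3) * (1 / 2) := by
    have c5 : 0 < 9 / 4 * qs N resK := by linarith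
    nlinarith
  linarith

end MON

/-- **MON**: negative curvature, the energy of the plane waves is almost decreasing. -/
theorem t_MON : StmtMon := by
  intro h1 h3 hMnp Γ _ ρ D φ m H hneg δ hδ
  obtain ⟨M₁, L, hM₁, hL, hML⟩ := hMnp (δ / 100) (by positivity)
  have hc := rkq_closed.1.const_mul (9 / 4 : ℝ)
  have hc1 : (9 / 4 : ℝ) * (4 / 9) = 1 := by norm_num
  rw [hc1] at hc
  obtain ⟨N₀, hN₀⟩ := (Metric.tendsto_atTop.1 hc) (δ / 100) (by positivity)
  refine ⟨max M₁ N₀, L, lt_of_lt_of_le hM₁ (le_max_left _ _), hL, fun M hM N hN => ?_⟩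
  have hM1 : M₁ ≤ M := (le_max_left _ _).trans hM
  have hM2 : N₀ ≤ M := (le_max_right _ _).trans hM
  have hNM : M ≤ N := (Nat.le_mul_of_pos_left M hL).trans hN
  set cM : ℝ := 9 / 4 * qs M resK with hcM
  set cN : ℝ := 9 / 4 * qs N resK with hcN
  have hbM : |cM - 1| < δ / 100 := by
    have := hN₀ M hM2
    rwa [Real.dist_eq] at this
  have hbN : |cN - 1| < δ / 100 := by
    have := hN₀ N (hM2.trans hNM)
    rwa [Real.dist_eq] at this
  have hbM' := abs_lt.1 hbM
  have hbN' := abs_lt.1 hbN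
  by_contra hcon
  rw [not_eventually] at hcon
  obtain ⟨ns, hns, hbad⟩ := extraction_of_frequently_atTop hcon
  obtain ⟨t, ht, hcase⟩ := NCM.cases H hneg hns.tendsto_atTop
  have hst : Tendsto (fun i => ns (t i)) atTop atTop := hns.tendsto_atTop.comp ht
  rcases hcase with ⟨hinf, hA⟩ | ⟨s, hs, js2, jw, -, hW, -, hB⟩
  · have k1 := (MON.lim_infty h1 h3 H hst hinf hA N).sub (MON.lim_infty h1 h3 H hst hinf hA M)
    have k2 : 9 / 4 * qs N resK / 3 - 9 / 4 * qs M resK / 3 < δ := by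
      rw [← hcM, ← hcN]
      linarith
    obtain ⟨i, b1, b2⟩ := ((k1.eventually (gt_mem_nhds k2)).and
      (hinf.eventually_gt_atTop 0)).exists
    have b3 := hbad (t i)
    rw [not_le] at b3
    rw [← sub_div, div_lt_iff₀ b2] at b1
    linarith
  · set W : (Fin 4 → ℂ) → ℝ := fun x => Berry.rAvg ρ D (fun z => dirWick (s z) x) with hWd
    set S2 : ℝ := Berry.rAvg ρ D (fun z => (s z univ).toReal ^ 2) with hS2
    have hS0 : 0 ≤ S2 := by
      rw [hS2]
      unfold Berry.rAvg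
      exact integral_nonneg fun z => by positivity
    have a1 : qs N W ≤ (1 + δ / 100) * qs M W + δ / 100 * S2 :=
      MON.compare (hML M hM1 N hN) hs js2 jw
    have a2 : qs M W ≤ 3 * S2 := MON.bound M hs js2 jw
    set η : ℝ := min 1 (δ / 100) with hη
    have hη0 : 0 < η := lt_min one_pos (by positivity)
    have hη1 : η ≤ 1 := min_le_left _ _
    have hη2 : η ≤ δ / 100 := min_le_right _ _
    have k1 := (MON.lim_fin h1 h3 H hst hB N).sub (MON.lim_fin h1 h3 H hst hB M)
    rw [sub_zero] at k1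
    obtain ⟨i, b1, b2⟩ := ((k1.eventually (gt_mem_nhds hη0)).and
      (MON.km_low h1 h3 H hst hW hB hη0)).exists
    have b3 := hbad (t i)
    rw [not_le] at b3
    have b4 := LW4.km_ge H (ns (t i))
    set κ : ℝ := km ρ D φ (ns (t i)) with hκ
    rw [← hcM, ← hcN] at b1
    have c1 : (κ - 3 * S2) / 3 * (cN - cM) ≤ (κ + 1) / 3 * (2 * (δ / 100)) := by
      have d1 : (κ - 3 * S2) / 3 * (cN - cM) ≤ |(κ - 3 * S2) / 3| * |cN - cM| := by
        rw [← abs_mul]
        exact le_abs_self _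
      have d2 : |(κ - 3 * S2) / 3| ≤ (κ + 1) / 3 := by
        rw [abs_le]
        constructor <;> linarith
      have d3 : |cN - cM| ≤ 2 * (δ / 100) := by
        rw [abs_le]
        constructor <;> linarith
      exact d1.trans (mul_le_mul d2 d3 (abs_nonneg _) (by linarith))
    have c2 : 9 / 4 * qs N W - 9 / 4 * qs M W ≤ 9 * (δ / 100) * S2 := by
      have : δ / 100 * qs M W ≤ δ / 100 * (3 * S2) :=
        mul_le_mul_of_nonneg_left a2 (by positivity)
      nlinarith
    have c3 : S2 ≤ (κ + 1) / 3 := by linarith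
    have c4 : 9 * (δ / 100) * S2 ≤ 9 * (δ / 100) * ((κ + 1) / 3) :=
      mul_le_mul_of_nonneg_left c3 (by positivity)
    have c5 : δ ≤ δ * κ := le_mul_of_one_le_right hδ.le b4
    nlinarith

end

end PK4
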