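import Pool.Agent.PK4.St3

/-!
# Project L4, module POS: a sum over additive quadruples is a sum of squares
-/

set_option autoImplicit false

open Complex MeasureTheory Filter Topology Set
open UpperHalfPlane hiding I
open scoped ContDiff MatrixGroups ProbabilityTheory ENNReal

namespace PK4

open PWV NFP

noncomputable section

namespace POS

/-- the difference of a pair of points -/
def df (p : (ℕ × ℕ) × (ℕ × ℕ)) : ℤ × ℤ :=
  ((p.1.1 : ℤ) - (p.2.1 : ℤ), (p.1.2 : ℤ) - (p.2.2 : ℤ))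

lemma df_iff (x₀ x₁ x₂ x₃ : ℕ × ℕ) : df (x₀, x₂) = df (x₁, x₃) ↔ x₀ + x₃ = x₁ + x₂ := by
  unfold df
  rw [Prod.ext_iff, Prod.ext_iff]
  simp only [Prod.fst_add, Prod.snd_add]
  omega

/-- a sum of products over the quadruples is a sum of squares -/
lemma sq_nn (N : ℕ) (g : (ℕ × ℕ) × (ℕ × ℕ) → ℝ) :
    0 ≤ ∑ q ∈ quads N, g (q.1, q.2.2.1) * g (q.2.1, q.2.2.2) := by
  have e3 : ∑ q ∈ ((box N ×ˢ box N) ×ˢ (box N ×ˢ box N)).filter
        (fun q => df q.1 = df q.2), g q.1 * g q.2 =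
      ∑ q ∈ quads N, g (q.1, q.2.2.1) * g (q.2.1, q.2.2.2) := by
    refine Finset.sum_nbij' (fun q => (q.1.1, q.2.1, q.1.2, q.2.2))
      (fun q => ((q.1, q.2.2.1), (q.2.1, q.2.2.2))) ?_ ?_ ?_ ?_ ?_
    · rintro ⟨⟨x₀, x₂⟩, ⟨x₁, x₃⟩⟩ hq
      unfold quads
      simp only [Finset.mem_filter, Finset.mem_product] at hq ⊢
      have h := (df_iff x₀ x₁ x₂ x₃).1 hq.2
      tauto
    · rintro ⟨x₀, x₁, x₂, x₃⟩ hq
      unfold quads at hq
      simp only [Finset.mem_filter, Finset.mem_product] at hq ⊢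
      have h := (df_iff x₀ x₁ x₂ x₃).2 hq.2
      tauto
    · intro q _
      rfl
    · intro q _
      rfl
    · intro q _
      rfl
  rw [← e3, ← PWV.PAR.sq_fib (box N ×ˢ box N) ((box N ×ˢ box N).image df) df
    (fun p hp => Finset.mem_image_of_mem df hp) g]
  exact Finset.sum_nonneg fun k _ => sq_nonneg _

end POS

open POS in
theorem t_POS : StmtPos4 := by
  intro N a
  refine ⟨?_, ?_⟩
  · unfold PWV.WKQ.T
    refine mul_nonneg (by positivity) ?_
    have h : ∀ q ∈ quads N,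
        Real.cos (ip (pt q.1) a + ip (pt q.2.1) (-a) + ip (pt q.2.2.1) 0) =
          Real.cos ((ip (pt (q.1, q.2.2.1).1) a + ip (pt (q.1, q.2.2.1).2) a) / 2) *
            Real.cos ((ip (pt (q.2.1, q.2.2.2).1) a + ip (pt (q.2.1, q.2.2.2).2) a) / 2) +
          Real.sin ((ip (pt (q.1, q.2.2.1).1) a + ip (pt (q.1, q.2.2.1).2) a) / 2) *
            Real.sin ((ip (pt (q.2.1, q.2.2.2).1) a + ip (pt (q.2.1, q.2.2.2).2) a) / 2) := by
      intro q hq
      rw [← Real.cos_sub]
      have h1 : ip (pt q.1) a + ip (pt q.2.2.2) a = ip (pt q.2.1) a + ip (pt q.2.2.1) a := by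
        rw [← PWV.WKQ.ip_add, ← PWV.WKQ.ip_add, PWV.WKQ.pt_quads hq]
      rw [PWV.WKQ.ip_neg_right, PWV.WKQ.ip_zero_right]
      congr 1
      simp only
      linarith
    rw [Finset.sum_congr rfl h, Finset.sum_add_distrib]
    exact add_nonneg
      (sq_nn N fun p => Real.cos ((ip (pt p.1) a + ip (pt p.2) a) / 2))
      (sq_nn N fun p => Real.sin ((ip (pt p.1) a + ip (pt p.2) a) / 2))
  · unfold PWV.WKQ.T
    refine congrArg _ ?_
    refine Finset.sum_nbij' (fun q => (q.1, q.2.2.1, q.2.1, q.2.2.2))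
      (fun q => (q.1, q.2.2.1, q.2.1, q.2.2.2)) ?_ ?_ ?_ ?_ ?_
    · intro q hq
      unfold quads at hq ⊢
      simp only [Finset.mem_filter, Finset.mem_product] at hq ⊢
      refine ⟨by tauto, ?_⟩
      rw [hq.2, add_comm]
    · intro q hq
      unfold quads at hq ⊢
      simp only [Finset.mem_filter, Finset.mem_product] at hq ⊢
      refine ⟨by tauto, ?_⟩
      rw [hq.2, add_comm]
    · intro q _
      rfl
    · intro q _
      rfl
    · intro q _
      simp only [PWV.WKQ.ip_neg_right, PWV.WKQ.ip_zero_right]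
      congr 1
      ring

end

end PK4
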