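import Pool.Agent.PK4.St

/-!
# The formula for the fourth moments of quantum ergodic sequences (MP_4fa179_mp, project L4)
-/

set_option autoImplicit false

open Complex MeasureTheory Filter Topology Set
open UpperHalfPlane hiding I
open scoped ContDiff MatrixGroups ProbabilityTheory ENNReal

namespace PK4

open PWV NFP

noncomputable section

namespace QE4

variable {Γ : Subgroup SL(2, ℝ)} {ρ : ℍ → ℝ} {D : Set ℍ} {φ : ℕ → ℍ → ℝ} {m : ℕ → ℝ}

lemma prob [Countable Γ] (H : Hy Γ ρ D φ m) : IsProbabilityMeasure (Berry.rFrameProb ρ D) :=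
  Berry.rFrameProb_isProb (Berry.surf_of_cocompact H.fd H.meas H.fac.cpt
    (QE.continuous_of_smooth H.fac.smooth) H.fac.inv H.eig).geo

lemma defc_eq (x : Fin 4 → ℂ) : QE.defc x = resK x / 3 := by
  unfold QE.defc resK
  ring

lemma qs_add (N : ℕ) (f g : (Fin 4 → ℂ) → ℝ) :
    qs N (fun x => f x + g x) = qs N f + qs N g := by
  unfold qs
  rw [Finset.sum_add_distrib, mul_add]

lemma qs_sub (N : ℕ) (f g : (Fin 4 → ℂ) → ℝ) :
    qs N (fun x => f x - g x) = qs N f - qs N g := by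
  unfold qs
  rw [Finset.sum_sub_distrib, mul_sub]

lemma qs_mul (N : ℕ) (c : ℝ) (f : (Fin 4 → ℂ) → ℝ) :
    qs N (fun x => c * f x) = c * qs N f := by
  unfold qs
  rw [← Finset.mul_sum]
  ring

lemma qs_tend (N : ℕ) {f : ℕ → (Fin 4 → ℂ) → ℝ} (h : ∀ x, Tendsto (fun n => f n x) atTop (𝓝 0)) :
    Tendsto (fun n => qs N (f n)) atTop (𝓝 0) := by
  unfold qs
  have h1 := (tendsto_finset_sum (quads N) fun q _ =>
    h ![pt q.1, pt q.2.1, pt q.2.2.1, pt q.2.2.2]).const_mul (1 / (N : ℝ) ^ 6)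
  rw [Finset.sum_const_zero, mul_zero] at h1
  exact h1

/-- the four-point formula, summed over the additive quadruples -/
lemma four [Countable Γ] (H : Hy Γ ρ D φ m) (hq : QE.QuantumErgodic ρ φ m) (N : ℕ) :
    Tendsto (fun n => (qs N (gm ρ D φ m n) - (qs N QE.wick
      + (km ρ D φ n - 3) * (qs N resK / 3))) / km ρ D φ n) atTop (𝓝 0) := by
  have h1 : ∀ x : Fin 4 → ℂ, Tendsto (fun n => (gm ρ D φ m n x - (QE.wick x
      + (km ρ D φ n - 3) * QE.defc x)) / km ρ D φ n) atTop (𝓝 0) := fun x => by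
    have h2 := QE.four_surface H.meas H.fd H.fac.cpt H.fac.smooth H.fac.inv H.eig H.smooth hq x
    refine h2.congr fun n => ?_
    unfold gm km
    simp only [Fin.prod_univ_four]
  refine (qs_tend N h1).congr fun n => ?_
  have e1 : (fun x : Fin 4 → ℂ => (gm ρ D φ m n x - (QE.wick x
      + (km ρ D φ n - 3) * QE.defc x)) / km ρ D φ n)
      = fun x => (km ρ D φ n)⁻¹ * (gm ρ D φ m n x - (QE.wick x
        + ((km ρ D φ n - 3) / 3) * resK x)) := by
    funext x
    rw [defc_eq]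
    ring
  rw [e1, qs_mul, qs_sub, qs_add, qs_mul]
  ring

end QE4

theorem t_QE4 : StmtQe4 := by
  intro hEx hLq hWv Γ _ ρ D φ m H hq ε hε
  have hP := QE4.prob H
  -- the constants of the boxes
  have hr : Tendsto (fun N => |1 - 9 / 4 * qs N resK|) atTop (𝓝 0) := by
    have h1 := (rkq_closed.1.const_mul (9 / 4)).const_sub 1
    have e0 : (1 : ℝ) - 9 / 4 * (4 / 9) = 0 := by norm_num
    rw [e0] at h1
    have h2 := h1.abs
    rwa [abs_zero] at h2
  have hw : Tendsto (fun N => 27 / 4 * |qs N QE.wick|) atTop (𝓝 0) := by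
    have h1 := (hLq.abs).const_mul (27 / 4)
    rwa [abs_zero, mul_zero] at h1
  obtain ⟨N₁, hN₁⟩ := eventually_atTop.1 (hr.eventually (gt_mem_nhds (by positivity : 0 < ε / 4)))
  obtain ⟨N₂, hN₂⟩ := eventually_atTop.1 (hw.eventually (gt_mem_nhds (by positivity : 0 < ε / 4)))
  refine ⟨max N₁ N₂, fun N hN => ?_⟩
  have a1 := hN₁ N (le_trans (le_max_left _ _) hN)
  have a2 := hN₂ N (le_trans (le_max_right _ _) hN)
  have h4 : Tendsto (fun n => 27 / 4 * |(qs N (gm ρ D φ m n) - (qs N QE.wick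
      + (km ρ D φ n - 3) * (qs N resK / 3))) / km ρ D φ n|) atTop (𝓝 0) := by
    have h1 := ((QE4.four H hq N).abs).const_mul (27 / 4)
    rwa [abs_zero, mul_zero] at h1
  filter_upwards [h4.eventually (gt_mem_nhds (by positivity : 0 < ε / 4)), hWv Γ ρ D φ m H N,
    QE.lower_surface H.meas H.fd H.fac.cpt H.fac.smooth H.fac.inv H.eig H.smooth hq one_pos]
    with n a3 hwv hk
  obtain ⟨hmeas, C, hC⟩ := hwv
  have hk2 : 2 ≤ km ρ D φ n := by
    unfold km
    linarith
  -- the energy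
  have hen : enM ρ D φ m N n = 9 / 4 * qs N (gm ρ D φ m n) :=
    (hEx (ℍ × ℝ) (Berry.rFrameProb ρ D) (fun x p => Berry.rWave ρ (φ n) (m n) x p) C N hmeas
      hC).2.1
  set κ := km ρ D φ n with hκ
  set G := qs N (gm ρ D φ m n) with hG
  set W := qs N QE.wick with hW
  set R := qs N resK with hR
  set r := (G - (W + (κ - 3) * (R / 3))) / κ with hr'
  have hκ0 : κ ≠ 0 := by
    intro h0
    rw [h0] at hk2
    linarith
  have e1 : G = κ * r + (W + (κ - 3) * (R / 3)) := by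
    rw [hr']
    field_simp
    ring
  have e2 : κ - 3 - 3 * enM ρ D φ m N n
      = (κ - 3) * (1 - 9 / 4 * R) - 27 / 4 * W - κ * (27 / 4 * r) := by
    rw [hen, e1]
    ring
  have b1 : |(κ - 3) * (1 - 9 / 4 * R)| ≤ κ * (ε / 4) := by
    rw [abs_mul]
    refine mul_le_mul ?_ a1.le (abs_nonneg _) (by linarith)
    rw [abs_le]
    constructor <;> linarith
  have b2 : |27 / 4 * W| ≤ κ * (ε / 4) := by
    rw [abs_mul, abs_of_pos (by norm_num : (0 : ℝ) < 27 / 4)]
    nlinarith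
  have b3 : |κ * (27 / 4 * r)| ≤ κ * (ε / 4) := by
    rw [abs_mul, abs_mul, abs_of_pos (by norm_num : (0 : ℝ) < 27 / 4),
      abs_of_pos (by linarith : 0 < κ)]
    exact mul_le_mul_of_nonneg_left a3.le (by linarith)
  rw [e2]
  have c1 := abs_sub ((κ - 3) * (1 - 9 / 4 * R) - 27 / 4 * W) (κ * (27 / 4 * r))
  have c2 := abs_sub ((κ - 3) * (1 - 9 / 4 * R)) (27 / 4 * W)
  nlinarith

end

end PK4
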