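import Pool.Agent.PK4.St3
import Pool.Agent.PWV.CHR
import Pool.Agent.PWV.WKQ

/-!
# PK4, module TBD: uniform bound for the sums of characters
-/

set_option autoImplicit false

open Complex MeasureTheory Filter Topology Set
open UpperHalfPlane hiding I
open scoped ContDiff MatrixGroups ProbabilityTheory ENNReal

namespace PK4

open PWV NFP

namespace TBD

theorem gb_le {α : ℝ} (h0 : α ≠ 0) (h2 : |α| ≤ 2) : CHR.gb α ≤ Real.pi / |α| := by
  have hpi := Real.pi_gt_three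
  have hα : 0 < |α| := abs_pos.2 h0
  have h1 : 2 / Real.pi * |α / 2| ≤ |Real.sin (α / 2)| := by
    apply Real.mul_abs_le_abs_sin
    rw [abs_div, abs_two]
    linarith
  have h3 : ‖CHR.ex α - 1‖ = 2 * |Real.sin (α / 2)| := by
    unfold CHR.ex
    rw [mul_comm, Complex.norm_exp_I_mul_ofReal_sub_one, Real.norm_eq_abs, abs_mul, abs_two]
  have h4 : 2 * |α| / Real.pi ≤ ‖CHR.ex α - 1‖ := by
    rw [h3]
    rw [abs_div, abs_two] at h1
    have h5 : 2 * |α| / Real.pi = 2 * (2 / Real.pi * (|α| / 2)) := by ring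
    rw [h5]
    linarith
  have h6 : 0 < 2 * |α| / Real.pi := by positivity
  unfold CHR.gb
  rw [div_le_div_iff₀ (h6.trans_le h4) hα]
  rw [div_le_iff₀ (by positivity)] at h4
  linarith

theorem pow_bound {N : ℕ} (hN : 0 < N) {r x X : ℝ} (hr : 0 < r) (hx : r / 2 ≤ x)
    (hX : X ≤ (N : ℝ) ^ 5 * (Real.pi / x)) :
    1 / (N : ℝ) ^ 6 * X ≤ 8 / ((N : ℝ) * r) := by
  have hN' : (0 : ℝ) < N := by exact_mod_cast hN
  have hpi := Real.pi_lt_four
  have hpi0 := Real.pi_pos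
  have hx0 : 0 < x := by linarith
  have h1 : Real.pi / x ≤ 8 / r := by
    rw [div_le_div_iff₀ hx0 hr]
    nlinarith
  calc 1 / (N : ℝ) ^ 6 * X ≤ 1 / (N : ℝ) ^ 6 * ((N : ℝ) ^ 5 * (8 / r)) := by
        refine mul_le_mul_of_nonneg_left (hX.trans ?_) (by positivity)
        exact mul_le_mul_of_nonneg_left h1 (by positivity)
    _ = 8 / ((N : ℝ) * r) := by
        field_simp

end TBD

open TBD in
theorem t_TBD : StmtTbd := by
  intro N a b c hN ha h2
  have hr : 0 < ‖a‖ := norm_pos_iff.2 ha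
  have hN' : (0 : ℝ) < N := by exact_mod_cast hN
  have h3 : |PWV.WKQ.T N a b c| ≤
      1 / (N : ℝ) ^ 6 * (‖CHR.S N a.re b.re c.re‖ * ‖CHR.S N a.im b.im c.im‖) := by
    unfold PWV.WKQ.T
    rw [abs_mul, abs_of_pos (by positivity : (0 : ℝ) < 1 / (N : ℝ) ^ 6)]
    refine mul_le_mul_of_nonneg_left ?_ (by positivity)
    refine (CHR.abs_sum_cos_le _ _).trans ?_
    rw [CHR.sum_ex, norm_mul]
  refine h3.trans ?_
  have h4 := Complex.norm_le_abs_re_add_abs_im a
  rcases (show ‖a‖ / 2 ≤ |a.re| ∨ ‖a‖ / 2 ≤ |a.im| by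
    by_contra hcon
    push Not at hcon
    linarith [hcon.1, hcon.2]) with h | h
  · have h5 : a.re ≠ 0 := fun h6 => by
      rw [h6, abs_zero] at h
      linarith
    have h6 : |a.re| ≤ 2 := (Complex.abs_re_le_norm a).trans h2
    have h7 : CHR.ex a.re ≠ 1 := CHR.ex_ne h5 (by have := Real.pi_gt_three; linarith)
    refine pow_bound hN hr h ?_
    calc _ ≤ ((N : ℝ) ^ 2 * CHR.gb a.re) * (N : ℝ) ^ 3 :=
          mul_le_mul (CHR.S_geo N _ _ h7) (CHR.S_triv N _ _ _) (norm_nonneg _)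
            (mul_nonneg (by positivity) (CHR.gb_nonneg _))
      _ = (N : ℝ) ^ 5 * CHR.gb a.re := by ring
      _ ≤ _ := mul_le_mul_of_nonneg_left (gb_le h5 h6) (by positivity)
  · have h5 : a.im ≠ 0 := fun h6 => by
      rw [h6, abs_zero] at h
      linarith
    have h6 : |a.im| ≤ 2 := (Complex.abs_im_le_norm a).trans h2
    have h7 : CHR.ex a.im ≠ 1 := CHR.ex_ne h5 (by have := Real.pi_gt_three; linarith)
    refine pow_bound hN hr h ?_
    calc _ ≤ (N : ℝ) ^ 3 * ((N : ℝ) ^ 2 * CHR.gb a.im) :=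
          mul_le_mul (CHR.S_triv N _ _ _) (CHR.S_geo N _ _ h7) (norm_nonneg _) (by positivity)
      _ = (N : ℝ) ^ 5 * CHR.gb a.im := by ring
      _ ≤ _ := mul_le_mul_of_nonneg_left (gb_le h5 h6) (by positivity)

end PK4
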