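import Pool.Agent.PK4.St3
import Pool.Agent.PK4.NCM

/-!
# UNI: negative curvature, the lower bound for every sequence
-/

set_option autoImplicit false

open Complex MeasureTheory Filter Topology Set
open UpperHalfPlane hiding I
open scoped ContDiff MatrixGroups ProbabilityTheory ENNReal

namespace PK4

open QE QE.NC NFP NFP.BND PWV BSL

noncomputable section

namespace UNI

variable {Γ : Subgroup SL(2, ℝ)} {ρ : ℍ → ℝ} {D : Set ℍ} {φ : ℕ → ℍ → ℝ} {m : ℕ → ℝ}

/-- the normalising constant of the box tends to one -/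
lemma c_lim : Tendsto (fun N => 9 / 4 * qs N resK) atTop (𝓝 (1 : ℝ)) := by
  have hc := rkq_closed.1.const_mul (9 / 4 : ℝ)
  have hc1 : (9 / 4 : ℝ) * (4 / 9) = 1 := by norm_num
  rw [hc1] at hc
  exact hc

lemma qs_zero (N : ℕ) : qs N (fun _ => (0 : ℝ)) = 0 := by simp [qs]

/-- the energy, if the fourth moments are unbounded -/
lemma en_infty (h1 : StmtEx4) (h3 : StmtWv4) [Countable Γ] (H : Hy Γ ρ D φ m) {us : ℕ → ℕ}
    (hus : Tendsto us atTop atTop)
    (hinf : Tendsto (fun i => km ρ D φ (us i)) atTop atTop)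
    (hA : ∀ x, Tendsto (fun i => (gm ρ D φ m (us i) x - km ρ D φ (us i) / 3 * resK x)
      / km ρ D φ (us i)) atTop (𝓝 0)) (M : ℕ) :
    Tendsto (fun i => 3 * enM ρ D φ m M (us i) / km ρ D φ (us i)) atTop
      (𝓝 (9 / 4 * qs M resK)) := by
  have k1 := (LW4.qs_lim M hA).const_mul (27 / 4 : ℝ)
  rw [qs_zero, mul_zero] at k1
  have k2 := k1.add_const (9 / 4 * qs M resK)
  rw [zero_add] at k2
  refine k2.congr' ?_
  filter_upwards [hus.eventually (LW4.enM_eq h1 h3 H M), hinf.eventually_gt_atTop 0]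
    with i b2 b3
  have e1 : qs M (fun x => (gm ρ D φ m (us i) x - km ρ D φ (us i) / 3 * resK x)
      / km ρ D φ (us i))
      = (qs M (gm ρ D φ m (us i)) - km ρ D φ (us i) / 3 * qs M resK) / km ρ D φ (us i) := by
    have := LW4.qs_lin M (gm ρ D φ m (us i)) resK (fun _ => 0) (1 / km ρ D φ (us i))
      (-(1 / 3)) 0
    have e2 : (fun x => (gm ρ D φ m (us i) x - km ρ D φ (us i) / 3 * resK x)
        / km ρ D φ (us i)) = fun x => 1 / km ρ D φ (us i) * gm ρ D φ m (us i) x
          + -(1 / 3) * resK x + 0 * (fun _ : Fin 4 → ℂ => (0 : ℝ)) x := by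
      funext x
      have := b3.ne'
      field_simp
      ring
    rw [e2, this]
    have := b3.ne'
    field_simp
    ring
  rw [e1, b2]
  have := b3.ne'
  field_simp
  ring

/-- the energy, if there is a limit -/
lemma en_lim (h1 : StmtEx4) (h3 : StmtWv4) [Countable Γ] (H : Hy Γ ρ D φ m) {us : ℕ → ℕ}
    (hus : Tendsto us atTop atTop) {V : (Fin 4 → ℂ) → ℝ} {K : ℝ}
    (hB : ∀ x, Tendsto (fun i => gm ρ D φ m (us i) x
      - (V x + (km ρ D φ (us i) - K) / 3 * resK x)) atTop (𝓝 0)) (M : ℕ) :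
    Tendsto (fun i => 3 * enM ρ D φ m M (us i)
      - (27 / 4 * qs M V + (km ρ D φ (us i) - K) * (9 / 4 * qs M resK))) atTop (𝓝 0) := by
  have k1 := (LW4.qs_lim M hB).const_mul (27 / 4 : ℝ)
  rw [qs_zero, mul_zero] at k1
  refine k1.congr' ?_
  filter_upwards [hus.eventually (LW4.enM_eq h1 h3 H M)] with i b2
  have e1 : qs M (fun x => gm ρ D φ m (us i) x - (V x + (km ρ D φ (us i) - K) / 3 * resK x))
      = qs M (gm ρ D φ m (us i))
        - (qs M V + (km ρ D φ (us i) - K) / 3 * qs M resK) := by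
    have := LW4.qs_lin M (gm ρ D φ m (us i)) resK V 1 (-((km ρ D φ (us i) - K) / 3)) (-1)
    have e2 : (fun x => gm ρ D φ m (us i) x - (V x + (km ρ D φ (us i) - K) / 3 * resK x))
        = fun x => 1 * gm ρ D φ m (us i) x + -((km ρ D φ (us i) - K) / 3) * resK x
          + -1 * V x := by
      funext x
      ring
    rw [e2, this]
    ring
  rw [e1, b2]
  ring

/-- the energies are nonnegative -/
lemma en_nn (h1 : StmtEx4) (h3 : StmtWv4) [Countable Γ] (H : Hy Γ ρ D φ m) (M : ℕ) :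
    ∀ᶠ n in atTop, 0 ≤ enM ρ D φ m M n := by
  have hg : Berry.Geo Γ ρ D :=
    geo_of H.meas H.fd H.fac.cpt (continuous_of_smooth H.fac.smooth) H.fac.inv
  have hPf := Berry.rFrameProb_isProb hg
  filter_upwards [h3 Γ ρ D φ m H M] with n hn
  obtain ⟨a1, C, a2⟩ := hn
  exact (h1 (ℍ × ℝ) (Berry.rFrameProb ρ D)
    (fun x => Berry.rWave ρ (φ n) (m n) x) C M a1 a2).1

/-- the fourth moments are almost at least `K` -/
lemma km_liminf (h1 : StmtEx4) (h3 : StmtWv4) [Countable Γ] (H : Hy Γ ρ D φ m) {us : ℕ → ℕ}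
    (hus : Tendsto us atTop atTop) {V : (Fin 4 → ℂ) → ℝ} {K : ℝ}
    (hB : ∀ x, Tendsto (fun i => gm ρ D φ m (us i) x
      - (V x + (km ρ D φ (us i) - K) / 3 * resK x)) atTop (𝓝 0))
    (hV : Tendsto (fun N => qs N V) atTop (𝓝 0)) {η : ℝ} (hη : 0 < η) :
    ∀ᶠ i in atTop, K - η ≤ km ρ D φ (us i) := by
  have v1 := hV.const_mul (27 / 4 : ℝ)
  rw [mul_zero] at v1
  obtain ⟨M, m1, m2⟩ := ((v1.eventually_lt_const (show (0 : ℝ) < η / 4 by positivity)).and
    (c_lim.eventually_const_lt (show (1 / 2 : ℝ) < 1 by norm_num))).exists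
  have k1 := (en_lim h1 h3 H hus hB M).eventually_lt_const (show (0 : ℝ) < η / 4 by positivity)
  filter_upwards [k1, hus.eventually (en_nn h1 h3 H M)] with i b1 b2
  by_contra hcon
  rw [not_le] at hcon
  have b3 : (km ρ D φ (us i) - K) * (9 / 4 * qs M resK) ≤ -η * (1 / 2) := by
    have c1 : km ρ D φ (us i) - K ≤ -η := by linarith
    nlinarith
  linarith

/-- the first step: for large `n` the inequality holds for one of the boxes -/
lemma stepA (h1 : StmtEx4) (h3 : StmtWv4) [Countable Γ] (H : Hy Γ ρ D φ m) (hneg : Neg ρ)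
    {ε : ℝ} (hε : 0 < ε) (M₀ : ℕ) : ∃ k : ℕ, ∀ᶠ n in atTop, ∃ M : ℕ, M₀ ≤ M ∧ M ≤ M₀ + k ∧
      3 + 3 * enM ρ D φ m M n ≤ km ρ D φ n + ε * km ρ D φ n := by
  by_contra hcon
  push Not at hcon
  obtain ⟨ns, hns, hbad⟩ := extraction_forall_of_frequently hcon
  obtain ⟨t, ht, hcase⟩ := NCM.cases H hneg hns.tendsto_atTop
  have hst : Tendsto (fun i => ns (t i)) atTop atTop := hns.tendsto_atTop.comp ht
  have hb : ∀ M, M₀ ≤ M → ∀ᶠ i in atTop, km ρ D φ (ns (t i)) + ε * km ρ D φ (ns (t i))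
      < 3 + 3 * enM ρ D φ m M (ns (t i)) := by
    intro M hM
    filter_upwards [ht.eventually_ge_atTop M] with i hi
    exact hbad (t i) M hM (by omega)
  rcases hcase with ⟨hinf, hA⟩ | ⟨s, hs, js2, jw, hone, hW, -, hB⟩
  · obtain ⟨M, m1, m2⟩ := ((c_lim.eventually_lt_const (show (1 : ℝ) < 1 + ε by linarith)).and
      (eventually_ge_atTop M₀)).exists
    have k1 := en_infty h1 h3 H hst hinf hA M
    have k2 : Tendsto (fun i => 3 / km ρ D φ (ns (t i))) atTop (𝓝 0) :=
      hinf.const_div_atTop 3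
    have k3 := k2.add k1
    rw [zero_add] at k3
    have k4 : 1 + ε ≤ 9 / 4 * qs M resK := by
      refine ge_of_tendsto k3 ?_
      filter_upwards [hb M m2, hinf.eventually_gt_atTop 0] with i b1 b2
      rw [← add_div, le_div_iff₀ b2]
      linarith
    linarith
  · have hg : Berry.Geo Γ ρ D :=
      geo_of H.meas H.fd H.fac.cpt (continuous_of_smooth H.fac.smooth) H.fac.inv
    have hP := ONE.prob_nu hg
    have j1 : Integrable (fun z => ((s z) univ).toReal)
        (ProbabilityTheory.cond (Berry.area ρ) D) := ONE.int_mass js2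
    have hge : 1 ≤ Berry.rAvg ρ D (fun z => (s z univ).toReal ^ 2) := FIN.one_le j1 js2 hone
    set S2 := Berry.rAvg ρ D (fun z => (s z univ).toReal ^ 2) with hS2
    have v1 := hW.const_mul (27 / 4 : ℝ)
    rw [mul_zero] at v1
    obtain ⟨M, ⟨⟨m1, m2⟩, m3⟩, m4⟩ := (((v1.eventually_lt_const
      (show (0 : ℝ) < ε / 4 by positivity)).and
      (c_lim.eventually_lt_const (show (1 : ℝ) < 1 + ε / 10 by linarith))).and
      (c_lim.eventually_const_lt (show 1 - ε / 10 < (1 : ℝ) by linarith))).and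
      (eventually_ge_atTop M₀) |>.exists
    have k1 := (en_lim h1 h3 H hst hB M).eventually_lt_const
      (show (0 : ℝ) < ε / 4 by positivity)
    have k2 := km_liminf h1 h3 H hst hB hW (η := 1) one_pos
    obtain ⟨i, ⟨b1, b2⟩, b3⟩ := ((k1.and k2).and (hb M m4)).exists
    have b4 := LW4.km_ge H (ns (t i))
    set κ := km ρ D φ (ns (t i)) with hκ
    set c := 9 / 4 * qs M resK with hc
    have b5 : (κ - 3 * S2) * c ≤ (κ - 3 * S2) + (κ + 2) * (ε / 10) := by
      have c1 : (κ - 3 * S2) * (c - 1) ≤ |κ - 3 * S2| * |c - 1| := by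
        rw [← abs_mul]
        exact le_abs_self _
      have c2 : |κ - 3 * S2| ≤ κ + 2 := by
        rw [abs_le]
        constructor <;> linarith
      have c3 : |c - 1| ≤ ε / 10 := by
        rw [abs_le]
        constructor <;> linarith
      have c4 : (κ - 3 * S2) * (c - 1) ≤ (κ + 2) * (ε / 10) :=
        c1.trans (mul_le_mul c2 c3 (abs_nonneg _) (by linarith))
      linarith
    nlinarith

end UNI

/-- **UNI**: negative curvature, the lower bound for every sequence. -/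
theorem t_UNI : StmtUni := by
  intro h1 h3 hMon hMnp Γ _ ρ D φ m H hneg ε hε
  obtain ⟨M₀, L, hM₀, hL, hmon⟩ := hMon h1 h3 hMnp Γ ρ D φ m H hneg (ε / 10) (by positivity)
  obtain ⟨k, hk⟩ := UNI.stepA h1 h3 H hneg (show (0 : ℝ) < ε / 10 by positivity) M₀
  refine ⟨L * (M₀ + k), fun N hN => ?_⟩
  have hall : ∀ᶠ n in atTop, ∀ M ∈ Finset.Icc M₀ (M₀ + k),
      enM ρ D φ m N n ≤ enM ρ D φ m M n + ε / 10 * km ρ D φ n := by
    rw [Filter.eventually_all_finset]
    intro M hM
    rw [Finset.mem_Icc] at hM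
    exact hmon M hM.1 N ((Nat.mul_le_mul_left L hM.2).trans hN)
  filter_upwards [hk, hall] with n hn ha
  obtain ⟨M, m1, m2, m3⟩ := hn
  have a1 := ha M (Finset.mem_Icc.2 ⟨m1, m2⟩)
  have a2 := LW4.km_ge H n
  nlinarith

end

end PK4
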