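import Pool.Agent.PK4.EX4
import Pool.Agent.PK4.NNG
import Pool.Agent.PK4.LQ4
import Pool.Agent.PK4.UPP
import Pool.Agent.PK4.WV4
import Pool.Agent.PK4.LW4
import Pool.Agent.PK4.QE4
import Pool.Agent.PK4.BX4
import Pool.Agent.PK4.LB4
import Pool.Agent.PK4.MV4
import Pool.Agent.PK4.NCM
import Pool.Agent.PK4.CNE
import Pool.Agent.PK4.TBD
import Pool.Agent.PK4.POS
import Pool.Agent.PK4.MNP
import Pool.Agent.PK4.MON
import Pool.Agent.PK4.UNI
import Pool.Agent.PK4.FIN4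
import Pool.Agent.PK4.EXS
import Pool.Agent.PK4.GEN
import Pool.Agent.PK4.MAS
import Pool.Agent.PK4.LMS
import Pool.Agent.PK4.ADD

/-!
# The fourth moments of eigenfunctions and their plane waves: the theorem
-/

namespace PK4

/-- the theorem -/
theorem l5_closed : StmtL5 :=
  t_FIN4 t_EX4 t_WV4 t_UPP t_LQ4 t_QE4 t_BX4 t_LW4 t_NNG t_LB4 t_MV4 t_NCM t_MON t_UNI
    (t_MNP t_TBD t_POS t_NNG)

end PK4
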