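import Pool.Agent.PK4.St2
import Pool.Agent.PK4.LW4

/-!
# DIA: in negative curvature `κ → 3` implies no plane waves in `L⁴`
-/

set_option autoImplicit false

open Complex MeasureTheory Filter Topology Set
open UpperHalfPlane hiding I
open scoped ContDiff MatrixGroups ProbabilityTheory ENNReal

namespace PK4

open QE QE.NC NFP NFP.BND PWV

noncomputable section

namespace DIA

variable {Γ : Subgroup SL(2, ℝ)} {ρ : ℍ → ℝ} {D : Set ℍ} {φ : ℕ → ℍ → ℝ} {m : ℕ → ℝ}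

lemma pt_add (q t : ℕ × ℕ) : pt q + pt t = pt (q + t) := by
  unfold pt
  rw [Prod.fst_add, Prod.snd_add]
  push_cast
  ring

lemma mem_add {M N : ℕ} {q t : ℕ × ℕ} (hq : q ∈ box M) (ht : t ∈ box N) :
    q + t ∈ box (M + N) := by
  unfold box at *
  simp only [Finset.mem_product, Finset.mem_range, Prod.fst_add, Prod.snd_add] at *
  omega

lemma dirWick_add (s : Measure S1) (x : Fin 4 → ℂ) (y : ℂ) :
    dirWick s (fun i => x i + y) = dirWick s x := by
  unfold dirWick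
  simp only [add_sub_add_right_eq_sub]

lemma resK_add (x : Fin 4 → ℂ) (y : ℂ) : resK (fun i => x i + y) = resK x := by
  unfold resK
  have e1 : x 0 + y + (x 1 + y) - (x 2 + y) - (x 3 + y) = x 0 + x 1 - x 2 - x 3 := by ring
  have e2 : x 0 + y + (x 2 + y) - (x 1 + y) - (x 3 + y) = x 0 + x 2 - x 1 - x 3 := by ring
  have e3 : x 0 + y + (x 3 + y) - (x 1 + y) - (x 2 + y) = x 0 + x 3 - x 1 - x 2 := by ring
  rw [e1, e2, e3]

/-- the four-point function is asymptotically invariant under translations -/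
lemma gm_add [Countable Γ] (H : Hy Γ ρ D φ m) (hk : Tendsto (km ρ D φ) atTop (𝓝 3))
    (x : Fin 4 → ℂ) (y : ℂ) :
    Tendsto (fun n => gm ρ D φ m n (fun i => x i + y) - gm ρ D φ m n x) atTop (𝓝 0) := by
  refine tendsto_of_subseq_tendsto fun ns hns => ?_
  obtain ⟨t, ht, h | h⟩ := LW4.cases H hns
  · exfalso
    have h1 : Tendsto (fun i => km ρ D φ (ns (t i))) atTop (𝓝 3) := hk.comp (hns.comp ht)
    exact not_tendsto_nhds_of_tendsto_atTop h.1 _ h1
  · refine ⟨t, ?_⟩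
    obtain ⟨s, -, -, -, -, h1⟩ := h
    have h2 := (h1 (fun i => x i + y)).sub (h1 x)
    rw [sub_zero] at h2
    refine h2.congr fun i => ?_
    have e1 : (fun z => dirWick (s z) (fun i => x i + y)) = fun z => dirWick (s z) x :=
      funext fun z => dirWick_add _ _ _
    rw [e1, resK_add]
    ring

/-- the energy of the translated waves -/
def enT (ρ : ℍ → ℝ) (D : Set ℍ) (φ : ℕ → ℍ → ℝ) (m : ℕ → ℝ) (M n : ℕ) (t : ℕ × ℕ) : ℝ :=
  ∫ p, en (fun x => Berry.rWave ρ (φ n) (m n) (x + pt t) p) M ∂(Berry.rFrameProb ρ D)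

lemma enT_eq (h1 : StmtEx4) (h3 : StmtWv4) [Countable Γ] (H : Hy Γ ρ D φ m) (M N : ℕ) :
    ∀ᶠ n in atTop, ∀ t ∈ box N, enT ρ D φ m M n t
      = 9 / 4 * qs M (fun x => gm ρ D φ m n (fun i => x i + pt t)) := by
  have hρc : Continuous ρ := continuous_of_smooth H.fac.smooth
  have hg : Berry.Geo Γ ρ D := QE.NC.geo_of H.meas H.fd H.fac.cpt hρc H.fac.inv
  have hP := Berry.rFrameProb_isProb hg
  filter_upwards [h3 Γ ρ D φ m H (M + N)] with n hn t ht
  obtain ⟨a1, C, a2⟩ := hn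
  have b1 : ∀ q ∈ box M, Measurable
      ((fun x => Berry.rWave ρ (φ n) (m n) (x + pt t)) (pt q)) := by
    intro q hq
    show Measurable (Berry.rWave ρ (φ n) (m n) (pt q + pt t))
    rw [pt_add]
    exact a1 _ (mem_add hq ht)
  have b2 : ∀ q ∈ box M, ∀ o,
      |(fun x => Berry.rWave ρ (φ n) (m n) (x + pt t)) (pt q) o| ≤ C := by
    intro q hq o
    show |Berry.rWave ρ (φ n) (m n) (pt q + pt t) o| ≤ C
    rw [pt_add]
    exact a2 _ (mem_add hq ht) o
  exact (h1 (ℍ × ℝ) (Berry.rFrameProb ρ D)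
    (fun x => Berry.rWave ρ (φ n) (m n) (x + pt t)) C M b1 b2).2.1

lemma enT_le (h1 : StmtEx4) (h3 : StmtWv4) [Countable Γ] (H : Hy Γ ρ D φ m)
    (hk : Tendsto (km ρ D φ) atTop (𝓝 3)) (M N : ℕ) {δ : ℝ} (hδ : 0 < δ) :
    ∀ᶠ n in atTop, ∀ t ∈ box N, enT ρ D φ m M n t ≤ enM ρ D φ m M n + δ := by
  have k0 : ∀ t ∈ box N, ∀ᶠ n in atTop,
      |9 / 4 * qs M (fun x => gm ρ D φ m n (fun i => x i + pt t) - gm ρ D φ m n x)| < δ := by
    intro t _
    have k1 := (LW4.qs_lim M (G := fun n x => gm ρ D φ m n (fun i => x i + pt t)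
      - gm ρ D φ m n x) (L := fun _ => 0) (fun x => gm_add H hk x (pt t))).const_mul (9 / 4 : ℝ)
    have e0 : qs M (fun _ => (0 : ℝ)) = 0 := by simp [qs]
    rw [e0, mul_zero] at k1
    have k2 := (Metric.tendsto_nhds.1 k1) δ hδ
    filter_upwards [k2] with n hn
    rwa [Real.dist_eq, sub_zero] at hn
  have k1 := (Filter.eventually_all_finset (box N)).2 k0
  filter_upwards [k1, enT_eq h1 h3 H M N, LW4.enM_eq h1 h3 H M] with n c1 c2 c3 t ht
  have c4 := (abs_lt.1 (c1 t ht)).2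
  have e1 : qs M (fun x => gm ρ D φ m n (fun i => x i + pt t) - gm ρ D φ m n x)
      = qs M (fun x => gm ρ D φ m n (fun i => x i + pt t)) - qs M (gm ρ D φ m n) := by
    unfold qs
    rw [Finset.sum_sub_distrib, mul_sub]
  rw [e1, mul_sub, ← c2 t ht, ← c3] at c4
  linarith

/-- one of boundedly many boxes has small energy -/
lemma small (hN : ∀ ns : ℕ → ℕ, Tendsto ns atTop atTop → ∃ l : ℕ → ℕ, Tendsto l atTop atTop ∧
      ∀ ε > 0, ∃ M : ℕ, 0 < M ∧ ∀ᶠ i in atTop, enM ρ D φ m M (ns (l i)) ≤ ε)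
    {ε : ℝ} (hε : 0 < ε) :
    ∃ M₁ : ℕ, ∀ᶠ n in atTop, ∃ M : ℕ, 0 < M ∧ M ≤ M₁ ∧ enM ρ D φ m M n ≤ ε := by
  by_contra hcon
  have h0 : ∀ M₁ : ℕ, ∃ᶠ n in atTop, ¬ ∃ M : ℕ, 0 < M ∧ M ≤ M₁ ∧ enM ρ D φ m M n ≤ ε := by
    intro M₁
    rw [← not_eventually]
    exact fun h => hcon ⟨M₁, h⟩
  obtain ⟨ns, hns, hbad⟩ := extraction_forall_of_frequently h0
  obtain ⟨l, hl, hM⟩ := hN ns hns.tendsto_atTop
  obtain ⟨M, hM0, hMe⟩ := hM ε hε
  obtain ⟨i, c1, c2⟩ := (hMe.and (hl.eventually_ge_atTop M)).exists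
  exact hbad (l i) ⟨M, hM0, c2, c1⟩

/-- the fourth moments of the waves at the points of the box -/
lemma four_le [Countable Γ] (H : Hy Γ ρ D φ m) (hk : Tendsto (km ρ D φ) atTop (𝓝 3)) (N : ℕ) :
    ∀ᶠ n in atTop, ∀ q ∈ box N,
      ∫ o, Berry.rWave ρ (φ n) (m n) (pt q) o ^ 4 ∂(Berry.rFrameProb ρ D) ≤ 5 := by
  refine (Filter.eventually_all_finset (box N)).2 fun q _ => ?_
  have k1 := (LW4.diag H (pt q)).mul hk
  rw [one_mul] at k1
  have k2 := k1.eventually_lt_const (show (3 : ℝ) < 5 by norm_num)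
  filter_upwards [k2] with n hn
  have h1 : km ρ D φ n ≠ 0 := by
    have := LW4.km_ge H n
    positivity
  rw [div_mul_cancel₀ _ h1] at hn
  have e1 : gm ρ D φ m n ![pt q, pt q, pt q, pt q]
      = ∫ o, Berry.rWave ρ (φ n) (m n) (pt q) o ^ 4 ∂(Berry.rFrameProb ρ D) := by
    unfold gm
    congr 1
    funext p
    simp only [Matrix.cons_val_zero, Matrix.cons_val_one, Matrix.cons_val]
    ring
  rw [e1] at hn
  exact hn.le

end DIA

/-- **DIA**: in negative curvature `κ → 3` implies no plane waves in `L⁴`. -/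
theorem t_DIA : StmtDia := by
  intro h1 h3 hS hN Γ _ ρ D φ m H hneg hk ε hε
  have hρc : Continuous ρ := continuous_of_smooth H.fac.smooth
  have hg : Berry.Geo Γ ρ D := QE.NC.geo_of H.meas H.fd H.fac.cpt hρc H.fac.inv
  have hP := Berry.rFrameProb_isProb hg
  obtain ⟨-, hseq⟩ := hN h1 h3 Γ ρ D φ m H hneg hk
  obtain ⟨M₁, hM₁⟩ := DIA.small hseq (show 0 < ε / 60 by positivity)
  obtain ⟨K, hK⟩ := exists_nat_gt (20480 / ε)
  have hK0 : (0 : ℝ) < K := lt_trans (by positivity) hK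
  have hK1 : 0 < K := by exact_mod_cast hK0
  refine ⟨(M₁ + 1) * K, fun N hNN => ?_⟩
  have hN1 : M₁ + 1 ≤ N := le_trans (Nat.le_mul_of_pos_right _ hK1) hNN
  have hN0 : (0 : ℝ) < N := by
    have : 0 < N := by omega
    exact_mod_cast this
  have e1 : ∀ᶠ n in atTop, ∀ M ∈ Finset.range (M₁ + 1), ∀ t ∈ box N,
      DIA.enT ρ D φ m M n t ≤ enM ρ D φ m M n + ε / 60 :=
    (Filter.eventually_all_finset _).2 fun M _ => DIA.enT_le h1 h3 H hk M N (by positivity)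
  filter_upwards [hM₁, e1, DIA.four_le H hk (M₁ + N), h3 Γ ρ D φ m H (M₁ + N)] with n c1 c2 c3 c4
  obtain ⟨M, hM0, hMM, hMe⟩ := c1
  obtain ⟨a1, C, a2⟩ := c4
  have hsub : ∀ q ∈ box (M + N), q ∈ box (M₁ + N) := by
    intro q hq
    unfold box at *
    simp only [Finset.mem_product, Finset.mem_range] at *
    omega
  have hfin := hS (ℍ × ℝ) (Berry.rFrameProb ρ D) (fun x => Berry.rWave ρ (φ n) (m n) x) C M N hM0
    (by omega) (fun q hq => a1 q (hsub q hq)) (fun q hq o => a2 q (hsub q hq) o)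
    (ε / 60 + ε / 60) 5
    (fun t ht => (c2 M (Finset.mem_range.2 (by omega)) t ht).trans (by linarith))
    (fun q hq => c3 q (hsub q hq))
  refine hfin.trans (ENNReal.ofReal_le_ofReal ?_)
  have hx0 : (0 : ℝ) ≤ (M : ℝ) / N := by positivity
  have hx1 : (M : ℝ) / N ≤ 1 / K := by
    rw [div_le_div_iff₀ hN0 hK0, one_mul]
    have : M * K ≤ N := le_trans (Nat.mul_le_mul_right _ (by omega)) hNN
    exact_mod_cast this
  have hx2 : (1 : ℝ) / K ≤ ε / 20480 := by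
    rw [div_le_div_iff₀ hK0 (by norm_num), one_mul]
    rw [div_lt_iff₀ hε] at hK
    linarith
  have hx3 : (1 : ℝ) / K ≤ 1 := by
    rw [div_le_one hK0]
    exact_mod_cast hK1
  have hx4 : ((M : ℝ) / N) ^ 4 ≤ ε / 20480 := by
    calc ((M : ℝ) / N) ^ 4 ≤ ((M : ℝ) / N) ^ 1 :=
          pow_le_pow_of_le_one hx0 (hx1.trans hx3) (by norm_num)
      _ = (M : ℝ) / N := pow_one _
      _ ≤ ε / 20480 := hx1.trans hx2
  linarith

end

end PK4
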