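import Pool.Agent.PK4.St3
import Pool.Agent.PK4.LW4
import Pool.Agent.BWM.C44
import Pool.Agent.BWM.C45

/-!
# FIN4: the assembly
-/

set_option autoImplicit false

open Complex MeasureTheory Filter Topology Set
open UpperHalfPlane hiding I
open scoped ContDiff MatrixGroups ProbabilityTheory ENNReal

namespace PK4

open PWV NFP

noncomputable section

namespace FIN4

variable {Γ : Subgroup SL(2, ℝ)} {ρ : ℍ → ℝ} {D : Set ℍ} {φ : ℕ → ℍ → ℝ} {m : ℕ → ℝ}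

lemma prob [Countable Γ] (H : Hy Γ ρ D φ m) : IsProbabilityMeasure (Berry.rFrameProb ρ D) :=
  Berry.rFrameProb_isProb (QE.NC.geo_of H.meas H.fd H.fac.cpt
    (QE.continuous_of_smooth H.fac.smooth) H.fac.inv)

/-- the energy is nonnegative and controls the plane waves -/
lemma en_facts (h1 : StmtEx4) (h3 : StmtWv4) [Countable Γ] (H : Hy Γ ρ D φ m) (N : ℕ) :
    ∀ᶠ n in atTop, 0 ≤ enM ρ D φ m N n ∧
      ∫⁻ p, ⨆ v : ℂ, ENNReal.ofReal
        (‖PWV.coef (fun x => Berry.rWave ρ (φ n) (m n) x p) N v‖ ^ 4) ∂(Berry.rFrameProb ρ D)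
        ≤ ENNReal.ofReal (16 / 9 * enM ρ D φ m N n) := by
  have hP := prob H
  filter_upwards [h3 Γ ρ D φ m H N] with n hn
  obtain ⟨a1, C, a2⟩ := hn
  have h := h1 (ℍ × ℝ) (Berry.rFrameProb ρ D) (fun x => Berry.rWave ρ (φ n) (m n) x) C N a1 a2
  exact ⟨h.1, h.2.2.1⟩

/-- no energy, no plane waves -/
lemma box_of_en (h1 : StmtEx4) (h3 : StmtWv4) [Countable Γ] (H : Hy Γ ρ D φ m)
    (h : ∀ ε > 0, ∃ N₀ : ℕ, ∀ N ≥ N₀, ∀ᶠ n in atTop, enM ρ D φ m N n ≤ ε) : Box4 ρ D φ m := by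
  intro ε hε
  obtain ⟨N₀, hN₀⟩ := h (9 / 16 * ε) (by positivity)
  refine ⟨N₀, fun N hN => ?_⟩
  filter_upwards [hN₀ N hN, en_facts h1 h3 H N] with n a1 a2
  exact a2.2.trans (ENNReal.ofReal_le_ofReal (by linarith))

/-- the energy of sequences with fourth moments tending to three -/
lemma en_small {ρ : ℍ → ℝ} {D : Set ℍ} {φ : ℕ → ℍ → ℝ} {m : ℕ → ℝ}
    (hk : Tendsto (km ρ D φ) atTop (𝓝 3))
    (hf : ∀ ε > 0, ∃ N₀ : ℕ, ∀ N ≥ N₀, ∀ᶠ n in atTop,
      |km ρ D φ n - 3 - 3 * enM ρ D φ m N n| ≤ ε * km ρ D φ n) :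
    ∀ ε > 0, ∃ N₀ : ℕ, ∀ N ≥ N₀, ∀ᶠ n in atTop, enM ρ D φ m N n ≤ ε := by
  intro ε hε
  obtain ⟨N₀, hN₀⟩ := hf (ε / 4) (by positivity)
  refine ⟨N₀, fun N hN => ?_⟩
  have h4 := hk.eventually_lt_const (show (3 : ℝ) < 3 + min 1 ε by
    have := lt_min one_pos hε
    linarith)
  filter_upwards [hN₀ N hN, h4] with n a1 a2
  have b1 := (abs_le.1 a1).1
  have b2 : min 1 ε ≤ 1 := min_le_left _ _
  have b3 : min 1 ε ≤ ε := min_le_right _ _
  nlinarith

/-- from both bounds to the limit -/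
lemma tend_three {κ : ℕ → ℝ} (hl : ∀ η > 0, ∀ᶠ n in atTop, 3 - η ≤ κ n)
    (hu : ∀ η > 0, ∀ᶠ n in atTop, κ n ≤ 3 + η) : Tendsto κ atTop (𝓝 3) := by
  rw [Metric.tendsto_nhds]
  intro ε hε
  filter_upwards [hl (ε / 2) (by positivity), hu (ε / 2) (by positivity)] with n a1 a2
  rw [Real.dist_eq, abs_lt]
  constructor <;> linarith

/-- the lower bound for quantum ergodic sequences -/
lemma lower_qe [Countable Γ] (H : Hy Γ ρ D φ m) (hq : QE.QuantumErgodic ρ φ m) :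
    ∀ η > 0, ∀ᶠ n in atTop, 3 - η ≤ km ρ D φ n := by
  intro η hη
  filter_upwards [QE.lower_surface H.meas H.fd H.fac.cpt H.fac.smooth H.fac.inv H.eig H.smooth hq
    hη] with n hn
  unfold km
  linarith

/-- the lower bound in negative curvature -/
lemma lower_neg [Countable Γ] (H : Hy Γ ρ D φ m) (hneg : Neg ρ) :
    ∀ η > 0, ∀ᶠ n in atTop, 3 - η ≤ km ρ D φ n := by
  intro η hη
  have hg : Berry.Geo Γ ρ D := QE.NC.geo_of H.meas H.fd H.fac.cpt
    (QE.continuous_of_smooth H.fac.smooth) H.fac.inv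
  have hP : IsProbabilityMeasure (ProbabilityTheory.cond (Berry.area ρ) D) :=
    ProbabilityTheory.cond_isProbabilityMeasure_of_finite (Berry.area_ne_zero hg)
      (Berry.area_ne_top hg)
  have key := QE.NC.final Γ ρ H.fac.smooth H.fac.inv hneg D H.meas H.fd H.fac.cpt φ m H.eig
    H.smooth H.norm (fun _ => 1) (fun _ => 1) continuous_const
    (fun _ => one_pos) (fun _ _ _ => rfl) continuous_const (fun _ _ _ => rfl) 1 (fun _ => 1)
    (fun _ => 0) η hη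
  have hone : Berry.rAvg ρ D (fun _ => (1 : ℝ)) = 1 := by
    unfold Berry.rAvg
    rw [integral_const, probReal_univ, one_smul]
  filter_upwards [key] with n h
  simp only [Finset.univ_unique, Finset.sum_singleton, sub_zero, Berry.waveK_zero, one_mul,
    one_pow, mul_one, QE.NC.rWave_origin, H.norm n, hone] at h
  rw [QE.NC.rFrame_base hg (f := fun z => φ n z ^ 4)] at h
  exact h

end FIN4

open FIN4 in
/-- **FIN4**: the theorem. -/
theorem t_FIN4 (h1 : StmtEx4) (h3 : StmtWv4) (h4 : StmtUpp) (h5 : StmtLq4) (h6 : StmtQe4)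
    (h7 : StmtBx4) (h8 : StmtLw4) (h2 : StmtNng) (h9 : StmtLb4) (h10 : StmtMv4)
    (h12 : StmtNcm) (h13 : StmtMon) (h14 : StmtUni) (h15 : Mnp) : StmtL5 := by
  intro Γ _ ρ hρ hρΓ D hDm hD hK φ m hφ hs hn
  have H : Hy Γ ρ D φ m := ⟨⟨hρ, hρΓ, hK⟩, hDm, hD, hφ, hs, hn⟩
  obtain ⟨l1, l2⟩ := h8 h1 h2 h3 Γ ρ D φ m H
  have hqe : QE.QuantumErgodic ρ φ m → ∀ ε > 0, ∃ N₀ : ℕ, ∀ N ≥ N₀, ∀ᶠ n in atTop,
      |km ρ D φ n - 3 - 3 * enM ρ D φ m N n| ≤ ε * km ρ D φ n := h6 h1 h5 h3 Γ ρ D φ m H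
  -- negative curvature
  have hlow : Neg ρ → ∀ ε > 0, ∃ N₀ : ℕ, ∀ N ≥ N₀, ∀ᶠ n in atTop,
      3 + 3 * enM ρ D φ m N n ≤ km ρ D φ n + ε * km ρ D φ n :=
    fun hneg => h14 h1 h3 h13 h15 Γ ρ D φ m H hneg
  have htwo : Neg ρ → Equi φ → ∀ ε > 0, ∃ N₀ : ℕ, ∀ N ≥ N₀, ∀ᶠ n in atTop,
      |km ρ D φ n - 3 - 3 * enM ρ D φ m N n| ≤ ε * km ρ D φ n := by
    intro hneg hE ε hε
    obtain ⟨N₁, b1⟩ := l1 hE ε hε
    obtain ⟨N₂, b2⟩ := hlow hneg ε hε
    refine ⟨max N₁ N₂, fun N hN => ?_⟩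
    filter_upwards [b1 N (le_trans (le_max_left _ _) hN), b2 N (le_trans (le_max_right _ _) hN)]
      with n c1 c2
    rw [abs_le]
    constructor <;> linarith
  refine ⟨fun hq ε hε => ?_, fun hq x ε hε => ?_, l1, ?_, fun hneg => ⟨hlow hneg, htwo hneg,
    ⟨fun hk => ?_, ?_⟩⟩⟩
  · obtain ⟨N₁, b1⟩ := hqe hq (ε / 2) (by positivity)
    obtain ⟨N₂, b2⟩ := h10 h9 h3 Γ ρ D φ m H hq (ε / 2) (by positivity)
    refine ⟨max N₁ N₂, fun N hN => ?_⟩
    filter_upwards [b1 N (le_trans (le_max_left _ _) hN), b2 N (le_trans (le_max_right _ _) hN)]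
      with n c1 c2
    have hk := LW4.km_nonneg (ρ := ρ) (D := D) (φ := φ) n
    have d1 := abs_le.1 c1
    have d2 := abs_le.1 c2
    constructor
    · refine c1.trans ?_
      nlinarith
    · rw [abs_le]
      constructor <;> nlinarith [d1.1, d1.2, d2.1, d2.2]
  · have hfs := QE.four_surface H.meas H.fd H.fac.cpt H.fac.smooth H.fac.inv H.eig H.smooth hq x
    obtain ⟨N₁, b1⟩ := hqe hq (ε / 4) (by positivity)
    refine ⟨N₁, fun N hN => ?_⟩
    have e1 := (Metric.tendsto_nhds.1 hfs) (ε / 4) (by positivity)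
    filter_upwards [b1 N hN, e1] with n c1 c2
    have hk := LW4.km_ge H n
    have hk0 : (0 : ℝ) < km ρ D φ n := by linarith
    have hg : ∫ p, ∏ i, Berry.rWave ρ (φ n) (m n) (x i) p ∂(Berry.rFrameProb ρ D)
        = gm ρ D φ m n x := by
      unfold gm
      simp only [Fin.prod_univ_four]
    have hdef : QE.defc x = resK x / 3 := by
      unfold QE.defc resK
      ring
    rw [Real.dist_eq, sub_zero, hg, hdef] at c2
    have c3 : |gm ρ D φ m n x - (QE.wick x + (km ρ D φ n - 3) * (resK x / 3))|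
        ≤ ε / 4 * km ρ D φ n := by
      have c4 := c2.le
      change |(gm ρ D φ m n x - (QE.wick x + (km ρ D φ n - 3) * (resK x / 3)))
        / km ρ D φ n| ≤ ε / 4 at c4
      rw [abs_div, abs_of_pos hk0, div_le_iff₀ hk0] at c4
      exact c4
    have hres : |resK x| ≤ 3 := by
      unfold resK
      have a1 := Berry.waveK_abs_le (x 0 + x 1 - x 2 - x 3)
      have a2 := Berry.waveK_abs_le (x 0 + x 2 - x 1 - x 3)
      have a3 := Berry.waveK_abs_le (x 0 + x 3 - x 1 - x 2)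
      rw [abs_le] at a1 a2 a3 ⊢
      constructor <;> linarith [a1.1, a1.2, a2.1, a2.2, a3.1, a3.2]
    have e2 : gm ρ D φ m n x - QE.wick x - enM ρ D φ m N n * resK x
        = (gm ρ D φ m n x - (QE.wick x + (km ρ D φ n - 3) * (resK x / 3)))
          + (km ρ D φ n - 3 - 3 * enM ρ D φ m N n) * (resK x / 3) := by ring
    rw [e2]
    refine (abs_add_le _ _).trans ?_
    have c5 : |(km ρ D φ n - 3 - 3 * enM ρ D φ m N n) * (resK x / 3)|
        ≤ ε / 4 * km ρ D φ n := by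
      rw [abs_mul]
      have c6 : |resK x / 3| ≤ 1 := by
        rw [abs_div, abs_of_pos (by norm_num : (0 : ℝ) < 3), div_le_one (by norm_num)]
        exact hres
      calc |km ρ D φ n - 3 - 3 * enM ρ D φ m N n| * |resK x / 3|
          ≤ (ε / 4 * km ρ D φ n) * 1 := mul_le_mul c1 c6 (abs_nonneg _) (by positivity)
        _ = ε / 4 * km ρ D φ n := mul_one _
    have c7 : (0 : ℝ) ≤ ε / 2 * km ρ D φ n := by positivity
    linarith
  · have T := QE.tfae_local (D := D) (ρ := ρ) (Γ := Γ) hDm hD hK hρ hρΓ hφ hs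
    tfae_have 1 ↔ 3 := by
      have := T.out 4 0 (h₁ := rfl) (h₂ := rfl)
      exact this
    tfae_have 2 ↔ 3 := by
      have := T.out 5 0 (h₁ := rfl) (h₂ := rfl)
      exact this
    tfae_have 3 → 4 := fun h => ⟨h.1, box_of_en h1 h3 H (en_small h.2 (hqe h.1))⟩
    tfae_have 4 → 3 := by
      rintro ⟨hq, hB⟩
      refine ⟨hq, tend_three (lower_qe H hq) (h7 h1 h4 h3 Γ ρ D φ m H l2 ?_ hB)⟩
      intro ε hε
      obtain ⟨N₀, hN₀⟩ := hqe hq ε hε
      refine ⟨N₀, fun N hN => ?_⟩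
      filter_upwards [hN₀ N hN] with n a1
      have := (abs_le.1 a1).2
      linarith
    tfae_finish
  · have hE := (h12 h1 h3 Γ ρ D φ m H hneg hk).1
    exact ⟨hE, box_of_en h1 h3 H (en_small hk (htwo hneg hE))⟩
  · rintro ⟨hE, hB⟩
    exact tend_three (lower_neg H hneg) (h7 h1 h4 h3 Γ ρ D φ m H l2 (l1 hE) hB)

end

end PK4
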