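import Pool.Agent.PWV.PRS
import Pool.Agent.PWV.SQR
import Pool.Agent.PWV.PAR
import Pool.Agent.PWV.NIK
import Pool.Agent.PWV.LOW
import Pool.Agent.PWV.CHR
import Pool.Agent.PWV.WKQ
import Pool.Agent.PWV.WKL
import Pool.Agent.PWV.RKQ
import Pool.Agent.PWV.SUP
import Pool.Agent.PWV.EXP
import Pool.Agent.PWV.COR
import Pool.Agent.PWV.St1

/-!
# The closed lemmas on plane waves
-/

namespace PK4

open PWV

theorem par_closed : StmtPar := t_PAR t_PRS t_SQR

theorem wkq_closed : StmtWkq := t_WKQ t_CHR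

theorem wkl_closed : StmtWkl := t_WKL t_CHR

theorem rkq_closed : StmtRkq := t_RKQ PK4.wkq_closed PK4.wkl_closed

end PK4
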