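import Pool.Agent.PK4.St2

/-!
# Project L4 (MP_4fa179_mp): small boxes control large boxes (module STA)
-/

set_option autoImplicit false

open Complex MeasureTheory Filter Topology Set
open UpperHalfPlane hiding I
open scoped ContDiff MatrixGroups ProbabilityTheory ENNReal

namespace PK4

open PWV NFP

noncomputable section

namespace STA

/-- the points near the boundary -/
def ring' (M N : ℕ) : Finset (ℕ × ℕ) := box (M + N) \ (Finset.Ico M N ×ˢ Finset.Ico M N)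

theorem mem_ring {M N : ℕ} {r : ℕ × ℕ} : r ∈ ring' M N ↔
    (r.1 < M + N ∧ r.2 < M + N) ∧ ¬ ((M ≤ r.1 ∧ r.1 < N) ∧ (M ≤ r.2 ∧ r.2 < N)) := by
  unfold ring'
  rw [Finset.mem_sdiff, SQR.mem_box, Finset.mem_product, Finset.mem_Ico, Finset.mem_Ico]

theorem card_ring {M N : ℕ} (h : M ≤ N) : (ring' M N).card = 4 * M * N := by
  unfold ring'
  rw [Finset.card_sdiff_of_subset, NIK.card_box, Finset.card_product, Nat.card_Ico]
  · obtain ⟨k, rfl⟩ := Nat.exists_eq_add_of_le h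
    rw [Nat.add_sub_cancel_left]
    have : (M + (M + k)) * (M + (M + k)) = 4 * M * (M + k) + k * k := by ring
    omega
  · intro r hr
    rw [Finset.mem_product, Finset.mem_Ico, Finset.mem_Ico] at hr
    rw [SQR.mem_box]
    omega

/-- the shifted box and the box -/
theorem shift (g : ℕ × ℕ → ℂ) (M N : ℕ) (q : ℕ × ℕ) (hq : q ∈ box M) :
    ‖∑ r ∈ box N, g r - ∑ t ∈ box N, g (q + t)‖ ≤ ∑ r ∈ ring' M N, ‖g r‖ := by
  classical
  rw [SQR.mem_box] at hq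
  have hinj : Function.Injective fun t : ℕ × ℕ => q + t := fun a b h => add_left_cancel h
  have e1 : ∑ t ∈ box N, g (q + t) = ∑ r ∈ (box N).map ⟨_, hinj⟩, g r := by
    rw [Finset.sum_map]
    rfl
  have hmem : ∀ r : ℕ × ℕ, r ∈ (box N).map ⟨_, hinj⟩ ↔
      (q.1 ≤ r.1 ∧ r.1 < q.1 + N) ∧ (q.2 ≤ r.2 ∧ r.2 < q.2 + N) := by
    intro r
    rw [Finset.mem_map]
    constructor
    · rintro ⟨t, ht, rfl⟩
      rw [SQR.mem_box] at ht
      show (q.1 ≤ q.1 + t.1 ∧ q.1 + t.1 < q.1 + N) ∧ (q.2 ≤ q.2 + t.2 ∧ q.2 + t.2 < q.2 + N)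
      omega
    · rintro ⟨⟨h1, h2⟩, h3, h4⟩
      refine ⟨(r.1 - q.1, r.2 - q.2), ?_, ?_⟩
      · rw [SQR.mem_box]
        show r.1 - q.1 < N ∧ r.2 - q.2 < N
        omega
      · show q + (r.1 - q.1, r.2 - q.2) = r
        apply Prod.ext
        · show q.1 + (r.1 - q.1) = r.1
          omega
        · show q.2 + (r.2 - q.2) = r.2
          omega
  rw [e1, ← Finset.sum_sdiff_sub_sum_sdiff]
  refine (norm_sub_le _ _).trans ?_
  refine (add_le_add (norm_sum_le _ _) (norm_sum_le _ _)).trans ?_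
  rw [← Finset.sum_union]
  · refine Finset.sum_le_sum_of_subset_of_nonneg ?_ fun _ _ _ => norm_nonneg _
    intro r hr
    rw [Finset.mem_union, Finset.mem_sdiff, Finset.mem_sdiff, hmem, SQR.mem_box] at hr
    rw [mem_ring]
    omega
  · rw [Finset.disjoint_left]
    intro r h1 h2
    exact (Finset.mem_sdiff.1 h2).2 (Finset.mem_sdiff.1 h1).1

theorem coef_shift (f : ℂ → ℝ) (M : ℕ) (v : ℂ) (t : ℕ × ℕ) :
    ew v t * coef (fun x => f (x + pt t)) M v =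
      1 / (M : ℂ) ^ 2 * ∑ q ∈ box M, ((f (pt (q + t)) : ℝ) : ℂ) * ew v (q + t) := by
  unfold coef
  rw [mul_left_comm, Finset.mul_sum]
  congr 1
  refine Finset.sum_congr rfl fun q _ => ?_
  rw [SQR.pt_add, ← SQR.ew_mul]
  ring

/-- the inequality -/
theorem ineq (f : ℂ → ℝ) {M N : ℕ} (hM : 0 < M) (v : ℂ) :
    ‖∑ r ∈ box N, ((f (pt r) : ℝ) : ℂ) * ew v r‖ ≤
      ∑ t ∈ box N, ‖coef (fun x => f (x + pt t)) M v‖ + ∑ r ∈ ring' M N, |f (pt r)| := by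
  set g : ℕ × ℕ → ℂ := fun r => ((f (pt r) : ℝ) : ℂ) * ew v r with hg
  have hng : ∀ r, ‖g r‖ = |f (pt r)| := by
    intro r
    rw [hg]
    show ‖((f (pt r) : ℝ) : ℂ) * ew v r‖ = _
    rw [norm_mul, NIK.norm_ew, mul_one, Complex.norm_real, Real.norm_eq_abs]
  have hMc : (M : ℂ) ^ 2 ≠ 0 := pow_ne_zero _ (Nat.cast_ne_zero.2 hM.ne')
  have hMr : (0 : ℝ) < (M : ℝ) ^ 2 := by positivity
  have e1 : ∑ t ∈ box N, ew v t * coef (fun x => f (x + pt t)) M v =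
      1 / (M : ℂ) ^ 2 * ∑ q ∈ box M, ∑ t ∈ box N, g (q + t) := by
    rw [Finset.sum_congr rfl fun t _ => coef_shift f M v t, ← Finset.mul_sum, Finset.sum_comm]
  have e2 : ∑ r ∈ box N, g r - ∑ t ∈ box N, ew v t * coef (fun x => f (x + pt t)) M v =
      1 / (M : ℂ) ^ 2 * ∑ q ∈ box M, (∑ r ∈ box N, g r - ∑ t ∈ box N, g (q + t)) := by
    rw [e1, Finset.sum_sub_distrib, Finset.sum_const, NIK.card_box, nsmul_eq_mul, mul_sub]
    have h1 : 1 / (M : ℂ) ^ 2 * (((M * M : ℕ) : ℂ) * ∑ r ∈ box N, g r) = ∑ r ∈ box N, g r := by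
      rw [← mul_assoc]
      have h2 : 1 / (M : ℂ) ^ 2 * ((M * M : ℕ) : ℂ) = 1 := by
        push_cast
        rw [← sq, one_div, inv_mul_cancel₀ hMc]
      rw [h2, one_mul]
    rw [h1]
  have e3 : ‖∑ r ∈ box N, g r - ∑ t ∈ box N, ew v t * coef (fun x => f (x + pt t)) M v‖ ≤
      ∑ r ∈ ring' M N, ‖g r‖ := by
    rw [e2, norm_mul, norm_div, norm_one, norm_pow, Complex.norm_natCast]
    have h1 : ‖∑ q ∈ box M, (∑ r ∈ box N, g r - ∑ t ∈ box N, g (q + t))‖ ≤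
        ((M : ℝ) ^ 2) * ∑ r ∈ ring' M N, ‖g r‖ := by
      refine (norm_sum_le_of_le _ fun q hq => shift g M N q hq).trans ?_
      rw [Finset.sum_const, NIK.card_box, nsmul_eq_mul]
      push_cast
      rw [sq]
    rw [one_div, inv_mul_le_iff₀ hMr]
    exact h1
  have e4 : ‖∑ t ∈ box N, ew v t * coef (fun x => f (x + pt t)) M v‖ ≤
      ∑ t ∈ box N, ‖coef (fun x => f (x + pt t)) M v‖ := by
    refine norm_sum_le_of_le _ fun t _ => ?_
    rw [norm_mul, NIK.norm_ew, one_mul]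
  have e5 : ‖∑ r ∈ box N, g r‖ ≤
      ‖∑ t ∈ box N, ew v t * coef (fun x => f (x + pt t)) M v‖ +
        ‖∑ r ∈ box N, g r - ∑ t ∈ box N, ew v t * coef (fun x => f (x + pt t)) M v‖ := by
    refine le_trans (le_of_eq ?_) (norm_add_le _ _)
    congr 1
    ring
  have e6 : ∑ r ∈ ring' M N, ‖g r‖ = ∑ r ∈ ring' M N, |f (pt r)| :=
    Finset.sum_congr rfl fun r _ => hng r
  linarith [e6 ▸ e3]

/-- the bound which does not depend on `v` -/
def U (f : ℂ → ℝ) (M N : ℕ) : ℝ :=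
  8 / (N : ℝ) ^ 2 * ∑ t ∈ box N, 16 / 9 * en (fun x => f (x + pt t)) M +
    8 / (N : ℝ) ^ 8 * (4 * M * N : ℝ) ^ 3 * ∑ r ∈ ring' M N, f (pt r) ^ 4

theorem pow_bd {a b : ℝ} : (a + b) ^ 4 ≤ 8 * a ^ 4 + 8 * b ^ 4 := by
  have h1 : (a + b) ^ 2 ≤ 2 * a ^ 2 + 2 * b ^ 2 := by nlinarith [sq_nonneg (a - b)]
  have h2 : ((a + b) ^ 2) ^ 2 ≤ (2 * a ^ 2 + 2 * b ^ 2) ^ 2 :=
    pow_le_pow_left₀ (sq_nonneg _) h1 2
  nlinarith [sq_nonneg (a ^ 2 - b ^ 2)]

theorem bound (f : ℂ → ℝ) {M N : ℕ} (hM : 0 < M) (hMN : M ≤ N) (v : ℂ) :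
    ‖coef f N v‖ ^ 4 ≤ U f M N := by
  have hN : 0 < N := lt_of_lt_of_le hM hMN
  have hNr : (0 : ℝ) < (N : ℝ) := Nat.cast_pos.2 hN
  set a : ℝ := ∑ t ∈ box N, ‖coef (fun x => f (x + pt t)) M v‖ with ha
  set b : ℝ := ∑ r ∈ ring' M N, |f (pt r)| with hb
  have ha0 : 0 ≤ a := Finset.sum_nonneg fun _ _ => norm_nonneg _
  have hb0 : 0 ≤ b := Finset.sum_nonneg fun _ _ => abs_nonneg _
  have h1 : ‖coef f N v‖ ≤ 1 / (N : ℝ) ^ 2 * (a + b) := by
    unfold coef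
    rw [norm_mul, norm_div, norm_one, norm_pow, Complex.norm_natCast]
    exact mul_le_mul_of_nonneg_left (ineq f hM v) (by positivity)
  have h2 : a ^ 4 ≤ ((N : ℝ) * N) ^ 3 * ∑ t ∈ box N, 16 / 9 * en (fun x => f (x + pt t)) M := by
    have h3 := pow_sum_le_card_mul_sum_pow (s := box N)
      (f := fun t => ‖coef (fun x => f (x + pt t)) M v‖) (fun _ _ => norm_nonneg _) 3
    rw [NIK.card_box] at h3
    push_cast at h3
    refine h3.trans (mul_le_mul_of_nonneg_left ?_ (by positivity))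
    exact Finset.sum_le_sum fun t _ => t_NIK t_PRS t_SQR _ M v
  have h4 : b ^ 4 ≤ (4 * M * N : ℝ) ^ 3 * ∑ r ∈ ring' M N, f (pt r) ^ 4 := by
    have h3 := pow_sum_le_card_mul_sum_pow (s := ring' M N)
      (f := fun r => |f (pt r)|) (fun _ _ => abs_nonneg _) 3
    rw [card_ring hMN] at h3
    push_cast at h3
    refine h3.trans (le_of_eq ?_)
    congr 1
    refine Finset.sum_congr rfl fun r _ => ?_
    exact (show Even 4 by decide).pow_abs _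
  have h5 : ‖coef f N v‖ ^ 4 ≤ (1 / (N : ℝ) ^ 2 * (a + b)) ^ 4 :=
    pow_le_pow_left₀ (norm_nonneg _) h1 4
  refine h5.trans ?_
  rw [mul_pow]
  have h6 : (1 / (N : ℝ) ^ 2) ^ 4 = 1 / (N : ℝ) ^ 8 := by
    rw [div_pow, one_pow, ← pow_mul]
  rw [h6]
  have h7 : 1 / (N : ℝ) ^ 8 * (a + b) ^ 4 ≤ 1 / (N : ℝ) ^ 8 *
      (8 * (((N : ℝ) * N) ^ 3 * ∑ t ∈ box N, 16 / 9 * en (fun x => f (x + pt t)) M) +
        8 * ((4 * M * N : ℝ) ^ 3 * ∑ r ∈ ring' M N, f (pt r) ^ 4)) := by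
    refine mul_le_mul_of_nonneg_left ?_ (by positivity)
    have := @pow_bd a b
    linarith
  refine h7.trans (le_of_eq ?_)
  unfold U
  have hN0 : (N : ℝ) ≠ 0 := hNr.ne'
  field_simp

section

variable {Ω : Type} [MeasurableSpace Ω] {P : Measure Ω} [IsProbabilityMeasure P]
  {F : ℂ → Ω → ℝ} {C : ℝ} {M N : ℕ}

theorem prod_int (hC : 0 ≤ C) {f₁ f₂ f₃ f₄ : Ω → ℝ} (m₁ : Measurable f₁) (m₂ : Measurable f₂)
    (m₃ : Measurable f₃) (m₄ : Measurable f₄) (b₁ : ∀ o, |f₁ o| ≤ C) (b₂ : ∀ o, |f₂ o| ≤ C)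
    (b₃ : ∀ o, |f₃ o| ≤ C) (b₄ : ∀ o, |f₄ o| ≤ C) :
    Integrable (fun o => f₁ o * f₂ o * f₃ o * f₄ o) P := by
  refine Integrable.of_bound (((m₁.mul m₂).mul m₃).mul m₄).aestronglyMeasurable (C * C * C * C)
    (ae_of_all _ fun o => ?_)
  rw [Real.norm_eq_abs, abs_mul, abs_mul, abs_mul]
  have := b₁ o
  have := b₂ o
  have := b₃ o
  have := b₄ o
  gcongr

theorem en_int (hC : 0 ≤ C) (hm : ∀ q ∈ box (M + N), Measurable (F (pt q)))
    (hb : ∀ q ∈ box (M + N), ∀ o, |F (pt q) o| ≤ C) (t : ℕ × ℕ) (ht : t ∈ box N) :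
    Integrable (fun o => en (fun x => F (x + pt t) o) M) P := by
  have e : (fun o => en (fun x => F (x + pt t) o) M) = fun o => 9 / 4 * (1 / (M : ℝ) ^ 6 *
      ∑ q ∈ quads M, F (pt (q.1 + t)) o * F (pt (q.2.1 + t)) o * F (pt (q.2.2.1 + t)) o *
        F (pt (q.2.2.2 + t)) o) := by
    funext o
    rw [par_closed]
    simp only [SQR.pt_add]
    rfl
  rw [e]
  have hq : ∀ q ∈ box M, q + t ∈ box (M + N) := by
    intro q hq
    rw [SQR.mem_box] at hq ht ⊢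
    show q.1 + t.1 < M + N ∧ q.2 + t.2 < M + N
    omega
  refine ((integrable_finsetSum _ fun q hq' => ?_).const_mul _).const_mul _
  unfold quads at hq'
  rw [Finset.mem_filter, Finset.mem_product, Finset.mem_product, Finset.mem_product] at hq'
  obtain ⟨⟨k1, k2, k3, k4⟩, -⟩ := hq'
  exact prod_int hC (hm _ (hq _ k1)) (hm _ (hq _ k2)) (hm _ (hq _ k3)) (hm _ (hq _ k4))
    (hb _ (hq _ k1)) (hb _ (hq _ k2)) (hb _ (hq _ k3)) (hb _ (hq _ k4))

theorem p4_int (hC : 0 ≤ C) (hm : ∀ q ∈ box (M + N), Measurable (F (pt q)))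
    (hb : ∀ q ∈ box (M + N), ∀ o, |F (pt q) o| ≤ C) (q : ℕ × ℕ) (hq : q ∈ box (M + N)) :
    Integrable (fun o => F (pt q) o ^ 4) P := by
  have e : (fun o => F (pt q) o ^ 4) = fun o => F (pt q) o * F (pt q) o * F (pt q) o *
      F (pt q) o := by
    funext o
    ring
  rw [e]
  exact prod_int hC (hm _ hq) (hm _ hq) (hm _ hq) (hm _ hq) (hb _ hq) (hb _ hq) (hb _ hq) (hb _ hq)

end

end STA

open STA in
theorem t_STA : StmtSta := by
  intro Ω _ P _ F C M N hM hMN hm hb e κ he hκ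
  have hN : 0 < N := lt_of_lt_of_le hM hMN
  have hNr : (0 : ℝ) < (N : ℝ) := Nat.cast_pos.2 hN
  have h00 : ((0, 0) : ℕ × ℕ) ∈ box (M + N) := by
    rw [SQR.mem_box]
    show 0 < M + N ∧ 0 < M + N
    omega
  have h00' : ((0, 0) : ℕ × ℕ) ∈ box N := by
    rw [SQR.mem_box]
    exact ⟨hN, hN⟩
  have : Nonempty Ω := P.nonempty_of_neZero
  have hC : 0 ≤ C := (abs_nonneg _).trans (hb _ h00 (Classical.arbitrary Ω))
  have he0 : 0 ≤ e := (integral_nonneg fun o => EXP.en_nonneg _ _).trans (he _ h00')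
  have hκ0 : 0 ≤ κ := (integral_nonneg fun o => by positivity).trans (hκ _ h00)
  have hringsub : ∀ r ∈ ring' M N, r ∈ box (M + N) := fun r hr => (Finset.mem_sdiff.1 hr).1
  have i1 : Integrable (fun o => 8 / (N : ℝ) ^ 2 *
      ∑ t ∈ box N, 16 / 9 * en (fun x => F (x + pt t) o) M) P :=
    (integrable_finsetSum _ fun t ht => (en_int hC hm hb t ht).const_mul _).const_mul _
  have i2 : Integrable (fun o => 8 / (N : ℝ) ^ 8 * (4 * M * N : ℝ) ^ 3 *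
      ∑ r ∈ ring' M N, F (pt r) o ^ 4) P :=
    (integrable_finsetSum _ fun r hr => p4_int hC hm hb r (hringsub r hr)).const_mul _
  have iU : Integrable (fun o => U (fun x => F x o) M N) P := i1.add i2
  have hU0 : ∀ o, 0 ≤ U (fun x => F x o) M N := fun o =>
    (pow_nonneg (norm_nonneg _) 4).trans (bound (fun x => F x o) hM hMN 0)
  have h1 : ∫⁻ o, ⨆ v : ℂ, ENNReal.ofReal (‖coef (fun x => F x o) N v‖ ^ 4) ∂P ≤
      ∫⁻ o, ENNReal.ofReal (U (fun x => F x o) M N) ∂P :=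
    lintegral_mono fun o => iSup_le fun v =>
      ENNReal.ofReal_le_ofReal (bound (fun x => F x o) hM hMN v)
  refine h1.trans ?_
  rw [← ofReal_integral_eq_lintegral_ofReal iU (Eventually.of_forall hU0)]
  refine ENNReal.ofReal_le_ofReal ?_
  have h2 : ∫ o, U (fun x => F x o) M N ∂P =
      8 / (N : ℝ) ^ 2 * ∑ t ∈ box N, 16 / 9 * ∫ o, en (fun x => F (x + pt t) o) M ∂P +
      8 / (N : ℝ) ^ 8 * (4 * M * N : ℝ) ^ 3 * ∑ r ∈ ring' M N, ∫ o, F (pt r) o ^ 4 ∂P := by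
    show ∫ o, (8 / (N : ℝ) ^ 2 * ∑ t ∈ box N, 16 / 9 * en (fun x => F (x + pt t) o) M +
      8 / (N : ℝ) ^ 8 * (4 * M * N : ℝ) ^ 3 * ∑ r ∈ ring' M N, F (pt r) o ^ 4) ∂P = _
    rw [integral_add i1 i2, integral_const_mul, integral_const_mul,
      integral_finsetSum _ fun t ht => (en_int hC hm hb t ht).const_mul _,
      integral_finsetSum _ fun r hr => p4_int hC hm hb r (hringsub r hr)]
    simp only [integral_const_mul]
  rw [h2]
  have h3 : ∑ t ∈ box N, 16 / 9 * ∫ o, en (fun x => F (x + pt t) o) M ∂P ≤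
      (N : ℝ) ^ 2 * (16 / 9 * e) := by
    refine (Finset.sum_le_sum fun t ht => mul_le_mul_of_nonneg_left (he t ht)
      (by norm_num : (0 : ℝ) ≤ 16 / 9)).trans (le_of_eq ?_)
    rw [Finset.sum_const, NIK.card_box, nsmul_eq_mul]
    push_cast
    ring
  have h4 : ∑ r ∈ ring' M N, ∫ o, F (pt r) o ^ 4 ∂P ≤ (4 * M * N : ℝ) * κ := by
    refine (Finset.sum_le_sum fun r hr => hκ r (hringsub r hr)).trans (le_of_eq ?_)
    rw [Finset.sum_const, card_ring hMN, nsmul_eq_mul]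
    push_cast
    ring
  have h5 : 8 / (N : ℝ) ^ 2 * ∑ t ∈ box N, 16 / 9 * ∫ o, en (fun x => F (x + pt t) o) M ∂P ≤
      8 / (N : ℝ) ^ 2 * ((N : ℝ) ^ 2 * (16 / 9 * e)) :=
    mul_le_mul_of_nonneg_left h3 (by positivity)
  have h6 : 8 / (N : ℝ) ^ 8 * (4 * M * N : ℝ) ^ 3 * ∑ r ∈ ring' M N, ∫ o, F (pt r) o ^ 4 ∂P ≤
      8 / (N : ℝ) ^ 8 * (4 * M * N : ℝ) ^ 3 * ((4 * M * N : ℝ) * κ) :=
    mul_le_mul_of_nonneg_left h4 (by positivity)
  have hN0 : (N : ℝ) ≠ 0 := hNr.ne'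
  have h7 : 8 / (N : ℝ) ^ 2 * ((N : ℝ) ^ 2 * (16 / 9 * e)) = 128 / 9 * e := by
    field_simp
    ring
  have h8 : 8 / (N : ℝ) ^ 8 * (4 * M * N : ℝ) ^ 3 * ((4 * M * N : ℝ) * κ) =
      2048 * ((M : ℝ) / N) ^ 4 * κ := by
    field_simp
    ring
  rw [h7] at h5
  rw [h8] at h6
  linarith

end

end PK4
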